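import Pool.Agent.W_448jx_h67.WeG

/-!
The windows `2`, `3` at `j = 10` with the component of the end `(5, 25, 0)`: outcomes of the
cheapest class, with a set of pendants and twins which are natural (MP_448cb3_co, HJoin10)
-/

namespace Pool.Agent.GaussPoset.Sm

set_option linter.unusedSectionVars false

open Polynomial Finset

universe u

variable {P : Type u} [Fintype P] [PartialOrder P] [DecidableEq P] {r j w K0 K : ℕ}
  {N : Tops P → Finset P} {b : Tops P → ℕ} {θ : Tops P → P → ℕ} {XE XO : ℕ → Prop}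

/-- the cheapest class without the set `Zf` and the twins `FT` -/
structure MnF (w : ℕ) (N : Tops P → Finset P) (Zf : Finset P) (FT : P → Prop) (hF tc : P → ℕ)
    (v : ℕ) : Prop where
  bd : ∀ z ∈ bdR (rA N \ Zf), v ≤ cst w hF z
  tw : ∀ x ∈ twA N, ¬ FT x → v ≤ tc x

open Classical in
/-- a set `Zf` of pendants below the twins `FT` which are treated as natural -/
structure FS (P : Type u) [Fintype P] [PartialOrder P] [DecidableEq P] (j w K : ℕ)
    (N : Tops P → Finset P) (b : Tops P → ℕ) (θ : Tops P → P → ℕ) (Zf : Finset P)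
    (FT : P → Prop) (hF : P → ℕ) : Prop where
  sub : Zf ⊆ rA N
  up : ∀ z ∈ Zf, ∃ x ∈ twA N, FT x ∧ z ⋖ x ∧ ∀ y, z ⋖ y → y = x
  ft : ∀ x ∈ twA N, FT x → ¬ Row1 j w N θ (twT N x)
  eq : ∀ z ∈ bdR (rA N), z ∉ Zf → (∀ y ∈ Zf, ¬ z ⋖ y) → hF z = hS j w N b θ z
  pos : ∀ z ∈ bdR (rA N \ Zf), 1 ≤ hF z
  big : ∀ z ∈ bdR (rA N \ Zf), (∃ y ∈ Zf, z ⋖ y) → K < cst w hF z
  far : ∀ v, MnF w N Zf FT hF (tcS j w N b θ) v → v ≤ K →
    FarV P w (rA N \ Zf) (lv P w).card hF
      (∑ x ∈ (twA N).filter (fun x => ¬ FT x ∧ tcS j w N b θ x = v), TmS j w N b θ x) v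

/-- the remaining inputs at window `w`, larger labels -/
structure LkF (P : Type u) [Fintype P] [PartialOrder P] [DecidableEq P] (j w K0 K : ℕ)
    (N : Tops P → Finset P) (b : Tops P → ℕ) (θ : Tops P → P → ℕ) (XE XO : ℕ → Prop)
    (Zf : Finset P) (FT : P → Prop) : Prop where
  hK : 2 * K < 3 * (j + 1 - w) ^ 2 + 3 * (j + 1 - w)
  unq : Unq P w b
  nsk : ∀ z x x' : P, Cg z x x' → j + 1 ≤ lev z → nab w x = 1 → ¬ Sok j x → K < ful w z
  dj : ∀ (v : ℕ) (z x : P), z ∈ bdR (rA N) → cst w (hS j w N b θ) z = v →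
    lev z = j + 1 → z ⋖ x → Dk j w K0 N θ x → OutK j w K XE XO (hS j w N b θ) z v
  dp : ∀ (v : ℕ) (z x : P), z ∈ bdR (rA N) → z ∉ Zf → (∀ y ∈ Zf, ¬ z ⋖ y) →
    cst w (hS j w N b θ) z = v →
    x ∉ rA N → z ⋖ x → j + 1 ≤ lev x → Dk j w K0 N θ (GaussPoset.bs N x) →
    ¬ Row1 j w N θ (GaussPoset.bs N x) → OutK j w K XE XO (hS j w N b θ) z v
  dt : ∀ x ∈ twA N, ¬ FT x → Dk j w K0 N θ (twT N x) → ¬ Row1 j w N θ (twT N x) →
    OutT j w K XE XO N b θ x

/-- special cells are deep -/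
lemma We.spc_deep (W : We r j w K0 N b θ) {x : P} (hx : x ∉ unnat N) (hs : Spc j w N b θ x) :
    Dk j w K0 N θ x := by
  obtain ⟨Nc, co, C⟩ := hs
  have hj := W.hj
  have hl := C.lev (by omega)
  have hth := C.th
  rcases W.cases hx (by omega) with h | h | h
  · have := h.th
    omega
  · have := h.th
    omega
  · exact h

/-- the labels are the canonical ones without deep covers -/
lemma We.hS_eq (W : We r j w K0 N b θ) (hw2 : 2 ≤ w) {z : P}
    (hnd : ∀ x, x ∉ rA N → z ⋖ x → Dk j w K0 N θ (GaussPoset.bs N x) →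
      Row1 j w N θ (GaussPoset.bs N x)) :
    hS j w N b θ z = hA N θ z := by
  have hp : ¬ PenS j w N b θ z := by
    rintro ⟨-, x, h1, h2, -, h4⟩
    have h5 := (hnd x h1 h2 (W.spc_deep (W.bs h1).nat h4)).th
    obtain ⟨Nc, co, C⟩ := h4
    have hj := W.hj
    have := C.th
    have := C.lev (by omega)
    omega
  rw [hS_not hp]
  refine hC_not ?_
  rintro ⟨h1, h2, f, s, h3, h4, h5, h6, h7⟩
  have e1 := (W.gt.H.covBy_iff.mp h3).2
  have hj := W.hj
  have hf : f ∉ unnat N := W.low (by omega)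
  have hbs : GaussPoset.bs N f = f := by
    unfold GaussPoset.bs
    rw [if_neg (W.not_tw hf)]
  obtain ⟨Nc, co, C⟩ := W.fold_cell hw2 h1 h2 h3 h4 h5 h7 (W.not_E6 h1 h2 h3 h4 h5 h6)
  have hth := C.th
  suffices h : Dk j w K0 N θ f by
    have h8 := (hbs ▸ hnd f (not_mem_rA.mpr (Or.inl hf)) h3 (hbs.symm ▸ h)).th
    omega
  rcases W.cases hf (by omega) with h | h | h
  · have := h.th
    omega
  · have := h.th
    omega
  · exact h

/-- the labels are positive -/
lemma hS_posE (W : We r j w K0 N b θ) {z : P} (hz : z ∈ bdR (rA N)) : 1 ≤ hS j w N b θ z := by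
  obtain ⟨x0, g1, g2, g3⟩ := W.hA_spec hz
  by_cases hp : PenS j w N b θ z
  · rw [hS_of hp]; omega
  · rw [hS_not hp]
    by_cases hc : CEl j w N θ z
    · rw [hC_of hc]
      have h1 := W.bd_lev hz
      have := W.hj
      omega
    · rw [hC_not hc]; omega

/-- a cheapest boundary element without deep covers is flat -/
theorem We.flatS (W : We r j w K0 N b θ) (hw2 : 2 ≤ w) {Zf : Finset P} {FT : P → Prop}
    {hF : P → ℕ} (F : FS P j w K N b θ Zf FT hF) {v : ℕ}
    (M : MnF w N Zf FT hF (tcS j w N b θ) v) {z : P}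
    (hz : z ∈ bdR (rA N)) (hzf : z ∉ Zf) (hzn : ∀ y ∈ Zf, ¬ z ⋖ y)
    (hc : cst w (hS j w N b θ) z = v)
    (hnd : ∀ x, x ∉ rA N → z ⋖ x → Dk j w K0 N θ (GaussPoset.bs N x) →
      Row1 j w N θ (GaussPoset.bs N x)) :
    Flat j w N θ z ∧ lev z ≤ hA N θ z + 1 + w := by
  have H := W.gt.H.gradedBelow
  have hj := W.hj
  have hw := W.hw
  have hlz := W.bd_lev hz
  have hSA := W.hS_eq hw2 hnd
  have hc' : cst w (hA N θ) z = v := by
    rw [← hc, cst_const w (hA N θ) z, cst_const w (hS j w N b θ) z, hSA]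
  have hkd : ∀ x, x ∉ rA N → z ⋖ x → Str w N θ (GaussPoset.bs N x) ∨
      Row1 j w N θ (GaussPoset.bs N x) := by
    intro x hx hzx
    have g6 := W.bs hx
    have e1 := H.lev_covBy hzx
    have e3 := g6.lev
    rcases W.cases g6.nat (by omega) with h | h | h
    · exact Or.inl h
    · exact Or.inr h
    · exact Or.inr (hnd x hx hzx h)
  have hge : lev z ≤ hA N θ z + 1 + w := by
    obtain ⟨x0, g1, g2, g3⟩ := W.hA_spec hz
    have g7 := W.bs g1
    have e2 := H.lev_covBy g2
    have e4 := g7.lev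
    rcases hkd x0 g1 g2 with h | h
    · have := h.th
      omega
    · have := h.th
      omega
  refine ⟨?_, hge⟩
  intro x hzx
  have hxR : x ∉ rA N := by
    obtain ⟨u, hu1, hu2⟩ := (mem_bdR.mp hz).2
    have hz' : z ∈ bdR (rA N \ Zf) := mem_bdR.mpr ⟨mem_sdiff.mpr ⟨(mem_bdR.mp hz).1, hzf⟩, u,
      fun h => hu1 (mem_sdiff.mp h).1, hu2⟩
    have hFz := F.eq z hz hzf hzn
    intro hx
    refine no_cover_of_min (h := hF) H (fun x hx => ?_) M.bd F.pos hz' ?_
      (by omega) hzx (mem_sdiff.mpr ⟨hx, fun h => hzn x h hzx⟩)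
    · have := W.lt_lev (mem_rA.mp (mem_sdiff.mp hx).1).1
      omega
    · rw [← hc, cst_const w hF z, cst_const w (hS j w N b θ) z, hFz]
  have hxt : x ∉ twA N := by
    intro hxt
    have e1 := H.lev_covBy hzx
    obtain ⟨g1, g2⟩ := W.tw_cases hxt
    have hbs : GaussPoset.bs N x = twT N x := by
      unfold GaussPoset.bs
      rw [if_pos hxt]
    have g6 := W.bs hxR
    rw [hbs] at g6
    have hR : Row1 j w N θ (twT N x) := by
      rcases g2 with h | h
      · exact h
      · exact hbs ▸ hnd x hxR hzx (hbs.symm ▸ h)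
    have hns : ¬ Spc j w N b θ (twT N x) := by
      rintro ⟨Nc, co, C⟩
      have := C.th
      have := C.lev (by omega)
      have := hR.th
      omega
    obtain ⟨a, ha⟩ : ∃ a, lev x = w + a := ⟨lev x - w, by have := g6.lev; omega⟩
    have g7 := W.tcst_row1 hxt hR ha
    have g8 := M.tw x hxt (fun h => F.ft x hxt h hR)
    unfold tcS at g8
    rw [if_neg hns] at g8
    have g9 := cst_step (i := w) (h := hA N θ) H hzx (by omega)
    have g10 : ful w x = a ^ 2 := ful_two ha (fun k hk1 hk2 => by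
      have := hR.nab k hk1.le (by rw [g6.lev]; exact hk2)
      rcases g6.nab k with h | h
      · rw [← h]; exact this
      · omega)
    rw [g10, hc'] at g9
    have : a ≤ min (hA N θ z) (lev z - w) := by
      rw [Nat.le_min]
      omega
    omega
  rcases not_mem_rA.mp hxR with h | h
  · have hbs : GaussPoset.bs N x = x := by
      unfold GaussPoset.bs
      rw [if_neg hxt]
    have := hkd x hxR hzx
    rw [hbs] at this
    exact ⟨h, this⟩
  · exact absurd h hxt

/-- the outcomes for a cheapest boundary element -/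
theorem We.outS (W : We r j w K0 N b θ) (hw2 : 2 ≤ w) {Zf : Finset P} {FT : P → Prop}
    {hF : P → ℕ} (F : FS P j w K N b θ Zf FT hF)
    (L : LkF P j w K0 K N b θ XE XO Zf FT) {v : ℕ}
    (hP : OnePen P j (fun t => 2 ≤ b t) ∨ v ≤ (j + 1 - w) ^ 2 + 5 * (j - w))
    (M : MnF w N Zf FT hF (tcS j w N b θ) v) {z : P} (hz : z ∈ bdR (rA N)) (hzf : z ∉ Zf)
    (hzn : ∀ y ∈ Zf, ¬ z ⋖ y) (hc : cst w (hS j w N b θ) z = v) :
    OutK j w K XE XO (hS j w N b θ) z v := by
  classical
  have H := W.gt.H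
  have hj := W.hj
  have hw := W.hw
  have hlz := W.bd_lev hz
  by_cases hd : ∃ x, x ∉ rA N ∧ z ⋖ x ∧ Dk j w K0 N θ (GaussPoset.bs N x) ∧
      ¬ Row1 j w N θ (GaussPoset.bs N x)
  · obtain ⟨x, hx, hzx, hD, hnR⟩ := hd
    have e1 := (H.covBy_iff.mp hzx).2
    by_cases hl : j + 1 ≤ lev x
    · exact L.dp v z x hz hzf hzn hc hx hzx hl hD hnR
    · have hxu : x ∉ unnat N := W.low (by omega)
      have hbs : GaussPoset.bs N x = x := by
        unfold GaussPoset.bs
        rw [if_neg (W.not_tw hxu)]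
      rw [hbs] at hD
      exact L.dj v z x hz hc (by omega) hzx hD
  · push Not at hd
    have hSA := W.hS_eq hw2 hd
    obtain ⟨hF, hge⟩ := W.flatS hw2 F M hz hzf hzn hc hd
    have hc' : cst w (hA N θ) z = v := by
      rw [← hc, cst_const w (hA N θ) z, cst_const w (hS j w N b θ) z, hSA]
    refine outK_congr hSA.symm ?_
    by_cases hR : ∃ x, z ⋖ x ∧ Row1 j w N θ x
    · obtain ⟨x, hzx, hR⟩ := hR
      exact W.row1_outS L.hK hz hc' hF hge hzx hR
    · push Not at hR
      have hStr : ∀ x, z ⋖ x → x ∉ unnat N ∧ Str w N θ x := fun x hx =>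
        ⟨(hF x hx).1, (hF x hx).2.resolve_right (hR x hx)⟩
      have hh : hA N θ z = lev z - w := by
        obtain ⟨x0, f1, f2, f3⟩ := W.hA_spec hz
        obtain ⟨g1, g2⟩ := hStr x0 f2
        have hbs : GaussPoset.bs N x0 = x0 := by
          unfold GaussPoset.bs
          rw [if_neg (W.not_tw g1)]
        rw [hbs, g2.th] at f3
        have := (H.covBy_iff.mp f2).2
        omega
      by_cases hT : ∃ x x', z ⋖ x ∧ z ⋖ x' ∧ topOf x ≠ topOf x'
      · obtain ⟨x, x', h1, h2, h3⟩ := hT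
        exact W.cross_outS L.unq L.nsk hz hh hc' (hStr x h1).1 (hStr x' h2).1 (hStr x h1).2
          (hStr x' h2).2 h1 h2 h3
      · push Not at hT
        obtain ⟨x, hzx, -⟩ := Hul.exists_cov (w := z) (v := (topOf z : P))
          (lt_of_le_of_ne (le_topOf z) (by
            intro h
            have := (topOf z).2
            rw [← h] at this
            omega))
        exact W.own_outS hP hz hh hc' hStr (t := topOf x) fun x' hx' => hT x' x hx' hzx

/-- the outcome for the twins -/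
theorem We.out_twS (W : We r j w K0 N b θ) {Zf : Finset P} {FT : P → Prop}
    (L : LkF P j w K0 K N b θ XE XO Zf FT) {x : P}
    (hx : x ∈ twA N) (hxf : ¬ FT x) : OutT j w K XE XO N b θ x := by
  classical
  have hj := W.hj
  have hw := W.hw
  obtain ⟨hl, hk⟩ := W.tw_cases hx
  have hl2 := W.twSys.lev hx
  have hup := W.twSys.up x hx
  by_cases hnR : Row1 j w N θ (twT N x)
  swap
  · exact L.dt x hx hxf (hk.resolve_left hnR) hnR
  · clear hk
    have hk := hnR
    right
    have hns : ¬ Spc j w N b θ (twT N x) := by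
      rintro ⟨Nc, co, C⟩
      have := C.th
      have := C.lev (by omega)
      have := hk.th
      omega
    have e0 : tcS j w N b θ x = tcst w (thA N θ) (twT N x, x) := by
      unfold tcS; rw [if_neg hns]
    have e0' : TmS j w N b θ x = Tm w (thA N θ) (twT N x, x) := by
      unfold TmS; rw [if_neg hns]
    obtain ⟨a, ha⟩ : ∃ a, lev x = w + a := ⟨lev x - w, by omega⟩
    have h1 := W.tcst_row1 hx hk ha
    have hn : ∀ k, w ≤ k → k < lev x → nab k x = 2 := fun k h1 h2 => by
      rw [← nab_congr_up hup h2]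
      exact hk.nab k h1 (by omega)
    have e1 : thA N θ (twT N x) = θ (topOf (twT N x)) (twT N x) :=
      W.thA_nat (W.twSys.nat x hx)
    have hth := hk.th
    refine ⟨lev x - w, ?_, ?_, Or.inl ⟨?_, Or.inl ⟨hk.one_le, Or.inr (Or.inl
      ⟨a - (j + 1 - w), Or.inr ?_⟩)⟩⟩⟩
    · rw [e0', Tm_eq W.gt.H.gradedBelow (W.twn hx) (by simp only; omega)]
    · rw [hn w le_rfl (by omega), show w + (lev x - w) = lev x by omega, nab_self]
    · rw [nst_eq, Finset.sum_congr rfl (g := fun _ => 2)]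
      · rw [Finset.sum_const, card_range]
        exact ⟨lev x - w, by simp only [smul_eq_mul]; ring⟩
      · intro k hk'
        rw [mem_range] at hk'
        exact hn _ (by omega) (by omega)
    · rw [e0, h1, show j + 1 - w + (a - (j + 1 - w)) = a by omega]
      ring

end Pool.Agent.GaussPoset.Sm
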