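import Pool.Agent.W_448jx_h67.WeH
import Pool.Agent.W_448s7s_h5.SkX

/-!
The windows `2`, `3` at `j = 10` with the component of the end `(5, 25, 0)`: the cheapest class
has both signs, and the balance (MP_448cb3_co, HJoin10)
-/

namespace Pool.Agent.GaussPoset.Sm

set_option linter.unusedSectionVars false

open Polynomial Finset

universe u

variable {P : Type u} [Fintype P] [PartialOrder P] [DecidableEq P] {r j w K0 K : ℕ}
  {N : Tops P → Finset P} {b : Tops P → ℕ} {θ : Tops P → P → ℕ} {XE XO : ℕ → Prop}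

/-- existence of the minimal value -/
lemma exists_minF {Zf : Finset P} {FT : P → Prop} {hF tc : P → ℕ}
    (hne : (bdR (rA N \ Zf)).Nonempty) :
    ∃ v, MnF w N Zf FT hF tc v ∧ ((∃ z ∈ bdR (rA N \ Zf), cst w hF z = v) ∨
      ∃ x ∈ twA N, ¬ FT x ∧ tc x = v) := by
  classical
  let A : Finset ℕ := (bdR (rA N \ Zf)).image (cst w hF) ∪
    ((twA N).filter (fun x => ¬ FT x)).image tc
  have hA : A.Nonempty := by
    obtain ⟨z, hz⟩ := hne
    exact ⟨_, mem_union_left _ (mem_image_of_mem _ hz)⟩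
  refine ⟨A.min' hA, ⟨fun z hz => A.min'_le _ (mem_union_left _ (mem_image_of_mem _ hz)),
    fun x hx hf => A.min'_le _ (mem_union_right _
      (mem_image_of_mem tc (mem_filter.mpr ⟨hx, hf⟩)))⟩, ?_⟩
  have := A.min'_mem hA
  rcases mem_union.mp this with h | h
  · obtain ⟨z, hz, h⟩ := mem_image.mp h
    exact Or.inl ⟨z, hz, h⟩
  · obtain ⟨x, hx, h⟩ := mem_image.mp h
    rw [mem_filter] at hx
    exact Or.inr ⟨x, hx.1, hx.2, h⟩

/-- **The cheapest class at window `w` has both signs.** -/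
theorem We.bothS (W : We r j w K0 N b θ)
    (hw2 : 2 ≤ w) {Zf : Finset P} {FT : P → Prop}
    {hF : P → ℕ} (F : FS P j w K N b θ Zf FT hF)
    (L : LkF P j w K0 K N b θ XE XO Zf FT) {v : ℕ}
    (hP : OnePen P j (fun t => 2 ≤ b t) ∨ v ≤ (j + 1 - w) ^ 2 + 5 * (j - w))
    (M : MnF w N Zf FT hF (tcS j w N b θ) v)
    (hex : (∃ z ∈ bdR (rA N \ Zf), cst w hF z = v) ∨
      ∃ x ∈ twA N, ¬ FT x ∧ tcS j w N b θ x = v) (hcap : v ≤ K) :
    ((∃ z x x' : P, Cg z x x' ∧ Sok j x ∧ Sok j x' ∧ ful w z = v ∧ nab w z = 2 ∧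
      Odd (nst w (fun z => lev z - w) z)) ∨ OdN j w v ∨ XO v) ∧
    ((∃ z x x' : P, Cg z x x' ∧ Sok j x ∧ Sok j x' ∧ ful w z = v ∧ nab w z = 2 ∧
      Even (nst w (fun z => lev z - w) z)) ∨ EvN j w v ∨ XE v) := by
  classical
  have H := W.gt.H
  have hj := W.hj
  have hw := W.hw
  set T1 := (bdR (rA N \ Zf)).filter (fun z => cst w hF z = v) with hT1
  set T2 := (twA N).filter (fun x => ¬ FT x ∧ tcS j w N b θ x = v) with hT2
  have hout2' : ∀ x : P, ∃ l : ℕ, x ∈ T2 → TmS j w N b θ x = Lt w (fun _ => l) x ∧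
      nab w x = nab (w + l) x + 1 ∧
      ((Even (nst w (fun _ => l) x) ∧ (EvN j w v ∨ XE v)) ∨
      (Odd (nst w (fun _ => l) x) ∧ (OdN j w v ∨ XO v))) := by
    intro x
    by_cases hx : x ∈ T2
    · have hx' := hx
      rw [hT2, mem_filter] at hx'
      have h1 := (W.out_twS L hx'.1 hx'.2.1).resolve_left (by rw [hx'.2.2]; omega)
      rw [hx'.2.2] at h1
      obtain ⟨l, h2⟩ := h1
      exact ⟨l, fun _ => h2⟩
    · exact ⟨0, fun h => absurd h hx⟩
  choose lb hlb using hout2'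
  -- labels on the whole class
  let hh : P → ℕ := fun z => if z ∈ twA N then lb z else hF z
  have hh1 : ∀ z ∈ twA N, hh z = lb z := fun z hz => if_pos hz
  have hh2 : ∀ z, z ∉ twA N → hh z = hF z := fun z hz => if_neg hz
  have hn1 : ∀ z ∈ T1, z ∉ twA N := by
    intro z hz
    rw [hT1, mem_filter] at hz
    exact (mem_rA.mp (mem_sdiff.mp (mem_bdR.mp hz.1).1).1).2
  have hm2 : ∀ z ∈ T2, z ∈ twA N := fun z hz => by
    rw [hT2, mem_filter] at hz
    exact hz.1
  have hdisj : Disjoint T1 T2 := by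
    rw [Finset.disjoint_left]
    intro z hz hz'
    exact hn1 z hz (hm2 z hz')
  have hout1 : ∀ z ∈ T1, nab w z = nab (w + hh z) z + 1 ∧
      ((Even (nst w hh z) ∧ (EvN j w v ∨ XE v)) ∨ (Odd (nst w hh z) ∧ (OdN j w v ∨ XO v)) ∨
      (∃ x x', Cg z x x' ∧ Sok j x ∧ Sok j x') ∧ v = ful w z ∧ hh z = lev z - w) := by
    intro z hz
    have hzt := hn1 z hz
    rw [hT1, mem_filter] at hz
    obtain ⟨hzR, u, hu1, hu2⟩ := mem_bdR.mp hz.1
    rw [mem_sdiff] at hzR
    have hzn : ∀ y ∈ Zf, ¬ z ⋖ y := by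
      intro y hy hzy
      have := F.big z hz.1 ⟨y, hy, hzy⟩
      omega
    have hub : u ∉ rA N := fun h => hu1 (mem_sdiff.mpr ⟨h, fun h' => hzn u h' hu2⟩)
    have hzb : z ∈ bdR (rA N) := mem_bdR.mpr ⟨hzR.1, u, hub, hu2⟩
    have hFz := F.eq z hzb hzR.2 hzn
    have hcz : cst w (hS j w N b θ) z = v := by
      rw [← hz.2, cst_const w hF z, cst_const w (hS j w N b θ) z, hFz]
    have h1 := W.outS hw2 F L hP M hzb hzR.2 hzn hcz
    have h2 : nst w hh z = nst w (hS j w N b θ) z := by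
      rw [nst_eq, nst_eq, hh2 z hzt, hFz]
    rw [h2, hh2 z hzt, hFz]
    exact h1.resolve_left (by omega)
  have hnst2 : ∀ x ∈ T2, nst w hh x = nst w (fun _ => lb x) x := fun x hx => by
    rw [nst_eq, nst_eq, hh1 x (hm2 x hx)]
  have hout2 : ∀ x ∈ T2, nab w x = nab (w + hh x) x + 1 ∧
      ((Even (nst w hh x) ∧ (EvN j w v ∨ XE v)) ∨
      (Odd (nst w hh x) ∧ (OdN j w v ∨ XO v))) := by
    intro x hx
    have h1 := (hlb x hx).2
    rw [hnst2 x hx, hh1 x (hm2 x hx)]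
    exact h1
  -- the exact far window theorem
  have hd := (F.far v M hcap).lead M.bd
  have hZ := dvd_Z H.gauss w v
  have hsum2 : ∑ x ∈ (twA N).filter (fun x => ¬ FT x ∧ tcS j w N b θ x = v), TmS j w N b θ x =
      ∑ x ∈ T2, Lt w hh x := by
    refine Finset.sum_congr rfl fun x hx => ?_
    rw [(hlb x hx).1]
    unfold Lt
    rw [hnst2 x hx, hh1 x (hm2 x hx)]
  have hsum1 : ∑ z ∈ (bdR (rA N \ Zf)).filter (fun z => cst w hF z = v),
      Lt w hF z = ∑ z ∈ T1, Lt w hh z := by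
    refine Finset.sum_congr rfl fun z hz => ?_
    unfold Lt
    rw [nst_eq, nst_eq, hh2 z (hn1 z hz)]
  rw [hsum2, hsum1, ← Finset.sum_union hdisj] at hd
  have hdrop : ∀ z ∈ T1 ∪ T2, nab w z = nab (w + hh z) z + 1 := by
    intro z hz
    rcases mem_union.mp hz with h | h
    · exact (hout1 z h).1
    · exact (hout2 z h).1
  have hTne : (T1 ∪ T2).Nonempty := by
    rcases hex with ⟨z, hz, h⟩ | ⟨x, hx, h0, h⟩
    · exact ⟨z, mem_union_left _ (mem_filter.mpr ⟨hz, h⟩)⟩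
    · exact ⟨x, mem_union_right _ (mem_filter.mpr ⟨hx, h0, h⟩)⟩
  have hcard : 1 ≤ (lv P w).card := by
    obtain ⟨z, hz⟩ := hTne
    have h1 := hdrop z hz
    have h2 := nab_le z w
    omega
  have hs := sign_sum_of_dvd (T1 ∪ T2) hZ hd (c0 := (lv P w).card - 1) (by omega) (by
    intro z hz
    have := hdrop z hz
    omega)
  rw [Finset.filter_true_of_mem (fun z hz => by
    have := hdrop z hz
    omega)] at hs
  obtain ⟨⟨z1, hz1, he⟩, z2, hz2, ho⟩ := both_signs _ _ hs hTne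
  have hcls : ∀ z ∈ T1 ∪ T2, (Even (nst w hh z) ∧ (EvN j w v ∨ XE v)) ∨
      (Odd (nst w hh z) ∧ (OdN j w v ∨ XO v)) ∨
      (∃ x x', Cg z x x' ∧ Sok j x ∧ Sok j x') ∧ v = ful w z ∧ nab w z = 2 ∧
        nst w hh z = nst w (fun z => lev z - w) z := by
    intro z hz
    rcases mem_union.mp hz with h | h
    · rcases (hout1 z h).2 with h1 | h1 | h1
      · exact Or.inl h1
      · exact Or.inr (Or.inl h1)
      · refine Or.inr (Or.inr ⟨h1.1, h1.2.1, ?_, ?_⟩)
        · have h2 := (hout1 z h).1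
          have h3 : j < lev z := by
            rw [hT1, mem_filter] at h
            exact W.lt_lev (mem_rA.mp (mem_sdiff.mp (mem_bdR.mp h.1).1).1).1
          rw [h1.2.2, show w + (lev z - w) = lev z by omega, nab_self] at h2
          exact h2
        · rw [nst_eq, nst_eq, h1.2.2]
    · rcases (hout2 z h).2 with h1 | h1
      · exact Or.inl h1
      · exact Or.inr (Or.inl h1)
  constructor
  · rcases hcls z2 hz2 with h | h | ⟨⟨x, x', h, s1, s2⟩, h1, h0, h2⟩
    · exact absurd h.1 (Nat.not_even_iff_odd.mpr ho)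
    · exact Or.inr h.2
    · rw [h2] at ho
      exact Or.inl ⟨z2, x, x', h, s1, s2, h1.symm, h0, ho⟩
  · rcases hcls z1 hz1 with h | h | ⟨⟨x, x', h, s1, s2⟩, h1, h0, h2⟩
    · exact Or.inr h.2
    · exact absurd h.1 (Nat.not_odd_iff_even.mpr he)
    · rw [h2] at he
      exact Or.inl ⟨z1, x, x', h, s1, s2, h1.symm, h0, he⟩

/-- **The balance at window `w`.** -/
theorem We.winBS (W : We r j w K0 N b θ)
    (hw2 : 2 ≤ w) {LE LO : List ℤ} {Zf : Finset P} {FT : P → Prop}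
    {hF : P → ℕ} (F : FS P j w K N b θ Zf FT hF)
    (L : LkF P j w K0 K N b θ (XL (j + 1 - w) LE) (XL (j + 1 - w) LO) Zf FT) (h16 : j ≤ 16) {cT lb : ℤ}
    (hK : (K : ℤ) = ((j + 1 - w : ℕ) : ℤ) ^ 2 + cT) (hT : cT < 7 * ((j + 1 - w : ℕ) : ℤ) + 10)
    (hl0 : lb ≤ 0) (hlE : ∀ x ∈ LE, lb ≤ x) (hlO : ∀ x ∈ LO, lb ≤ x)
    (hlow : ∀ z x x' : P, Cg z x x' → Sok j x → Sok j x' → j + 1 ≤ lev z →
      nab w z = 2 → ∀ k, k < w → nab k z = 2)
    (hmnx : ∀ v, MnF w N Zf FT hF (tcS j w N b θ) v → ∀ z x x' : P, Cg z x x' → Sok j x →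
      Sok j x' → j + 1 ≤ lev z → (∀ k, k < w → nab k z = 2) ∨
      (v : ℤ) - ((j + 1 - w : ℕ) : ℤ) ^ 2 ≤ kapZ j z * (j - w) + gZ j z)
    (hPen : OnePen P j (fun t => 2 ≤ b t) ∨ ∃ z : P, Hul.Jn z ∧
      ful w z ≤ (j + 1 - w) ^ 2 + 5 * (j - w))
    (hJ : ∃ z : P, Hul.Jn z) :
    ∃ v, MnF w N Zf FT hF (tcS j w N b θ) v ∧
      WinB P j w cT (fun V => LO.elem V) (fun V => nz ((j + 1 - w : ℕ) : ℤ) V || LE.elem V)
      lb ((v : ℤ) - ((j + 1 - w : ℕ) : ℤ) ^ 2) := by
  classical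
  have HN := W.natSys
  have hj := W.hj
  have hw := W.hw
  have H := W.gt.H
  -- joins are in the far set
  have hjoin : ∀ z : P, Hul.Jn z → z ∈ rA N := by
    rintro z ⟨t1, t2, h1, h2, hne, hz1, hz2⟩
    have key : ∀ y, y ∉ unnat N → (y ≤ t1 → y ≤ t2 → False) := by
      intro y hy g1 g2
      have h3 : y ∈ N (topOf y) := HN.mem_iff.mpr ⟨hy, rfl⟩
      exact hne ((HN.top_eq h3 h1 g1).trans (HN.top_eq h3 h2 g2).symm)
    have hzu : z ∈ unnat N := by
      by_contra hcon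
      exact key z hcon hz1 hz2
    refine mem_rA.mpr ⟨hzu, fun h => ?_⟩
    obtain ⟨-, y, hy, hup⟩ := mem_twA.mp h
    have hl := W.lt_lev hzu
    refine key y hy ((hup t1).mpr ?_).le ((hup t2).mpr ?_).le
    · exact lt_of_le_of_ne hz1 (by rintro rfl; omega)
    · exact lt_of_le_of_ne hz2 (by rintro rfl; omega)
  have hpos : ∀ x ∈ rA N \ Zf, 0 < lev x := fun x hx => by
    have := W.lt_lev (mem_rA.mp (mem_sdiff.mp hx).1).1
    omega
  have hjz : ∀ z : P, Hul.Jn z → z ∈ rA N \ Zf := by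
    intro z hz
    refine mem_sdiff.mpr ⟨hjoin z hz, fun hzf => ?_⟩
    obtain ⟨x, hx, -, hzx, honly⟩ := F.up z hzf
    have hJx : Hul.Jn x := by
      obtain ⟨t1, t2, h1, h2, hne, hz1, hz2⟩ := hz
      have hl := W.lt_lev (mem_rA.mp (hjoin z ⟨t1, t2, h1, h2, hne, hz1, hz2⟩)).1
      have key : ∀ t : P, lev t = 0 → z ≤ t → x ≤ t := by
        intro t ht hzt
        have hlt : z < t := lt_of_le_of_ne hzt (by
          intro h
          rw [← h] at ht
          omega)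
        obtain ⟨u, hu, hut⟩ := Hul.exists_cov hlt
        rw [← honly u hu]
        exact hut
      exact ⟨t1, t2, h1, h2, hne, key t1 h1 hz1, key t2 h2 hz2⟩
    exact (mem_rA.mp (hjoin x hJx)).2 hx
  have hbd : (bdR (rA N \ Zf)).Nonempty := by
    obtain ⟨z, hz⟩ := hJ
    obtain ⟨z', hz', -⟩ := exists_bd_above hpos (hjz z hz)
    exact ⟨z', hz'⟩
  obtain ⟨v, M, hex⟩ := exists_minF (w := w) (N := N) (Zf := Zf) (FT := FT) (hF := hF)
    (tc := tcS j w N b θ) hbd
  have hmin : ∀ z, Hul.Jn z → v ≤ ful w z := fun z hz => min_le_ful hpos M.bd (hjz z hz)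
  have hPen' : OnePen P j (fun t => 2 ≤ b t) ∨ v ≤ (j + 1 - w) ^ 2 + 5 * (j - w) := by
    rcases hPen with h | ⟨z, hz, h⟩
    · exact Or.inl h
    · exact Or.inr ((hmin z hz).trans h)
  have hlev : ∀ z x x' : P, Cg z x x' → j + 1 ≤ lev z := by
    intro z x x' h
    by_contra hcon
    exact W.gt.no_join z (by omega) h.jn
  have hyc : ((j + 1 - w : ℕ) : ℤ) = (j : ℤ) + 1 - w := by
    rw [Nat.cast_sub (by omega)]
    push_cast
    ring
  have hline : ∀ z x x' : P, Cg z x x' → (∀ k, k < w → nab k z = 2) →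
      (ful w z : ℤ) = ((j + 1 - w : ℕ) : ℤ) ^ 2 + (kapZ j z * ((j : ℤ) - w) + gZ j z) := by
    intro z x x' h h2
    have hl := hlev z x x' h
    rw [hyc]
    exact ful_line (by omega) (by omega) h2
  have hpar : ∀ {z x x' : P}, Cg z x x' → (∀ k, k < w → nab k z = 2) →
      anc z = 2 * w + nst w (fun z => lev z - w) z := by
    intro z x x' h h2
    have hl := hlev z x x' h
    unfold anc
    obtain ⟨c, hc⟩ : ∃ c, lev z = w + c := ⟨lev z - w, by omega⟩
    rw [nst_eq, hc, Finset.sum_range_add, Nat.add_sub_cancel_left,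
      Finset.sum_congr rfl (g := fun _ => 2) (fun k hk => h2 k (by
        rw [mem_range] at hk
        omega)), Finset.sum_const, card_range, smul_eq_mul, Nat.mul_comm]
  have hkp : ∀ {z : P}, (Odd (anc z) → Odd (kapZ j z)) ∧ (Even (anc z) → Even (kapZ j z)) :=
    kap_parity
  refine ⟨v, M, ?_⟩
  have hmn : ∀ z x x' : P, Cg z x x' → Sok j x → Sok j x' →
      (v : ℤ) - ((j + 1 - w : ℕ) : ℤ) ^ 2 ≤ kapZ j z * (j - w) + gZ j z := by
    intro z x x' h hs hs'
    rcases hmnx v M z x x' h hs hs' (hlev z x x' h) with h2 | h2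
    · have h1 : (v : ℤ) ≤ ful w z := by exact_mod_cast hmin z h.jn
      rw [hline z x x' h h2] at h1
      linarith
    · exact h2
  by_cases hcap : K < v
  · have hcap' : (K : ℤ) < v := by exact_mod_cast hcap
    exact ⟨fun h => by linarith, hmn, fun h => by linarith, fun h => by linarith⟩
  have hcv : (v : ℤ) ≤ ((j + 1 - w : ℕ) : ℤ) ^ 2 + cT := by
    rw [← hK]
    exact_mod_cast not_lt.mp hcap
  obtain ⟨ho, he⟩ := W.bothS hw2 F L hPen' M hex (not_lt.mp hcap)
  have hsq : ∀ z x x' : P, Cg z x x' → ful w z = v → 0 ≤ (v : ℤ) - ((j + 1 - w : ℕ) : ℤ) ^ 2 := by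
    intro z x x' h he
    have hl := hlev z x x' h
    obtain ⟨c, hc⟩ : ∃ c, lev z = w + c := ⟨lev z - w, by omega⟩
    have h4 := ful_ge (w := w) (z := z) (c := c) (fun _ => 0) hc
      (fun n hn1 hn2 => h.two_le H (k := w + n) (by omega))
    simp only [mul_zero, Finset.sum_const_zero, add_zero] at h4
    have h5 : (j + 1 - w) ^ 2 ≤ c ^ 2 := Nat.pow_le_pow_left (by omega) 2
    have h6 : (j + 1 - w) ^ 2 ≤ v := by rw [← he]; exact h5.trans h4
    have h7 : (((j + 1 - w) ^ 2 : ℕ) : ℤ) ≤ v := by exact_mod_cast h6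
    push_cast at h7
    linarith
  have hnzpos : ∀ {V : ℤ}, nz ((j + 1 - w : ℕ) : ℤ) V = true → 0 ≤ V := by
    intro V hV
    unfold nz at hV
    rw [List.any_eq_true] at hV
    obtain ⟨t, -, ht⟩ := hV
    rw [decide_eq_true_eq] at ht
    have h1 : (0 : ℤ) ≤ t := Int.natCast_nonneg t
    have h2 : (1 : ℤ) ≤ ((j + 1 - w : ℕ) : ℤ) := by
      have : 1 ≤ j + 1 - w := by omega
      exact_mod_cast this
    rcases ht with ht | ht | ht <;> nlinarith
  refine ⟨fun _ => ?_, hmn, fun _ => ?_, fun _ => ?_⟩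
  · rcases ho with ⟨z, x, x', h1, h2, h3, h4, h0, h5⟩ | h | h
    · exact hl0.trans (hsq z x x' h1 h4)
    · exact (od_false h (by omega) h16 hcv hT).elim
    · exact hlO _ h
  · rcases ho with ⟨z, x, x', h1, h2, h3, h4, h0, h5⟩ | h | h
    · left
      have h6 := hlow z x x' h1 h2 h3 (hlev z x x' h1) h0
      refine ⟨z, x, x', h1, h2, h3, hkp.1 (by
        rw [hpar h1 h6]
        exact (even_two_mul w).add_odd h5), ?_⟩
      have := hline z x x' h1 h6
      rw [h4] at this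
      linarith
    · exact (od_false h (by omega) h16 hcv hT).elim
    · right
      exact List.elem_iff.mpr h
  · rcases he with ⟨z, x, x', h1, h2, h3, h4, h0, h5⟩ | h | h
    · left
      have h6 := hlow z x x' h1 h2 h3 (hlev z x x' h1) h0
      refine ⟨z, x, x', h1, h2, h3, hkp.2 (by
        rw [hpar h1 h6]
        exact (even_two_mul w).add h5), ?_⟩
      have := hline z x x' h1 h6
      rw [h4] at this
      linarith
    · right
      rw [Bool.or_eq_true]
      exact Or.inl (ev_nz h (by omega) hcv hT)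
    · right
      rw [Bool.or_eq_true]
      exact Or.inr (List.elem_iff.mpr h)

end Pool.Agent.GaussPoset.Sm
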