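import Pool.Agent.W_448jx_h67.WeK
import Pool.Agent.W_448f4_h70.GU
import Pool.Agent.W_448pg_h74.WuB

/-!
The windows `2`, `3` at `j = 10` with the component of the end `(5, 25, 0)`: cheap cells and the
fold cell (MP_448cb3_co, HJoin10)
-/

namespace Pool.Agent.GaussPoset.Sm

set_option linter.unusedSectionVars false

open Polynomial Finset W4 Cp

universe u

variable {P : Type u} [Fintype P] [PartialOrder P] [DecidableEq P] {r j w K0 K : ℕ}
  {N : Tops P → Finset P} {b : Tops P → ℕ} {θ : Tops P → P → ℕ} {XE XO : ℕ → Prop}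

/-- the fold cell: its twins are natural, and so are the pendants below them -/
structure FCel (w K : ℕ) (N : Tops P → Finset P) (θ : Tops P → P → ℕ) (Zf : Finset P)
    (FT : P → Prop) (x : P) : Prop where
  th : θ (topOf x) x + 1 < lev x - w
  ft : ∀ x' ∈ twA N, twT N x' = x → FT x'
  nop : ∀ x1, x1 ∉ rA N → GaussPoset.bs N x1 = x → ∀ z ∈ bdR (rA N), z ∉ Zf → z ⋖ x1 →
    ∃ y, z ⋖ y ∧ y ≠ x1
  two : K < C1 w θ x + (θ (topOf x) x + 1)
  nsp : θ (topOf x) x + w + 2 = lev x

/-- the classification of the deep cells -/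
def CellsF (P : Type u) [Fintype P] [PartialOrder P] [DecidableEq P] (j w K0 K : ℕ)
    (N : Tops P → Finset P) (b : Tops P → ℕ) (θ : Tops P → P → ℕ) (XE XO : ℕ → Prop)
    (Zf : Finset P) (FT : P → Prop) : Prop :=
  ∀ x : P, x ∉ unnat N → j + 1 ≤ lev x → Dk j w K0 N θ x → ¬ Row1 j w N θ x →
    K + 1 < C1 w θ x ∨ CheapN w K XE XO θ x ∨ (Spc j w N b θ x ∧ SpOKN j w K XE XO θ x) ∨
      NPen w K N θ x ∨ (¬ Spc j w N b θ x ∧ FCel w K N θ Zf FT x)

/-- an element which is not a twin -/
lemma We.bs_self (W : We r j w K0 N b θ) {x : P} (h : NTw (GaussPoset.bs N x)) :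
    GaussPoset.bs N x = x := by
  by_cases hx : x ∈ twA N
  · exfalso
    have hbs : GaussPoset.bs N x = twT N x := by
      unfold GaussPoset.bs
      rw [if_pos hx]
    rw [hbs] at h
    exact h x (W.twn hx).ne.symm (W.twSys.up x hx)
  · unfold GaussPoset.bs
    rw [if_neg hx]

/-- an element below a deep cell has a deep cover which defines its label -/
lemma We.deep_minN (W : We r j w K0 N b θ) {z : P} (hz : z ∈ bdR (rA N)) {x : P}
    (hx : x ∉ rA N) (hzx : z ⋖ x) (hlx : j + 1 ≤ lev x)
    (hD : Dk j w K0 N θ (GaussPoset.bs N x)) (hR : ¬ Row1 j w N θ (GaussPoset.bs N x)) :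
    ∃ x1, x1 ∉ rA N ∧ z ⋖ x1 ∧ Dk j w K0 N θ (GaussPoset.bs N x1) ∧
      ¬ Row1 j w N θ (GaussPoset.bs N x1) ∧
      hA N θ z = θ (topOf (GaussPoset.bs N x1)) (GaussPoset.bs N x1) + 1 := by
  have H := W.gt.H.gradedBelow
  obtain ⟨x0, g1, g2, g3⟩ := W.hA_spec hz
  have g4 := W.hA_le hx hzx
  have g5 := hD.th
  have g6 := W.bs hx
  have g7 := W.bs g1
  have e1 := H.lev_covBy hzx
  have e2 := H.lev_covBy g2
  have e3 := g6.lev
  have e4 := g7.lev
  have hj := W.hj
  have hw := W.hw
  by_cases hS : lev (GaussPoset.bs N x0) ≤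
      θ (topOf (GaussPoset.bs N x0)) (GaussPoset.bs N x0) + 1 + w
  · refine ⟨x, hx, hzx, hD, hR, ?_⟩
    omega
  · refine ⟨x0, g1, g2, ?_, ?_, g3⟩
    · rcases W.cases g7.nat (by omega) with h | h | h
      · have := h.th
        omega
      · have := h.th
        omega
      · exact h
    · intro h
      have := h.th
      omega

/-- **elements below a deep cell of level at least `j + 1`** -/
theorem We.dp_cellsN (W : We r j w K0 N b θ) (hw2 : 2 ≤ w) (hj6 : 6 ≤ j)
    {Zf : Finset P} {FT : P → Prop} (hC : CellsF P j w K0 K N b θ XE XO Zf FT) {v : ℕ} {z x : P}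
    (hz : z ∈ bdR (rA N)) (hzf : z ∉ Zf) (hc : cst w (hS j w N b θ) z = v) (hx : x ∉ rA N)
    (hzx : z ⋖ x) (hlx : j + 1 ≤ lev x)
    (hD : Dk j w K0 N θ (GaussPoset.bs N x)) (hR : ¬ Row1 j w N θ (GaussPoset.bs N x)) :
    OutG j w K XE XO (hS j w N b θ) z v := by
  classical
  have H := W.gt.H.gradedBelow
  have hj := W.hj
  have hw := W.hw
  obtain ⟨x1, h1, h2, h3, hR1, h4⟩ := W.deep_minN hz hx hzx hlx hD hR
  have g7 := W.bs h1
  have e1 := H.lev_covBy hzx
  have e2 := H.lev_covBy h2
  have e4 := g7.lev
  have hth := h3.th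
  have hcells := hC _ g7.nat (by omega) h3 hR1
  have hcg : ∀ L, cst w (fun _ => L) (GaussPoset.bs N x1) = cst w (fun _ => L) x1 := fun L =>
    cst_const_congr g7.lev g7.nab
  by_cases hp : PenS j w N b θ z
  · -- below a special cell
    obtain ⟨p1, p2, p3⟩ := W.penS hp
    obtain ⟨-, x2, q1, q2, q3, q4⟩ := hp
    have hpS : PenS j w N b θ z := ⟨(mem_bdR.mp hz).1, x2, q1, q2, q3, q4⟩
    have hx12 := q3 x1 h2
    subst hx12
    have hS1 := hS_of hpS
    have hv : v = cst w (fun _ => j - w + 1) (GaussPoset.bs N x1) + (j - w + 1) := by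
      rw [← hc, cst_const, hS1, p1, cst_only (h := fun _ => j - w + 1) H h2 q3, hcg,
        Nat.min_eq_left (by omega)]
    rcases hcells with h | h | ⟨-, h⟩ | h | h
    · left
      rw [hv]
      unfold C1 at h
      have h5 : θ (topOf (GaussPoset.bs N x1)) (GaussPoset.bs N x1) + 1 = j - w := by omega
      rw [h5] at h
      have h6 : cst w (fun _ => j - w) (GaussPoset.bs N x1) ≤
          cst w (fun _ => j - w + 1) (GaussPoset.bs N x1) := by
        unfold cst ez
        refine Finset.sum_le_sum fun y _ => ?_
        split_ifs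
        · simp only
          omega
        · exact le_rfl
      omega
    · exact absurd q4 (h.not_spc hw2 hw hj6)
    · rw [hv]
      refine h.pen.out ?_ ?_
      · refine nst_bs (by rw [hS1, p1]) g7.nab (by omega) fun k hk => ?_
        exact nab_only q3 h2 (by omega)
      · obtain ⟨Nc, co, C⟩ := q4
        have a1 := C.nab (by omega) (k := w) (by omega)
        rw [hS1, p1, nab_only q3 h2 (by omega), nab_only q3 h2 (by omega),
          show w + (j - w + 1) = lev x1 by omega, nab_self]
        rcases g7.nab w with h6 | h6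
        · omega
        · omega
    · exfalso
      have e9 := W.bs_self h.ntw
      obtain ⟨y, hy, hne⟩ := h.nop z hz (by rw [e9]; exact h2)
      rw [e9] at hne
      exact hne (q3 y hy)
    · exact absurd q4 h.1
  · -- the canonical label
    have hnc : ¬ CEl j w N θ z := by
      rintro ⟨-, h, -⟩
      omega
    have hS1 : hS j w N b θ z = θ (topOf (GaussPoset.bs N x1)) (GaussPoset.bs N x1) + 1 := by
      rw [hS_not hp, hC_not hnc, h4]
    by_cases honly : ∀ y, z ⋖ y → y = x1
    · have hns : ¬ Spc j w N b θ (GaussPoset.bs N x1) := fun hs =>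
        hp ⟨(mem_bdR.mp hz).1, x1, h1, h2, honly, hs⟩
      have hv : v = C1 w θ (GaussPoset.bs N x1) := by
        unfold C1
        rw [← hc, cst_const, hS1, cst_only (h := fun _ =>
          θ (topOf (GaussPoset.bs N x1)) (GaussPoset.bs N x1) + 1) H h2 honly, hcg,
          Nat.min_eq_left (by omega)]
      rcases hcells with h | h | ⟨h, -⟩ | h | h
      · left
        omega
      · rw [hv]
        refine h.pen.out ?_ ?_
        · refine nst_bs hS1 g7.nab (by omega) fun k hk => ?_
          exact nab_only honly h2 (by omega)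
        · have a1 := h.drop
          have a2 := h.th
          rw [hS1, nab_only honly h2 (by omega), nab_only honly h2 (by omega)]
          rcases g7.nab w with h6 | h6
          · rcases g7.nab (w + (θ (topOf (GaussPoset.bs N x1)) (GaussPoset.bs N x1) + 1)) with
              h7 | h7
            · omega
            · omega
          · omega
      · exact absurd h hns
      · exfalso
        have e9 := W.bs_self h.ntw
        obtain ⟨y, hy, hne⟩ := h.nop z hz (by rw [e9]; exact h2)
        rw [e9] at hne
        exact hne (honly y hy)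
      · exfalso
        obtain ⟨y, hy, hne⟩ := h.2.nop x1 h1 rfl z hz hzf h2
        exact hne (honly y hy)
    · push Not at honly
      obtain ⟨y, hy, hne⟩ := honly
      left
      have h5 := cst_two (w := w)
        (h := θ (topOf (GaussPoset.bs N x1)) (GaussPoset.bs N x1) + 1) H h2 hy (Ne.symm hne)
        (by omega) (by omega)
      have h6 : C1 w θ (GaussPoset.bs N x1) +
          (θ (topOf (GaussPoset.bs N x1)) (GaussPoset.bs N x1) + 1) ≤ v := by
        rw [← hc, cst_const, hS1]
        unfold C1
        rw [hcg]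
        exact h5
      rcases hcells with h | h | ⟨hs, h⟩ | h | h
      · omega
      · rcases h.two with h7 | ⟨h7, h8⟩
        · omega
        · have e9 := W.bs_self h7
          have h9 := h8 z y (by rw [e9]; exact h2) hy (by rw [e9]; exact hne)
          rw [← hS1, ← cst_const, hc] at h9
          exact h9
      · have a1 := h.two
        obtain ⟨Nc, co, C⟩ := hs
        have a2 := C.th
        omega
      · rcases h.two with h7 | h8
        · omega
        · have e9 := W.bs_self h.ntw
          have h9 := h8 z y (by rw [e9]; exact h2) hy (by rw [e9]; exact hne)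
          rw [← hS1, ← cst_const, hc] at h9
          exact h9
      · have a1 := h.2.two
        omega

/-- **the twins of deep cells** -/
theorem We.dt_cellsN (W : We r j w K0 N b θ) (hw2 : 2 ≤ w) (hj6 : 6 ≤ j)
    {Zf : Finset P} {FT : P → Prop} (hC : CellsF P j w K0 K N b θ XE XO Zf FT) {x : P}
    (hx : x ∈ twA N) (hxf : ¬ FT x)
    (hD : Dk j w K0 N θ (twT N x)) (hR : ¬ Row1 j w N θ (twT N x)) :
    OutTG j w K XE XO N b θ x := by
  classical
  have H := W.gt.H.gradedBelow
  have hj := W.hj
  have hw := W.hw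
  have hl := (W.tw_cases hx).1
  have T := W.twn hx
  have hup := W.twSys.up x hx
  have hll : lev (twT N x) = lev x := lev_eq_of_up hup
  have hnb : ∀ k, k < lev x → nab k (twT N x) = nab k x := fun k hk => nab_congr_up hup hk
  have hth := hD.th
  have hnat := W.twSys.nat x hx
  have e1 : thA N θ (twT N x) = θ (topOf (twT N x)) (twT N x) := W.thA_nat hnat
  have hlv : j + 1 ≤ lev (twT N x) := by
    have := W.lt_lev (mem_twA.mp hx).1
    omega
  have e2 : tcst w (thA N θ) (twT N x, x) = C1 w θ (twT N x) - 1 := by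
    rw [tcst_cst T]
    unfold C1
    simp only
    rw [e1]
    omega
  by_cases hs : Spc j w N b θ (twT N x)
  · have h1 : tcS j w N b θ x = tcst w (thA N θ) (twT N x, x) + 2 := W.tcS_spc hx hs
    have T' := W.twnS hx hs
    rcases hC _ hnat hlv hD hR with h | h | ⟨-, h⟩ | h | h
    · left
      omega
    · exact absurd hs (h.not_spc hw2 hw hj6)
    · have h2 : tcS j w N b θ x = cst w (fun _ => j - w + 1) (twT N x) + (j - w) := by
        unfold tcS
        rw [if_pos hs, tcst_cst T']
      have h3 : TmS j w N b θ x = Lt w (fun _ => j - w + 1) x := by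
        unfold TmS
        rw [if_pos hs, Tm_gen H T']
      obtain ⟨Nc, co, C⟩ := hs
      have hlC := C.lev (by omega)
      have a1 := C.nab (by omega) (k := w) (by omega)
      have hn : nst w (fun _ => j - w + 1) x = nst w (fun _ => j - w + 1) (twT N x) := by
        rw [nst_eq, nst_eq]
        refine Finset.sum_congr rfl fun k hk => ?_
        rw [mem_range] at hk
        exact (hnb _ (by omega)).symm
      rcases h.twn with (h4 | h4 | h4) | h4
      · left
        omega
      · right
        refine ⟨j - w + 1, h3, ?_, Or.inl ⟨by rw [hn]; exact h4.1, by rw [h2]; exact h4.2⟩⟩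
        rw [← hnb w (by omega), show w + (j - w + 1) = lev x by omega, nab_self]
        omega
      · right
        refine ⟨j - w + 1, h3, ?_, Or.inr ⟨by rw [hn]; exact h4.1, by rw [h2]; exact h4.2⟩⟩
        rw [← hnb w (by omega), show w + (j - w + 1) = lev x by omega, nab_self]
        omega
      · exact absurd hup (h4 x T.ne.symm)
    · exact absurd hup (h.ntw x T.ne.symm)
    · exact absurd hs h.1
  · have h2 : tcS j w N b θ x = C1 w θ (twT N x) - 1 := by
      unfold tcS
      rw [if_neg hs, e2]
    rcases hC _ hnat hlv hD hR with h | h | ⟨h, -⟩ | h | h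
    · left
      omega
    · have h3 : TmS j w N b θ x = Lt w (fun _ => θ (topOf (twT N x)) (twT N x) + 1) x := by
        unfold TmS
        rw [if_neg hs, Tm_gen H T]
        simp only
        rw [e1]
      have a1 := h.drop
      have a2 := h.th
      have hn : nst w (fun _ => θ (topOf (twT N x)) (twT N x) + 1) x =
          nst w (fun _ => θ (topOf (twT N x)) (twT N x) + 1) (twT N x) := by
        rw [nst_eq, nst_eq]
        refine Finset.sum_congr rfl fun k hk => ?_
        rw [mem_range] at hk
        exact (hnb _ (by omega)).symm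
      rcases h.twn with (h4 | h4 | h4) | h4
      · left
        omega
      · right
        refine ⟨_, h3, ?_, Or.inl ⟨by rw [hn]; exact h4.1, by rw [h2]; exact h4.2⟩⟩
        rw [← hnb w (by omega), ← hnb (w + (θ (topOf (twT N x)) (twT N x) + 1)) (by omega)]
        exact a1
      · right
        refine ⟨_, h3, ?_, Or.inr ⟨by rw [hn]; exact h4.1, by rw [h2]; exact h4.2⟩⟩
        rw [← hnb w (by omega), ← hnb (w + (θ (topOf (twT N x)) (twT N x) + 1)) (by omega)]
        exact a1
      · exact absurd hup (h4 x T.ne.symm)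
    · exact absurd h hs
    · exact absurd hup (h.ntw x T.ne.symm)
    · exact absurd (h.2.ft x hx rfl) hxf

end Pool.Agent.GaussPoset.Sm
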