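import Pool.Agent.W_448jx_h67.WeM

/-!
The windows `2`, `3` at `j = 10` with the component of the end `(5, 25, 0)`: the deep cells of
level at least `11` (MP_448cb3_co, HJoin10)
-/

namespace Pool.Agent.GaussPoset.Sm

set_option linter.unusedSectionVars false

open Finset Wd

universe u

variable {P : Type u} [Fintype P] [PartialOrder P] [DecidableEq P] {r j w K0 K : ℕ}
  {N : Tops P → Finset P} {b : Tops P → ℕ} {θ : Tops P → P → ℕ} {LE LO : List ℤ}

/-- the cell `(j / 2, j / 2 + 1)` of a stair -/
def FoX (j w : ℕ) (N : Tops P → Finset P) (x : P) : Prop :=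
  ∃ Nc co, StairNat j w (topOf x) Nc co ∧ N (topOf x) = natS Nc co ∧ x ∈ Nc ∧
    (co x).1 = j / 2 ∧ (co x).2 = j / 2 + 1

/-- no twins of the cells `(2, j - 1)` -/
def NoE2a (P : Type u) [Fintype P] [PartialOrder P] [DecidableEq P] (j : ℕ) : Prop :=
  ∀ x x' : P, x ≠ x' → lev x = j + 1 → (∀ u, x < u ↔ x' < u) → nab 2 x ≠ 1 →
    (∀ k, 4 ≤ k → k + 1 ≤ j → nab k x = 3) → nab j x = 2 → False

/-- no pendants below the cells `(2, j - 1)` of rectangles -/
def NoR2 (P : Type u) [Fintype P] [PartialOrder P] [DecidableEq P] (j : ℕ) : Prop :=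
  ∀ z x : P, lev x = j + 1 → (∀ k, 2 ≤ k → k + 1 ≤ j → nab k x = 3) → nab j x = 2 → z ⋖ x →
    (∀ y, z ⋖ y → y = x) → False

/-- **the finite check**; `q`: no twins of the cells `(2, j - 1)`, `p`: no pendants below the cells
`(2, j - 1)` of rectangles, `f`: the cell `(j / 2, j / 2 + 1)` -/
structure NumC (p q f : Prop) [Decidable p] [Decidable q] [Decidable f] (j w K : ℕ)
    (LE LO : List ℤ) : Prop where
  s1 : ∀ a ∈ Finset.Icc 3 ((j + 1) / 2), K + 1 < stC w (j + 1) a ∨
    (f ∧ 2 * a = j ∧ K < stC w (j + 1) a + (j - w)) ∨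
    ChN w (j + 1) K (j + 1 - w) LE LO (j - w) (stAb (j + 1) a)
  r1 : ∀ a ∈ Finset.Icc 2 (j - 1), K + 1 < reC w (j + 1) a ∨
    (q ∧ (a = 2 ∨ a = j - 1) ∧ p ∧ ChP w j K (reH w (j + 1) a) (reAb (j + 1) a)) ∨
    ChN w (j + 1) K (j + 1 - w) LE LO (reH w (j + 1) a) (reAb (j + 1) a)
  sp : K + 1 < stC w (j + 1) 2 ∨ SpN j w K (j + 1 - w) LE LO ∨
    (q ∧ SpM j w K (j + 1 - w) LE LO)
  s2 : ∀ a ∈ Finset.Icc 2 ((j + 1 + 1) / 2), K + 1 < stC w (j + 1 + 1) a
  r2 : ∀ a ∈ Finset.Icc 2 (j + 1 - 1), K + 1 < reC w (j + 1 + 1) a

/-- cells whose label is the full one are in row `1` -/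
theorem We.dk_row1 (W : We r j w K0 N b θ) (hw2 : 2 ≤ w) {x : P} (hx : x ∉ unnat N)
    (hlx : j ≤ lev x) (hD : Dk j w K0 N θ x) :
    Row1 j w N θ x ∨ θ (topOf x) x + 1 < lev x - w := by
  have H := W.gt.H
  have HN := W.natSys
  have hxt : x ∈ N (topOf x) := HN.mem_iff.mpr ⟨hx, rfl⟩
  have hj := W.hj
  have hw := W.hw
  have hT := W.typ (topOf x)
  have hDt := hD.th
  generalize ht : topOf x = t at hxt hT hDt
  rcases hT with hT | hE
  swap
  · obtain ⟨k1, k2, k3, k4, -⟩ := hE.spec hxt hlx
    right
    omega
  rcases hT with ⟨h1, h2, h3, h5⟩ | ⟨Nc, co, h0, h1, h2, h4⟩ |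
    ⟨Nc, co, h0, h1, h2, h3, h4, h5'⟩
  · rw [h2] at hDt
    simp only at hDt
    omega
  · have e1 := h0.b_two
    have e2 := h0.b_le
    have hxN' : x ∈ natR Nc co := by rw [← h1]; exact hxt
    by_cases hJ : x ∈ junk (fun _ => True) Nc co ∨ x ∈ junk (fun _ => True) Nc (swp co)
    · rw [h2] at hDt
      unfold thR at hDt
      rw [if_pos hJ] at hDt
      omega
    · have hxN : x ∈ Nc := by
        rw [mem_natR] at hxN'
        rcases hxN' with h | h | h
        · exact h
        · exact absurd (Or.inl h) hJ
        · exact absurd (Or.inr h) hJ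
      have hl := h0.chart.lev x hxN
      have hth := rect_th7 h0 hw hxN hJ (by omega)
      by_cases h7 : (co x).1 = 0 ∨ (co x).2 = 0
      · rw [h2] at hDt
        omega
      · by_cases h8 : (co x).1 = 1 ∨ (co x).2 = 1
        · left
          refine ⟨by omega, chart_inner_uc h0.chart H hxN (by omega) (by omega), ?_, ?_, ?_, ?_⟩
          · intro hlx' z hz
            exact h4 x z (h0.chart.le_t x hxN) hlx'
              (chart_inner_uc h0.chart H hxN (by omega) (by omega)) hz
          · rw [ht, h2]; omega
          · intro k hk hkx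
            have := rect_nab h0.chart hxN (k := k) (by omega)
            omega
          · exact hD.mono
        · right
          rw [h2]; omega
  · have hxN' : x ∈ natS Nc co := by rw [← h1]; exact hxt
    by_cases hJ : x ∈ junk (fun c => c.1 ≤ c.2) Nc co
    · rw [h2] at hDt
      unfold thS at hDt
      rw [if_pos hJ] at hDt
      omega
    · have hxN : x ∈ Nc := by
        rw [mem_natS] at hxN'
        rcases hxN' with h | h
        · exact h
        · exact absurd h hJ
      have hl := h0.chart.lev x hxN
      have hm : (co x).1 ≤ (co x).2 := h0.chart.mem x hxN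
      have hth := stair_th7 h0 hw h4 hxN hJ (by omega)
      rcases Nat.lt_or_ge (co x).1 1 with h7 | h7
      · rw [h2] at hDt
        omega
      · rcases Nat.lt_or_ge (co x).1 2 with h8 | h8
        · left
          have hd := stair_inner_uc h0.chart H hxN h7 (by omega)
          refine ⟨by omega, hd, ?_, ?_, ?_, ?_⟩
          · intro hlx' z hz hon
            have := h5' x z (h0.chart.le_t x hxN) hlx' hd hz hon
            omega
          · rw [ht, h2]; omega
          · intro k hk hkx
            have := stair_nab h0.chart hxN (k := k) (by omega)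
            omega
          · exact hD.mono
        · right
          rw [h2]; omega

/-- **the deep cells** -/
theorem We.cellsC {p q f : Prop} [Decidable p] [Decidable q] [Decidable f]
    (W : We r j w K0 N b θ) (hw2 : 2 ≤ w) (h10 : 10 ≤ j) (hj2 : j % 2 = 0)
    (n : NumC p q f j w K LE LO) (hE : q → NoE2a P j) (hP : p → NoR2 P j)
    {Zf : Finset P} {FT : P → Prop} (hF1 : f → ∀ x' ∈ twA N, FoX j w N (twT N x') → FT x')
    (hF2 : f → ∀ z ∈ rA N, ∀ x' ∈ twA N, FT x' → z ⋖ x' → (∀ y, z ⋖ y → y = x') → z ∈ Zf) :
    CellsF P j w K0 K N b θ (XL (j + 1 - w) LE) (XL (j + 1 - w) LO) Zf FT := by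
  intro x hx hlx hD hR
  have H := W.gt.H
  have HN := W.natSys
  have hxt : x ∈ N (topOf x) := HN.mem_iff.mpr ⟨hx, rfl⟩
  have hj := W.hj
  have hw := W.hw
  have hdx := (W.dk_row1 hw2 hx (by omega) hD).resolve_left hR
  -- the cells `(2, j - 1)`
  have hNE : q → lev x = j + 1 → nab 2 x ≠ 1 → (∀ k, 4 ≤ k → k + 1 ≤ j → nab k x = 3) →
      nab j x = 2 → NTw x :=
    fun hq h1 h0 h2 h3 x' hne hup => hE hq x x' hne.symm h1 hup h0 h2 h3
  have hPE : p → lev x = j + 1 → (∀ k, 2 ≤ k → k + 1 ≤ j → nab k x = 3) → nab j x = 2 →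
      ∀ z, z ⋖ x → ¬ ∀ y, z ⋖ y → y = x :=
    fun hp h1 h2 h3 z hz ho => hP hp z x h1 h2 h3 hz ho
  have hT0 := W.typ (topOf x)
  have hdx' := hdx
  generalize ht : topOf x = t at hxt hT0 hdx'
  rcases hT0 with hT0 | hE0
  swap
  · obtain ⟨k1, -⟩ := hE0.spec hxt (by omega)
    omega
  rcases hT0 with ⟨h1, h2, h3, h5⟩ | ⟨Nc, co, h0, h1, h2, h4⟩ |
    ⟨Nc, co, h0, h1, h2, h3, h4, h5'⟩
  · rw [h2] at hdx'
    simp only at hdx'
    omega
  · have e1 := h0.b_two
    have e2 := h0.b_le
    have hxN' : x ∈ natR Nc co := by rw [← h1]; exact hxt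
    have hJ : ¬ (x ∈ junk (fun _ => True) Nc co ∨ x ∈ junk (fun _ => True) Nc (swp co)) := by
      intro hJ
      rw [h2] at hdx'
      unfold thR at hdx'
      rw [if_pos hJ] at hdx'
      omega
    have hxN : x ∈ Nc := by
      rw [mem_natR] at hxN'
      rcases hxN' with h | h | h
      · exact h
      · exact absurd (Or.inl h) hJ
      · exact absurd (Or.inr h) hJ
    have hl := h0.chart.lev x hxN
    have hth := rect_th7 h0 hw hxN hJ (by omega)
    rw [h2] at hdx'
    have hth' : θ (topOf x) x + 1 = lev x - w + 1 - min (min (co x).1 (co x).2) w := by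
      rw [ht, h2]; omega
    rcases Nat.lt_or_ge (j + 1) (lev x) with hgt | hle
    · left
      unfold C1
      exact rdeep_of (j := j + 1) (by omega) (by omega) n.r2 h0.chart hxN (by omega)
        (by omega) (by omega) (by omega)
    · have hlx1 : lev x = j + 1 := by omega
      have hab : ∀ k ≤ j + 1, nab k x = reAb (j + 1) (co x).1 k := by
        intro k hk
        have := rect_nab h0.chart hxN (k := k) (by omega)
        unfold reAb
        omega
      have hin : ∀ v, x ⋖ v → ∀ y, y ⋖ v → ¬ ∀ u, y ⋖ u → u = v := by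
        intro v hv y hy
        have hvN := h0.chart.up x hxN v hv.1.le
        have hcv := (chart_cov h0.chart H hxN hvN).mp hv
        have hlv := (H.covBy_iff.mp hv).2
        have h7 : (Win.uc v).card = 2 := by
          unfold Prd at hcv
          exact chart_inner_uc h0.chart H hvN (by omega) (by omega)
        exact h4 v y (h0.chart.le_t v hvN) (by omega) h7 hy
      have htwo : q → nab 2 x ≠ 1 → (∀ k, 4 ≤ k → k + 1 ≤ j → nab k x = 3) → nab j x = 2 →
          ∀ z y, z ⋖ x → z ⋖ y →
          y ≠ x → cst w (fun _ => reH w (j + 1) (co x).1) x + reH w (j + 1) (co x).1 +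
            reH w (j + 1) (co x).1 + min (reH w (j + 1) (co x).1) (j - w) ≤
            cst w (fun _ => reH w (j + 1) (co x).1) z := by
        intro hq g0 g1 g2 z y hz hy hne
        obtain ⟨q, q1, q2, q3⟩ := exists_ext H hlx1
          (chart_inner_uc h0.chart H hxN (by omega) (by omega)) hin hz hy
          (hNE hq hlx1 g0 g1 g2 y hne)
        exact cst_ext H hlx1 (by omega) hz hy hne q1 q2 q3 (by unfold reH; omega)
      have hc2 : (co x).1 = 2 ∨ (co x).1 = j - 1 →
          (∀ k, 2 ≤ k → k + 1 ≤ j → nab k x = 3) ∧ nab j x = 2 := by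
        intro hc
        refine ⟨fun k hk1 hk2 => ?_, ?_⟩
        · rw [hab k (by omega)]
          unfold reAb
          omega
        · rw [hab j (by omega)]
          unfold reAb
          omega
      rcases n.r1 (co x).1 (by rw [Finset.mem_Icc]; omega) with h6 | ⟨hq, hc, hp, h6⟩ | h6
      · left
        have h7 := cst_rect (w := w) (h := θ (topOf x) x + 1) h0.chart hxN hlx1 (by omega)
        unfold reC at h6
        unfold C1
        rw [h7, show θ (topOf x) x + 1 =
          j + 1 - w + 1 - min (min (co x).1 (j + 1 - (co x).1)) w by omega]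
        exact h6
      · obtain ⟨g1, g2⟩ := hc2 hc
        have g1' : ∀ k, 4 ≤ k → k + 1 ≤ j → nab k x = 3 := fun k hk1 hk2 => g1 k (by omega) hk2
        have g0 : nab 2 x ≠ 1 := by
          rw [g1 2 le_rfl (by omega)]
          norm_num
        right; right; right; left
        exact h6.npen hlx1 (by omega) hab (by unfold reH; omega) (htwo hq g0 g1' g2)
          (hNE hq hlx1 g0 g1' g2) (hPE hp hlx1 g1 g2)
      · right; left
        exact (h6.cheap hlx1 hab (by unfold reH; omega)).toN
  · have hxN' : x ∈ natS Nc co := by rw [← h1]; exact hxt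
    have hJ : x ∉ junk (fun c => c.1 ≤ c.2) Nc co := by
      intro hJ
      rw [h2] at hdx'
      unfold thS at hdx'
      rw [if_pos hJ] at hdx'
      omega
    have hxN : x ∈ Nc := by
      rw [mem_natS] at hxN'
      rcases hxN' with h | h
      · exact h
      · exact absurd h hJ
    have hl := h0.chart.lev x hxN
    have hm : (co x).1 ≤ (co x).2 := h0.chart.mem x hxN
    have hth := stair_th7 h0 hw h4 hxN hJ (by omega)
    rw [h2] at hdx'
    have hth' : θ (topOf x) x + 1 = lev x - w - 1 := by
      rw [ht, h2]; omega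
    rcases Nat.lt_or_ge (j + 1) (lev x) with hgt | hle
    · left
      unfold C1
      exact sdeep_of (j := j + 1) (by omega) (by omega) n.s2 h0.chart hxN (by omega)
        (by omega) (by omega)
    · have hlx1 : lev x = j + 1 := by omega
      have hst : K + 1 < stC w (j + 1) (co x).1 → K + 1 < C1 w θ x := by
        intro h6
        have h7 := cst_stair (w := w) (h := θ (topOf x) x + 1) h0.chart hxN hlx1 (by omega)
        unfold stC at h6
        unfold C1
        rw [h7, show θ (topOf x) x + 1 = j + 1 - w - 1 by omega]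
        exact h6
      have hab : ∀ k ≤ j + 1, nab k x = stAb (j + 1) (co x).1 k := by
        intro k hk
        have := stair_nab h0.chart hxN (k := k) (by omega)
        unfold stAb
        omega
      by_cases ha : 3 ≤ (co x).1
      · rcases n.s1 (co x).1 (by rw [Finset.mem_Icc]; omega) with h6 | ⟨hff, hfo, h6⟩ | h6
        · exact Or.inl (hst h6)
        · -- the cell `(j / 2, j / 2 + 1)`
          right; right; right; right
          have hFX : FoX j w N x := by
            refine ⟨Nc, co, ?_, ?_, hxN, by omega, by omega⟩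
            · rw [ht]; exact h0
            · rw [ht]; exact h1
          have hbs : ∀ x1, x1 ∉ rA N → GaussPoset.bs N x1 = x → x1 = x ∨
              (x1 ∈ twA N ∧ twT N x1 = x) := by
            intro x1 hx1 hb1
            by_cases htw : x1 ∈ twA N
            · unfold GaussPoset.bs at hb1
              rw [if_pos htw] at hb1
              exact Or.inr ⟨htw, hb1⟩
            · unfold GaussPoset.bs at hb1
              rw [if_neg htw] at hb1
              exact Or.inl hb1
          refine ⟨?_, ?_, fun x' hx' he => hF1 hff x' hx' (he ▸ hFX), ?_, ?_, by omega⟩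
          · rintro ⟨Nc', co', C⟩
            have hlC := C.lev (by omega)
            have a1 := C.nab (by omega) (k := j - 1) (by omega)
            have a2 := hab (j - 1) (by omega)
            unfold stAb at a2
            omega
          · omega
          · intro x1 hx1 hb1 z hz hzf hzx1
            by_contra hcon
            push Not at hcon
            rcases hbs x1 hx1 hb1 with rfl | ⟨htw, hb1'⟩
            · have hzR := (mem_bdR.mp hz).1
              have hzu := (mem_rA.mp hzR).1
              have hzN1 : z ∉ Nc := fun h => mem_unnat.mp hzu t (by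
                rw [h1]; exact mem_natS.mpr (Or.inl h))
              obtain ⟨y, hy, h⟩ := diag_twin h0.chart h0.max H hzN1 hxN hzx1 hcon (by omega)
              refine (mem_rA.mp hzR).2 (mem_twA.mpr ⟨hzu, y, ?_, h⟩)
              have hyN : y ∈ N t := by
                rw [h1]
                exact mem_natS.mpr (Or.inl hy)
              exact (HN.mem_iff.mp hyN).1
            · exact hzf (hF2 hff z (mem_bdR.mp hz).1 x1 htw
                (hF1 hff x1 htw (hb1' ▸ hFX)) hzx1 hcon)
          · unfold C1
            have h7 := cst_stair (w := w) (h := θ (topOf x) x + 1) h0.chart hxN hlx1 (by omega)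
            unfold stC at h6
            rw [show j + 1 - w - 1 = θ (topOf x) x + 1 by omega] at h6
            rw [h7]
            omega
        · right; left
          exact (h6.cheap hlx1 hab (by omega)).toN
      · have ha2 : (co x).1 = 2 := by omega
        rw [ha2] at hst hab
        have g1 : ∀ k, 4 ≤ k → k + 1 ≤ j → nab k x = 3 := by
          intro k hk1 hk2
          rw [hab k (by omega)]
          unfold stAb
          omega
        have g2 : nab j x = 2 := by
          rw [hab j (by omega)]
          unfold stAb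
          omega
        have g0 : nab 2 x ≠ 1 := by
          rw [hab 2 (by omega)]
          unfold stAb
          omega
        have hsp : Spc j w N b θ x := by
          refine ⟨Nc, co, ?_, ?_, ?_, hxN, ?_, ?_⟩
          · rw [ht]; exact h0
          · rw [ht]; exact h1
          · rw [ht, h3]; omega
          · exact Prod.ext ha2 (by simp only; omega)
          · omega
        rcases n.sp with h6 | h6 | ⟨hq, h6⟩
        · exact Or.inl (hst h6)
        · right; right; left
          exact ⟨hsp, (h6.spOK (by omega) hlx1 hab (by omega)).toN⟩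
        · right; right; left
          exact ⟨hsp, h6.spOK (by omega) hlx1 hab (by omega)
            (hNE hq hlx1 g0 g1 g2)⟩

end Pool.Agent.GaussPoset.Sm
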