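import Pool.Agent.W_448jx_h67.WeA

/-!
The windows `2`, `3` at `j = 10` with the component of the end `(5, 25, 0)`: covers
(MP_448cb3_co, HJoin10)
-/

namespace Pool.Agent.GaussPoset.Sm

set_option linter.unusedSectionVars false

open Polynomial Finset

universe u

variable {P : Type u} [Fintype P] [PartialOrder P] [DecidableEq P] {r j w K : ℕ}
  {N : Tops P → Finset P} {b : Tops P → ℕ} {θ : Tops P → P → ℕ}

lemma We.bs (W : We r j w K N b θ) {x : P} (hx : x ∉ rA N) : Bs N θ x (bs N x) := by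
  classical
  unfold GaussPoset.bs
  rcases not_mem_rA.mp hx with h | h
  · rw [if_neg (W.not_tw h)]
    exact ⟨h, rfl, W.thA_nat h, fun k => Or.inl rfl, fun v => Iff.rfl⟩
  · rw [if_pos h]
    have h1 := W.twSys.up x h
    refine ⟨W.twSys.nat x h, W.twSys.lev h, W.thA_tw h, fun k => ?_, h1⟩
    rcases Nat.lt_or_ge k (Pool.Agent.GaussPoset.lev x) with h2 | h2
    · exact Or.inl (nab_congr_up h1 h2)
    · exact Or.inr h2

lemma We.hA_le (W : We r j w K N b θ) {z x : P} (hx : x ∉ rA N) (hzx : z ⋖ x) :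
    hA N θ z ≤ θ (topOf (GaussPoset.bs N x)) (GaussPoset.bs N x) + 1 := by
  rw [← (W.bs hx).th]
  exact hcan_le hx hzx

lemma We.hA_spec (W : We r j w K N b θ) {z : P} (hz : z ∈ bdR (rA N)) :
    ∃ x, x ∉ rA N ∧ z ⋖ x ∧
      hA N θ z = θ (topOf (GaussPoset.bs N x)) (GaussPoset.bs N x) + 1 := by
  obtain ⟨x, h1, h2, h3⟩ := hcan_spec (θ := thA N θ) hz
  refine ⟨x, h1, h2, ?_⟩
  rw [← (W.bs h1).th]
  exact h3

lemma We.bd_lev (W : We r j w K N b θ) {z : P} (hz : z ∈ bdR (rA N)) : j < lev z :=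
  W.lt_lev (mem_rA.mp (mem_bdR.mp hz).1).1

/-- an element of the far set is not below two neighbours with a common cover -/
theorem We.no_adj (W : We r j w K N b θ) {z x x' p : P} (hz : z ∈ rA N) (hx : x ∉ unnat N)
    (hx' : x' ∉ unnat N) (hzx : z ⋖ x) (hzx' : z ⋖ x') (hne : x ≠ x') (hp : x ⋖ p)
    (hp' : x' ⋖ p) : False := by
  have H := W.gt.H
  have HN := W.natSys
  have hzu := (mem_rA.mp hz).1
  have hzt : ∀ y, y ∉ unnat N → ¬ ∀ v, y < v ↔ z < v := fun y hy h =>
    (mem_rA.mp hz).2 (mem_twA.mpr ⟨hzu, y, hy, h⟩)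
  have t1 := (W.up hx hp.1.le).2
  have t2 := (W.up hx' hp'.1.le).2
  have huni := uc_two_of H hzx hzx' hne
  have hxt : x ∈ N (topOf x) := HN.mem_iff.mpr ⟨hx, rfl⟩
  have hxt' : x' ∈ N (topOf x) := HN.mem_iff.mpr ⟨hx', by rw [← t2, t1]⟩
  have hzN := mem_unnat.mp hzu (topOf x)
  have hnat : ∀ y ∈ N (topOf x), y ∉ unnat N := fun y hy => (HN.mem_iff.mp hy).1
  have hle1 : x ≤ (topOf x : P) := le_topOf x
  have hle2 : x' ≤ (topOf x : P) := by
    have h := le_topOf x'
    rw [← t2, t1] at h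
    exact h
  generalize topOf x = t at hxt hxt' hzN hnat hle1 hle2
  rcases W.typ t with hTX | hE
  swap
  · have e1 := (H.covBy_iff.mp hzx).2
    have e2 := (H.covBy_iff.mp hzx').2
    have e3 := W.lt_lev hzu
    exact hne (hE.one x hle1 x' hle2 (hE.spec hxt (by omega)).1 (hE.spec hxt' (by omega)).1)
  rcases hTX with ⟨h1, h2, h3, h5⟩ | ⟨Nc, co, h0, h1, h2, h4⟩ |
    ⟨Nc, co, h0, h1, h2, h3, h4, h5'⟩
  · apply hzN
    rw [h1] at hxt hxt' ⊢
    rw [mem_onlyB] at hxt hxt' ⊢
    intro s hs hzs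
    have hzs' : z < s := lt_of_le_of_ne hzs (by
      intro h
      have := lev_strictAnti hzx.1
      rw [h] at this
      omega)
    obtain ⟨v, hv, hvs⟩ := Hul.exists_cov hzs'
    rcases huni v hv with h | h
    · exact hxt s hs (h ▸ hvs)
    · exact hxt' s hs (h ▸ hvs)
  · rw [h1] at hxt hxt' hzN
    rw [mem_natR] at hxt hxt'
    have hzN1 : z ∉ Nc := fun h => hzN (mem_natR.mpr (Or.inl h))
    have hzN2 : z ∉ junk (fun _ => True) Nc co := fun h => hzN (mem_natR.mpr (Or.inr (Or.inl h)))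
    have hzN3 : z ∉ junk (fun _ => True) Nc (swp co) :=
      fun h => hzN (mem_natR.mpr (Or.inr (Or.inr h)))
    have g1 := h0.one1
    have g2 := h0.one2
    -- both in one orientation
    have fin1 : (x ∈ Nc ∨ x ∈ junk (fun _ => True) Nc co) →
        (x' ∈ Nc ∨ x' ∈ junk (fun _ => True) Nc co) → False := by
      intro e1 e2
      rcases adj_core rowT_true (fun _ _ _ => trivial) h0.chart h0.max H g1 hzN1 e1 e2 hzx hzx' hne
        hp hp' with ⟨y, hy, h⟩ | h
      · exact hzt y (hnat y (by rw [h1]; exact mem_natR.mpr (Or.inl hy))) h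
      · exact hzN2 h
    have fin2 : (x ∈ Nc ∨ x ∈ junk (fun _ => True) Nc (swp co)) →
        (x' ∈ Nc ∨ x' ∈ junk (fun _ => True) Nc (swp co)) → False := by
      intro e1 e2
      rcases adj_core rowT_true (fun _ _ _ => trivial) h0.chart.swap h0.max.swap H g2 hzN1 e1 e2
        hzx hzx' hne hp hp' with ⟨y, hy, h⟩ | h
      · exact hzt y (hnat y (by rw [h1]; exact mem_natR.mpr (Or.inl hy))) h
      · exact hzN3 h
    -- no common cover across
    have across : ∀ (a c : P), a ∈ junk (fun _ => True) Nc co →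
        c ∈ junk (fun _ => True) Nc (swp co) → a ⋖ p → c ⋖ p → False := by
      intro a c ha hc hap hcp
      obtain ⟨x1, H1, hj⟩ := mem_junk.mp ha
      obtain ⟨x2, H2, hj2⟩ := mem_junk.mp hc
      have h2 : p ≤ x1 := by
        rcases (mem_jset.mp hj).2 p hap.1.le with h3 | h3
        · exact h3
        · rcases eq_or_lt_of_le h3 with h4 | h4
          · rw [h4]
          · exact absurd h4 (hap.2 (mem_jset.mp hj).1)
      exact junk_cross h0.chart g1 g2 H1 H2 hj2 (hcp.1.trans_le h2)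
    rcases hxt with e | e | e
    · rcases hxt' with e' | e' | e'
      · exact fin1 (Or.inl e) (Or.inl e')
      · exact fin1 (Or.inl e) (Or.inr e')
      · exact fin2 (Or.inl e) (Or.inr e')
    · rcases hxt' with e' | e' | e'
      · exact fin1 (Or.inr e) (Or.inl e')
      · exact fin1 (Or.inr e) (Or.inr e')
      · exact across x x' e e' hp hp'
    · rcases hxt' with e' | e' | e'
      · exact fin2 (Or.inr e) (Or.inl e')
      · exact across x' x e' e hp' hp
      · exact fin2 (Or.inr e) (Or.inr e')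
  · rw [h1] at hxt hxt' hzN
    rw [mem_natS] at hxt hxt'
    have hzN1 : z ∉ Nc := fun h => hzN (mem_natS.mpr (Or.inl h))
    have hzN2 : z ∉ junk (fun c => c.1 ≤ c.2) Nc co := fun h => hzN (mem_natS.mpr (Or.inr h))
    rcases adj_core rowT_shift (fun s c h => by simpa using h) h0.chart h0.max H (h0.one1 h4) hzN1
      hxt hxt' hzx hzx' hne hp hp' with ⟨y, hy, h⟩ | h
    · exact hzt y (hnat y (by rw [h1]; exact mem_natS.mpr (Or.inl hy))) h
    · exact hzN2 h

/-- two covers of the level `j` of an element of the far set have one cover each -/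
lemma We.near (W : We r j w K N b θ) {z x x' : P} (hz : z ∈ rA N) (hl : lev z = j + 1)
    (hzx : z ⋖ x) (hzx' : z ⋖ x') (hne : x ≠ x') :
    (Win.uc x).card = 1 ∧ (Win.uc x').card = 1 := by
  have hj := W.hj
  have H := W.gt.H
  obtain ⟨i, rfl⟩ : ∃ i, j = i + 1 := ⟨j - 1, by omega⟩
  rcases (Win.near_level' W.gt (by omega)).1 z x x' hl hzx hzx' hne with h | h
  · exfalso
    obtain ⟨p, hp, hp'⟩ := Win.StA_of_ucv (v := x) (v' := x') (by omega)
    have e1 := (H.covBy_iff.mp hzx).2
    have e2 := (H.covBy_iff.mp hzx').2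
    exact W.no_adj hz (W.low (by omega)) (W.low (by omega)) hzx hzx' hne hp hp'
  · exact ⟨h.1, h.2.1⟩

/-- three elements on the levels above -/
theorem We.row1_three (W : We r j w K N b θ) {z x x' : P} (hz : z ∈ rA N) (hx : x ∉ unnat N)
    (hx' : x' ∉ unnat N) (hzx : z ⋖ x) (hzx' : z ⋖ x') (hne : x ≠ x') (hR : Row1 j w N θ x)
    (hK : Str w N θ x' ∨ Row1 j w N θ x') {k : ℕ} (hk2 : 2 ≤ k) (hwk : w ≤ k) (hkx : k < lev x) :
    3 ≤ nab k z := by
  have H := W.gt.H
  have HN := W.natSys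
  have hj := W.hj
  have hw := W.hw
  have hlz := W.lt_lev (mem_rA.mp hz).1
  have e1 := (H.covBy_iff.mp hzx).2
  have e2 := (H.covBy_iff.mp hzx').2
  have hxt : x ∈ N (topOf x) := HN.mem_iff.mpr ⟨hx, rfl⟩
  have hxt' : x' ∈ N (topOf x') := HN.mem_iff.mpr ⟨hx', rfl⟩
  have hR3 : nab 3 x = 2 := hR.nab 3 hw (by omega)
  have hRt := hR.th
  by_cases htt : topOf x' = topOf x
  · have hno : ∀ p, x ⋖ p → ¬ x' ⋖ p := fun p hp hp' => W.no_adj hz hx hx' hzx hzx' hne hp hp'
    rw [htt] at hxt'
    have hth' : θ (topOf x) x' = lev x' - w ∨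
        (θ (topOf x) x' + 1 = lev x' - w ∧ nab 3 x' = 2) := by
      rcases hK with h | h
      · left
        rw [← htt]
        exact h.th
      · right
        rw [← htt]
        exact ⟨h.th, h.nab 3 hw (by omega)⟩
    generalize topOf x = t at hxt hxt' hRt hth'
    rcases W.typ t with hTX | hE
    swap
    · exfalso
      obtain ⟨k1, k2, k3, k4, -⟩ := hE.spec hxt (by omega)
      omega
    rcases hTX with ⟨h1, h2, h3, h5⟩ | ⟨Nc, co, h0, h1, h2, h4⟩ |
      ⟨Nc, co, h0, h1, h2, h3, h4, h5'⟩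
    · exfalso
      rw [h2] at hRt
      simp only at hRt
      omega
    · rw [h1] at hxt hxt'
      rw [h2] at hRt hth'
      obtain ⟨f1, f2, f3, f4⟩ := rect_row17 h0 hw hxt (by omega) hRt hR3
      have hxs' : (Side (fun _ => True) Nc co x' ∨ Side (fun _ => True) Nc (swp co) x') ∨
          (x' ∈ Nc ∧ ((co x').1 = 1 ∨ (co x').2 = 1)) := by
        rcases hth' with h | ⟨h, h'⟩
        · exact Or.inl (rect_str7 h0 hw hxt' (by omega) h)
        · obtain ⟨a1, a2, a3, a4⟩ := rect_row17 h0 hw hxt' (by omega) h h'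
          exact Or.inr ⟨a1, a4⟩
      rcases f4 with f4 | f4
      · refine other_side H h0.chart h0.one2 f1 hzx.1.le f4 f3 (by omega) hzx'.1.le hne ?_ hno hk2
          hkx
        rcases hxs' with (h | h) | h
        · exact Or.inl h
        · exact Or.inr (Or.inl h)
        · exact Or.inr (Or.inr h)
      · refine other_side H h0.chart.swap h0.one1 f1 hzx.1.le f4 f2 (by omega) hzx'.1.le hne ?_
          hno hk2 hkx
        rcases hxs' with (h | h) | h
        · exact Or.inr (Or.inl h)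
        · exact Or.inl h
        · exact Or.inr (Or.inr ⟨h.1, h.2.symm⟩)
    · exfalso
      rw [h1] at hxt hxt'
      rw [h2] at hRt hth'
      obtain ⟨f1, f2⟩ := stair_row17 h0 hw h4 hxt (by omega) hRt
      rcases hth' with h | ⟨h, h'⟩
      · have h6 := stair_str7 h0 hw h4 hxt' (by omega) h
        obtain ⟨a1, a2⟩ := h6.cell h0.chart f1 f2 (by omega)
        obtain ⟨p, hp, hcp⟩ := h0.chart.low x f1 (0, (co x).2) ⟨Nat.zero_le _, le_rfl⟩
          (Nat.zero_le _)
        refine hno p ?_ ?_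
        · rw [chart_cov h0.chart H f1 hp, hcp]
          exact Or.inl ⟨by simp only; omega, rfl⟩
        · rw [chart_cov h0.chart H a1 hp, hcp, a2]
          exact Or.inr ⟨rfl, rfl⟩
      · obtain ⟨a1, a2⟩ := stair_row17 h0 hw h4 hxt' (by omega) h
        have l1 := h0.chart.lev x f1
        have l2 := h0.chart.lev x' a1
        exact hne (h0.chart.inj x f1 x' a1 (Prod.ext (by omega) (by omega)))
  · have h3 := nab_join HN H.gradedBelow hxt hzx.1.le (topOf x').2 (fun h => htt (Subtype.ext h))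
      (hzx'.1.le.trans (le_topOf x')) (l := k) (by omega)
    have := hR.nab k hwk hkx
    omega

/-- straight natural elements -/
lemma We.str_nab (W : We r j w K N b θ) (L : Unq P w b) {x : P} (hx : x ∉ unnat N)
    (hS : Str w N θ x) (hl : j ≤ lev x) : nab w x = 1 := by
  classical
  have H := W.gt.H
  have HN := W.natSys
  have hg := W.gt.good
  have hj := W.hj
  have hw := W.hw
  have hxt : x ∈ N (topOf x) := HN.mem_iff.mpr ⟨hx, rfl⟩
  have hth := hS.th
  generalize topOf x = t at hxt hth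
  rcases W.typ t with hTX | hE
  swap
  · exfalso
    obtain ⟨k1, k2, k3, k4, -⟩ := hE.spec hxt (by omega)
    omega
  rcases hTX with ⟨g1, g2, g3, g5⟩ | ⟨Nc, co, h0, g1, g2, g4⟩ |
    ⟨Nc, co, h0, g1, g2, g3, g4, g5'⟩
  · rw [g1] at hxt
    refine le_antisymm ?_ (one_le_nab (by omega))
    unfold nab
    rw [Finset.card_le_one]
    intro y hy y' hy'
    rw [mem_filter, mem_lv] at hy hy'
    exact L t g3 y y' (onlyB_le (onlyB_up hxt hy.2)) (onlyB_le (onlyB_up hxt hy'.2)) hy.1 hy'.1
  · rw [g1] at hxt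
    rw [g2] at hth
    rcases rect_str7 h0 hw hxt (by omega) hth with h | h
    · exact h.nab_one rowT_true h0.chart H hg h0.strip h0.one1 (by omega) (by omega)
    · exact h.nab_one rowT_true h0.chart.swap H hg h0.strip h0.one2 (by omega) (by omega)
  · rw [g1] at hxt
    rw [g2] at hth
    have h := stair_str7 h0 hw g4 hxt (by omega) hth
    exact h.nab_one rowT_shift h0.chart H hg h0.strip (h0.one1 g4) (by omega) (by omega)

/-- thresholds of single-up elements of level `j` -/
lemma We.single_th (W : We r j w K N b θ) {x : P} (hx : x ∉ unnat N) (hl : lev x = j)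
    (h1 : (Win.uc x).card = 1)
    (hn : ¬ E6T j w (topOf x) (b (topOf x)) (N (topOf x)) (θ (topOf x))) :
    lev x ≤ θ (topOf x) x + 2 + w := by
  have H := W.gt.H
  have HN := W.natSys
  have hj := W.hj
  have hw := W.hw
  have hxt : x ∈ N (topOf x) := HN.mem_iff.mpr ⟨hx, rfl⟩
  generalize topOf x = t at hxt hn ⊢
  rcases (W.typ t).resolve_right hn with ⟨g1, g2, g3, g5⟩ | ⟨Nc, co, h0, g1, g2, g4⟩ |
    ⟨Nc, co, h0, g1, g2, g3, g4, g5'⟩
  · rw [g2]
    simp only
    omega
  · rw [g1] at hxt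
    by_cases hJ : x ∈ junk (fun _ => True) Nc co ∨ x ∈ junk (fun _ => True) Nc (swp co)
    · rw [g2]
      unfold thR
      rw [if_pos hJ]
      omega
    · have hxN : x ∈ Nc := by
        rw [mem_natR] at hxt
        rcases hxt with h | h | h
        · exact h
        · exact absurd (Or.inl h) hJ
        · exact absurd (Or.inr h) hJ
      have h2 := rect_th7 h0 hw hxN hJ (by omega)
      rw [g2]
      by_contra hcon
      have := chart_inner_uc h0.chart H hxN (by omega) (by omega)
      omega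
  · rw [g1] at hxt
    by_cases hJ : x ∈ junk (fun c => c.1 ≤ c.2) Nc co
    · rw [g2]
      unfold thS
      rw [if_pos hJ]
      omega
    · have hxN : x ∈ Nc := by
        rw [mem_natS] at hxt
        exact hxt.resolve_right hJ
      have h2 := stair_th7 h0 hw g4 hxN hJ (by omega)
      rw [g2]
      omega

end Pool.Agent.GaussPoset.Sm
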