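import Pool.Agent.W_448jx_h67.WeB

/-!
The windows `2`, `3` at `j = 10` with the component of the end `(5, 25, 0)`: straight covers
(MP_448cb3_co, HJoin10)
-/

namespace Pool.Agent.GaussPoset.Sm

set_option linter.unusedSectionVars false

open Polynomial Finset

universe u

variable {P : Type u} [Fintype P] [PartialOrder P] [DecidableEq P] {r j w K0 K : ℕ}
  {N : Tops P → Finset P} {b : Tops P → ℕ} {θ : Tops P → P → ℕ} {XE XO : ℕ → Prop}

/-- a flat cheapest element below a cell of row `1` -/
theorem We.row1_outS (W : We r j w K0 N b θ)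
    (hKK : 2 * K < 3 * (j + 1 - w) ^ 2 + 3 * (j + 1 - w)) {v : ℕ} {z : P} (hz : z ∈ bdR (rA N))
    (hc : cst w (hA N θ) z = v) (hF : Flat j w N θ z) (hge : lev z ≤ hA N θ z + 1 + w) {x : P}
    (hzx : z ⋖ x) (hR : Row1 j w N θ x) : OutK j w K XE XO (hA N θ) z v := by
  classical
  have H := W.gt.H
  have hj := W.hj
  have hw := W.hw
  have hzR := (mem_bdR.mp hz).1
  have hlz := W.bd_lev hz
  have e1 := (H.covBy_iff.mp hzx).2
  have hx := (hF x hzx).1
  have hbs : GaussPoset.bs N x = x := by
    unfold GaussPoset.bs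
    rw [if_neg (W.not_tw hx)]
  have hle := W.hA_le (not_mem_rA.mpr (Or.inl hx)) hzx
  rw [hbs] at hle
  have hRt := hR.th
  obtain ⟨a, ha⟩ : ∃ a, lev x = w + a := ⟨lev x - w, by omega⟩
  have hha : hA N θ z = a := by omega
  have h1w := hR.one_le
  by_cases honly : ∀ y, z ⋖ y → y = x
  · -- a pendant
    have hlx : lev x ≠ j := fun h => hR.nopen h z hzx honly
    right
    refine ⟨?_, Or.inl ⟨?_, Or.inl ⟨h1w, Or.inr (Or.inl ⟨a - (j + 1 - w), Or.inl ?_⟩)⟩⟩⟩
    · rw [hha, ← ha, nab_only honly hzx (by omega), hR.nab w le_rfl (by omega),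
        nab_only honly hzx (by omega), nab_self]
    · rw [nst_eq, hha, Finset.sum_congr rfl (g := fun _ => 2)]
      · rw [Finset.sum_const, card_range]
        exact ⟨a, by simp only [smul_eq_mul]; ring⟩
      · intro k hk
        rw [mem_range] at hk
        rw [nab_only honly hzx (by omega), hR.nab _ (by omega) (by omega)]
    · rw [← hc, cst_only H.gradedBelow hzx honly, hha, cst_eq_ful (by omega),
        ful_two ha (fun k hk1 hk2 => hR.nab k hk1.le hk2)]
      rw [show j + 1 - w + (a - (j + 1 - w)) = a by omega, Nat.min_eq_left (by omega)]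
      ring
  · -- a pair
    push Not at honly
    obtain ⟨x', hzx', hne'⟩ := honly
    have hne : x ≠ x' := Ne.symm hne'
    have e2 := (H.covBy_iff.mp hzx').2
    have hx' := (hF x' hzx').1
    have hlx : lev x ≠ j := by
      intro h
      have := (W.near hzR (by omega) hzx hzx' hne).1
      have := hR.dbl
      omega
    left
    have h3 : ∀ k, 2 ≤ k → w ≤ k → k < lev x → 3 ≤ nab k z := fun k hk1 hk2 hk3 =>
      W.row1_three hzR hx hx' hzx hzx' hne hR (hF x' hzx').2 hk1 hk2 hk3
    have h4 : 2 ≤ nab (lev x) z := two_le_nab hzx.1.le hzx'.1.le rfl (by omega) hne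
    have h5 : ∑ n ∈ range a, n * 3 + a * 2 + a ≤ v := by
      rw [← hc, cst_shift (a := a + 1) (by omega), Finset.sum_range_succ
        (fun n => min (hA N θ z) n * nab (w + n) z), Finset.sum_range_succ
        (fun n => min (hA N θ z) n * nab (w + n) z), hha]
      refine Nat.add_le_add (Nat.add_le_add ?_ ?_) ?_
      · refine Finset.sum_le_sum fun n hn => ?_
        rw [mem_range] at hn
        rw [Nat.min_eq_right hn.le]
        rcases Nat.eq_zero_or_pos n with h0 | h0
        · subst h0; simp
        · exact Nat.mul_le_mul_left _ (h3 _ (by omega) (by omega) (by omega))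
      · rw [Nat.min_self, ← ha]
        exact Nat.mul_le_mul_left _ h4
      · rw [show w + (a + 1) = lev z by omega, nab_self, mul_one]
        exact Nat.le_min.mpr ⟨le_rfl, by omega⟩
    have h6 := Finset.sum_range_id_mul_two a
    rw [← Finset.sum_mul] at h5
    have hK := hKK
    have h7 : (j + 1 - w) ^ 2 ≤ a ^ 2 := Nat.pow_le_pow_left (by omega) 2
    have h8 : a * (a - 1) + a = a ^ 2 := by
      obtain ⟨c, rfl⟩ : ∃ c, a = c + 1 := ⟨a - 1, by omega⟩
      rw [Nat.add_sub_cancel]
      ring
    omega

/-- straight covers below two tops -/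
theorem We.cross_outS (W : We r j w K0 N b θ) (L : Unq P w b)
    (F : ∀ z x x' : P, Cg z x x' → j + 1 ≤ lev z → nab w x = 1 → ¬ Sok j x → K < ful w z)
    {v : ℕ} {z : P}
    (hz : z ∈ bdR (rA N)) (hh : hA N θ z = lev z - w) (hc : cst w (hA N θ) z = v) {x x' : P}
    (hx : x ∉ unnat N) (hx' : x' ∉ unnat N) (hS : Str w N θ x) (hS' : Str w N θ x')
    (hzx : z ⋖ x) (hzx' : z ⋖ x') (htt : topOf x ≠ topOf x') :
    OutK j w K XE XO (hA N θ) z v := by
  classical
  have H := W.gt.H
  have HN := W.natSys
  have hj := W.hj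
  have hw := W.hw
  have hlz := W.bd_lev hz
  have e1 := (H.covBy_iff.mp hzx).2
  have e2 := (H.covBy_iff.mp hzx').2
  have hxt : x ∈ N (topOf x) := HN.mem_iff.mpr ⟨hx, rfl⟩
  have hxt' : x' ∈ N (topOf x') := HN.mem_iff.mpr ⟨hx', rfl⟩
  have n1 := W.str_nab L hx hS (by omega)
  have n2 := W.str_nab L hx' hS' (by omega)
  have hv : v = ful w z := by
    rw [← hc]
    exact cst_eq_ful (by omega)
  have C : Cg z x x' := Cg.mk' hzx hzx' (mem_onlyB.mpr fun s hs hxs => HN.top_eq hxt hs hxs)
    (mem_onlyB.mpr fun s hs hxs => HN.top_eq hxt' hs hxs) htt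
  by_cases s1 : Sok j x
  · by_cases s2 : Sok j x'
    · right
      refine ⟨?_, Or.inr (Or.inr ⟨⟨x, x', C, s1, s2⟩, hv, hh⟩)⟩
      rw [nab_join_eq HN H hxt hxt' htt hzx hzx' (by omega), n1, n2, hh,
        show w + (lev z - w) = lev z by omega, nab_self]
    · left
      rw [hv]
      exact F z x' x C.symm (by omega) n2 s2
  · left
    rw [hv]
    exact F z x x' C (by omega) n1 s1

/-- the own pair: two straight covers on the two sides of a rectangle-like component -/
theorem We.own_pairS (W : We r j w K0 N b θ) {v : ℕ}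
    (hP : OnePen P j (fun t => 2 ≤ b t) ∨ v ≤ (j + 1 - w) ^ 2 + 5 * (j - w)) {z : P}
    (hz : z ∈ bdR (rA N)) (hh : hA N θ z = lev z - w) (hc : cst w (hA N θ) z = v) {t : Tops P}
    {c : ℕ} {Nc : Finset P} {co : P → ℕ × ℕ} (R : RectNat j w t c Nc co) {x x' : P}
    (hx : Side (fun _ => True) Nc co x) (hx' : Side (fun _ => True) Nc (swp co) x')
    (hzx : z ⋖ x) (hzx' : z ⋖ x') (hxt : topOf x = topOf x') (hB : 2 ≤ b (topOf x)) :
    OutK j w K XE XO (hA N θ) z v := by
  classical
  have H := W.gt.H
  have hg := W.gt.good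
  have hj := W.hj
  have hw := W.hw
  have hlz := W.bd_lev hz
  have hw1 : 1 ≤ w := by
    have := R.b_two
    have := R.b_le
    omega
  have e1 := (H.covBy_iff.mp hzx).2
  have e2 := (H.covBy_iff.mp hzx').2
  have hsum := fun {k : ℕ} (hk : 1 ≤ k) (hkz : k < lev z) =>
    nab_two_sides H R hx hx' hzx hzx' hk hkz
  have n1 : ∀ k, k ≤ j → nab k x = 1 := fun k hk =>
    hx.nab_one rowT_true R.chart H hg R.strip R.one1 hk (by omega)
  have n2 : ∀ k, k ≤ j → nab k x' = 1 := fun k hk =>
    hx'.nab_one rowT_true R.chart.swap H hg R.strip R.one2 hk (by omega)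
  -- the ancestors of level `j`
  have hpar : OnePen P j (fun t => 2 ≤ b t) → ∀ (a a' : P), 2 ≤ b (topOf a) →
      topOf a = topOf a' → j + 1 ≤ lev a → j + 1 ≤ lev a' →
      a ≤ (topOf a : P) → (∀ k, k ≤ j → nab k a = 1) → (∀ k, k ≤ j → nab k a' = 1) →
      (∀ e e', a ≤ e → lev e = j → a' ≤ e' → lev e' = j → e ≠ e') →
      ∀ e p p' : P, a ≤ e → lev e = j → p ⋖ e → p' ⋖ e → (∀ y, p ⋖ y → y = e) →
      (∀ y, p' ⋖ y → y = e) → p = p' := by
    intro hP a a' hBa htt hla hla' _ h1 h2 hdis e p p' hae hle hp hp' ho ho'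
    obtain ⟨e', f1, f2, f3⟩ := exists_between H.gradedBelow (z := a') (s := (topOf a' : P))
      (le_topOf a') (l := j) (by have := (topOf a').2; omega) (by omega)
    have g1 : ∀ k, k ≤ j → nab k e = 1 := fun k hk => by
      have := nab_mono (l := k) hae
      have := one_le_nab (l := k) (z := e) (by omega)
      have := h1 k hk
      omega
    have g2 : ∀ k, k ≤ j → nab k e' = 1 := fun k hk => by
      have := nab_mono (l := k) f1
      have := one_le_nab (l := k) (z := e') (by omega)
      have := h2 k hk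
      omega
    have t1 : topOf e = topOf a := by
      refine Subtype.ext (W.gt.top_eq (by omega) (topOf e).2 (topOf a).2 (le_topOf e) ?_)
      -- `e` is the only ancestor of level `j`
      obtain ⟨q, q1, q2, q3⟩ := exists_between H.gradedBelow (z := a) (s := (topOf a : P))
        (le_topOf a) (l := j) (by have := (topOf a).2; omega) (by omega)
      by_cases hq : q = e
      · rw [← hq]; exact q2
      · have := two_le_nab (l := j) q1 hae q3 hle hq
        have := h1 j le_rfl
        omega
    have ht : topOf e = topOf e' := by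
      have t2 : topOf e' = topOf a' :=
        Subtype.ext (W.gt.top_eq (by omega) (topOf e').2 (topOf a').2 (le_topOf e') f2)
      rw [t1, t2, htt]
    exact hP e e' p p' (by rw [t1]; exact hBa) hle f3 g1 g2 ht (hdis e e' hae hle f1 f3) hp hp' ho
      ho'
  have hdis : ∀ e e', x ≤ e → lev e = j → x' ≤ e' → lev e' = j → e ≠ e' := by
    intro e e' he hle he' hle' hee
    have h3 := hsum (k := j) (by omega) (by omega)
    rw [n1 j le_rfl, n2 j le_rfl] at h3
    -- `nab j z = 2` but both ancestors are equal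
    subst hee
    have h4 : 2 ≤ nab j z := by omega
    unfold nab at h4
    obtain ⟨q, hq, hqe⟩ := Finset.exists_mem_ne (by omega :
      1 < ((lv P j).filter (fun y => z ≤ y)).card) e
    rw [mem_filter, mem_lv] at hq
    have hlt : z < q := lt_of_le_of_ne hq.2 (by rintro rfl; omega)
    obtain ⟨u, hu, huq⟩ := Hul.exists_cov hlt
    have hne : x ≠ x' := by
      rintro rfl
      have h5 := nab_only (z := z) (x := x) (k := j) ?_ hzx (by omega)
      · rw [h5, n1 j le_rfl] at h3
        omega
      · intro y hy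
        by_contra hyx
        have h6 := two_le_nab (l := 1) (z := z) (x := x) (y := x)
        -- `x` is on both sides: impossible
        have h7 := hsum (k := lev x) (by omega) (by omega)
        rw [nab_self] at h7
        have h8 := hx.up R.chart (le_refl x)
        obtain ⟨q1, r1, r2, r3⟩ := exists_between H.gradedBelow (z := x) (s := (topOf x : P))
          (le_topOf x) (l := 1) (by have := (topOf x).2; omega) (by omega)
        have s1 := hx.up R.chart r1
        have s2 := hx'.up R.chart.swap r1
        have hqN : q1 ∈ Nc := by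
          rcases s1 with s | s
          · refine R.strip (mem_lowPart.mpr ⟨?_, by omega⟩)
            obtain ⟨x1, H1, hj1⟩ := mem_junk.mp s
            exact (mem_jset.mp hj1).1.le.trans (R.chart.le_t x1 H1.mem)
          · exact s.1
        have hlq := R.chart.lev q1 hqN
        have u1 : (co q1).1 = 0 := by
          rcases s1 with s | s
          · exact (junk_fst R.chart R.one1 s hqN).2
          · exact s.2
        have u2 : (co q1).2 = 0 := by
          rcases s2 with s | s
          · exact (junk_swp_fst R.chart R.one2 s hqN).2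
          · exact s.2
        omega
    rcases uc_two_of H hzx hzx' hne u hu with h | h
    · rw [h] at huq
      have := two_le_nab (l := j) huq he hq.1 hle hqe
      rw [n1 j le_rfl] at this
      omega
    · rw [h] at huq
      have := two_le_nab (l := j) huq he' hq.1 hle hqe
      rw [n2 j le_rfl] at this
      omega
  -- numbers
  obtain ⟨c0, hc0⟩ : ∃ c0, lev z = w + c0 := ⟨lev z - w, by omega⟩
  obtain ⟨s, hs⟩ : ∃ s, c0 = j + 1 - w + s := ⟨c0 - (j + 1 - w), by omega⟩
  have hge2 : ∀ n, n < c0 → 2 ≤ nab (w + n) z := by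
    intro n hn
    rw [hsum (k := w + n) (by omega) (by omega)]
    have := one_le_nab (l := w + n) (z := x) (by omega)
    have := one_le_nab (l := w + n) (z := x') (by omega)
    omega
  have heq1 : ∀ n, n < c0 → (n < j + 1 - w ∨ c0 ≤ n + 1) → nab (w + n) z = 2 := by
    intro n hn hor
    rw [hsum (k := w + n) (by omega) (by omega)]
    rcases Nat.lt_or_ge (w + n) (j + 1) with h | h
    · rw [n1 _ (by omega), n2 _ (by omega)]
    · rw [show w + n = lev x by omega, nab_self, show lev x = lev x' by omega, nab_self]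
  have heq2 : ∀ n, n < c0 → (n ≤ j + 1 - w ∨ c0 ≤ n + 1) → nab (w + n) z = 2 := by
    intro n hn hor
    by_cases hor' : n < j + 1 - w ∨ c0 ≤ n + 1
    · exact heq1 n hn hor'
    rcases hP with hP | hP
    · rw [hsum (k := w + n) (by omega) (by omega)]
      have hk : w + n = j + 1 := by omega
      rw [hk]
      have a1 := hx.nab_succ rowT_true R.chart H hg R.strip R.one1 (by omega)
        (hpar hP x x' hB hxt (by omega) (by omega) (le_topOf x) n1 n2 hdis)
      have a2 := hx'.nab_succ rowT_true R.chart.swap H hg R.strip R.one2 (by omega)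
        (hpar hP x' x (by rw [← hxt]; exact hB) hxt.symm (by omega) (by omega) (le_topOf x') n2 n1
          (fun e e' q1 q2 q3 q4 => (hdis e' e q3 q4 q1 q2).symm))
      rw [a1, a2]
    · have hv : v = ful w z := by
        rw [← hc]
        exact cst_eq_ful (by omega)
      exact own_small (w := w) (j := j) (c := c0) (s := s) (fun n => nab (w + n) z) z (by omega) hc0
        hs (fun _ => rfl) hge2 heq1 (by rw [← hv]; exact hP) n hn
  obtain ⟨h5, E, h6, h7, h8, h9⟩ := own_arith (w := w) (j := j) (c := c0) (s := s)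
    (fun n => nab (w + n) z) z (by omega) hw1 hc0 hs (fun _ => rfl) hge2 heq2 rfl
  have hnst : nst w (hA N θ) z = 2 * c0 + ∑ n ∈ range c0, (nab (w + n) z - 2) := by
    rw [nst_eq, hh, show lev z - w = c0 by omega]
    exact h5
  have hv : v = ful w z := by
    rw [← hc]
    exact cst_eq_ful (by omega)
  set m := ∑ n ∈ range c0, (nab (w + n) z - 2) with hm
  right
  refine ⟨?_, ?_⟩
  · rw [hh, show w + (lev z - w) = lev z by omega, nab_self]
    exact heq2 0 (by omega) (by omega)
  · rcases Nat.eq_zero_or_pos m with h0 | h0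
    · left
      rw [h0, add_zero] at hnst
      refine ⟨⟨c0, by rw [hnst]; ring⟩, Or.inl ⟨hw1, Or.inl ⟨s, ?_⟩⟩⟩
      have h10 : E = 0 := by
        rw [h0, mul_zero] at h8
        omega
      rw [hv, h6, h10, add_zero]
    · have h3s := h9 h0
      rcases Nat.even_or_odd m with hme | hmo
      · left
        refine ⟨?_, Or.inl ⟨hw1, Or.inr (Or.inr ⟨s, m, E, h3s, h0, hme, by rw [hv, h6], h7, h8⟩)⟩⟩
        rw [hnst]
        exact (even_two_mul c0).add hme
      · right; left
        refine ⟨?_, Or.inl ⟨hw1, Or.inl ⟨s, m, E, h3s, h0, hmo, by rw [hv, h6], h7, h8⟩⟩⟩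
        rw [hnst]
        exact (even_two_mul c0).add_odd hmo

/-- straight covers below one top -/
theorem We.own_outS (W : We r j w K0 N b θ) {v : ℕ}
    (hP : OnePen P j (fun t => 2 ≤ b t) ∨ v ≤ (j + 1 - w) ^ 2 + 5 * (j - w)) {z : P}
    (hz : z ∈ bdR (rA N)) (hh : hA N θ z = lev z - w) (hc : cst w (hA N θ) z = v)
    (hF : ∀ x, z ⋖ x → x ∉ unnat N ∧ Str w N θ x) {t : Tops P}
    (ht : ∀ x, z ⋖ x → topOf x = t) : OutK j w K XE XO (hA N θ) z v := by
  classical
  have H := W.gt.H
  have HN := W.natSys
  have hj := W.hj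
  have hw := W.hw
  have hlz := W.bd_lev hz
  have hzu := (mem_rA.mp (mem_bdR.mp hz).1).1
  obtain ⟨x, hzx, -⟩ := Hul.exists_cov (w := z) (v := (topOf z : P))
    (lt_of_le_of_ne (le_topOf z) (by
      intro h
      have := (topOf z).2
      rw [← h] at this
      omega))
  have hzN := mem_unnat.mp hzu t
  have hin : ∀ x, z ⋖ x → x ∈ N t ∧ θ t x = lev x - w ∧ lev z = lev x + 1 := by
    intro x hx
    refine ⟨HN.mem_iff.mpr ⟨(hF x hx).1, ht x hx⟩, ?_, (H.covBy_iff.mp hx).2⟩
    rw [← ht x hx]
    exact (hF x hx).2.th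
  have hxx := hin x hzx
  rcases W.typ t with hTX | hE
  swap
  · exfalso
    obtain ⟨k1, k2, k3, k4, -⟩ := hE.spec hxx.1 (by omega)
    omega
  rcases hTX with ⟨g1, g2, g3, g5⟩ | ⟨Nc, co, h0, g1, g2, g4⟩ |
    ⟨Nc, co, h0, g1, g2, g3, g4, g5'⟩
  · exfalso
    apply hzN
    rw [g1, mem_onlyB]
    intro s hs hzs
    have hzs' : z < s := lt_of_le_of_ne hzs (by rintro rfl; omega)
    obtain ⟨u, hu, hus⟩ := Hul.exists_cov hzs'
    have h1 := (hin u hu).1
    rw [g1, mem_onlyB] at h1
    exact h1 s hs hus
  · rw [g1] at hzN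
    have hside : ∀ x, z ⋖ x → Side (fun _ => True) Nc co x ∨ Side (fun _ => True) Nc (swp co) x := by
      intro x hx
      obtain ⟨a1, a2, a3⟩ := hin x hx
      rw [g1] at a1
      rw [g2] at a2
      exact rect_str7 h0 hw a1 (by omega) a2
    by_cases honly : ∀ y, z ⋖ y → y = x
    · exfalso
      obtain ⟨a1, a2, a3, a4, a5⟩ := rect_pendant H h0 g1 hzu hxx.1 hzx honly
      rcases hside x hzx with h | h
      · rcases h with h | h
        · exact a2 h
        · have := h.2
          omega
      · rcases h with h | h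
        · exact a3 h
        · have := h.2
          rw [swp_fst] at this
          omega
    · push Not at honly
      obtain ⟨x', hzx', hne'⟩ := honly
      have hne : x ≠ x' := Ne.symm hne'
      have hxx' := hin x' hzx'
      have huni := uc_two_of H hzx hzx' hne
      have htt : topOf x = topOf x' := by rw [ht x hzx, ht x' hzx']
      rcases hside x hzx with h | h
      · rcases hside x' hzx' with h' | h'
        · exact absurd (mem_natR.mpr (Or.inr (Or.inl
            (junk_of_sides rowT_true h0.chart h0.one1 h h' hne (by omega) huni hzx)))) hzN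
        · exact W.own_pairS hP hz hh hc h0 h h' hzx hzx' htt (by rw [ht x hzx]; exact h0.b_two)
      · rcases hside x' hzx' with h' | h'
        · exact W.own_pairS hP hz hh hc h0 h' h hzx' hzx htt.symm
            (by rw [ht x' hzx']; exact h0.b_two)
        · exact absurd (mem_natR.mpr (Or.inr (Or.inr
            (junk_of_sides rowT_true h0.chart.swap h0.one2 h h' hne (by omega) huni hzx)))) hzN
  · exfalso
    rw [g1] at hzN
    have hside : ∀ x, z ⋖ x → Side (fun c => c.1 ≤ c.2) Nc co x := by
      intro x hx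
      obtain ⟨a1, a2, a3⟩ := hin x hx
      rw [g1] at a1
      rw [g2] at a2
      exact stair_str7 h0 hw g4 a1 (by omega) a2
    by_cases honly : ∀ y, z ⋖ y → y = x
    · obtain ⟨a1, a2, a3⟩ := stair_pendant H h0 (by omega) g1 hzu hxx.1 hzx honly
      rcases hside x hzx with h | h
      · exact a2 h
      · have := h.2
        omega
    · push Not at honly
      obtain ⟨x', hzx', hne'⟩ := honly
      have hne : x ≠ x' := Ne.symm hne'
      have hxx' := hin x' hzx'
      have huni := uc_two_of H hzx hzx' hne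
      exact hzN (mem_natS.mpr (Or.inr (junk_of_sides rowT_shift h0.chart (h0.one1 g4)
        (hside x hzx) (hside x' hzx') hne (by omega) huni hzx)))

end Pool.Agent.GaussPoset.Sm
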