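import Pool.Agent.W_448jx_h67.WeC

/-!
The windows `2`, `3` at `j = 10` with the component of the end `(5, 25, 0)`: the fold end
(MP_448cb3_co, HJoin10)
-/

namespace Pool.Agent.GaussPoset.Sm

set_option linter.unusedSectionVars false

open Polynomial Finset

universe u

variable {P : Type u} [Fintype P] [PartialOrder P] [DecidableEq P] {r j w K : ℕ}
  {N : Tops P → Finset P} {b : Tops P → ℕ} {θ : Tops P → P → ℕ}

/-- an element below two elements of one component is not below the component of `(5, 25, 0)` -/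
lemma We.not_E6 (W : We r j w K N b θ) {z f s : P} (hz : z ∈ rA N) (hlz : lev z = j + 1)
    (hzf : z ⋖ f) (hzs : z ⋖ s) (hne : f ≠ s) (htt : topOf f = topOf s) :
    ¬ E6T j w (topOf f) (b (topOf f)) (N (topOf f)) (θ (topOf f)) := by
  intro hE
  have e1 := (W.gt.H.covBy_iff.mp hzf).2
  have e2 := (W.gt.H.covBy_iff.mp hzs).2
  refine hne (hE.one f (le_topOf f) s ?_ (by omega) (by omega))
  rw [htt]
  exact le_topOf s

/-- a deep element of level `j` with a sibling is a fold end -/
theorem We.fold_cell (W : We r j w K N b θ) (hw2 : 2 ≤ w) {z f s : P}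
    (hz : z ∈ rA N) (hlz : lev z = j + 1) (hzf : z ⋖ f) (hzs : z ⋖ s) (hne : f ≠ s)
    (hth : θ (topOf f) f + 1 + w ≤ lev f)
    (hn : ¬ E6T j w (topOf f) (b (topOf f)) (N (topOf f)) (θ (topOf f))) : ∃ Nc co, FoldC j w N b θ f Nc co := by
  have H := W.gt.H
  have HN := W.natSys
  have hj := W.hj
  have hw := W.hw
  have e1 := (H.covBy_iff.mp hzf).2
  have hlx : lev f = j := by omega
  have hx : f ∉ unnat N := W.low (by omega)
  have hn1 := (W.near hz hlz hzf hzs hne).1
  have hxt : f ∈ N (topOf f) := HN.mem_iff.mpr ⟨hx, rfl⟩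
  generalize htt : topOf f = t at hxt hth hn
  have key : ∀ Nc co, StairNat j w t Nc co → N t = natS Nc co → θ t = thS w Nc co →
      b t = w / 2 + 1 → FoldC j w N b θ f Nc co := by
    intro Nc co h0 g1 g2 g3
    rw [g1] at hxt
    rw [g2] at hth
    have hJ : f ∉ junk (fun c => c.1 ≤ c.2) Nc co := by
      intro h
      unfold thS at hth
      rw [if_pos h] at hth
      omega
    have hxN : f ∈ Nc := by
      rw [mem_natS] at hxt
      exact hxt.resolve_right hJ
    have hl := h0.chart.lev f hxN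
    have hm : (co f).1 ≤ (co f).2 := h0.chart.mem f hxN
    have h2 := stair_th7 h0 hw hw2 hxN hJ (by omega)
    rcases Nat.lt_or_ge (co f).1 (co f).2 with hlt | hge
    · have h3 := stair_inner_uc h0.chart H hxN (by omega) hlt
      omega
    · subst htt
      refine ⟨h0, g1, by rw [g3]; omega, hxN, by omega, by omega, by omega, ?_⟩
      rw [g2]
      omega
  rcases (W.typ t).resolve_right hn with ⟨g1, g2, g3, g5⟩ | ⟨Nc, co, h0, g1, g2, g4⟩ |
    ⟨Nc, co, h0, g1, g2, g3, g4, g5'⟩
  · exfalso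
    rw [g2] at hth
    simp only at hth
    omega
  · exfalso
    rw [g1] at hxt
    rw [g2] at hth
    have hJ : ¬ (f ∈ junk (fun _ => True) Nc co ∨ f ∈ junk (fun _ => True) Nc (swp co)) := by
      intro h
      unfold thR at hth
      rw [if_pos h] at hth
      omega
    have hxN : f ∈ Nc := by
      rw [mem_natR] at hxt
      rcases hxt with h | h | h
      · exact h
      · exact absurd (Or.inl h) hJ
      · exact absurd (Or.inr h) hJ
    have h2 := rect_th7 h0 hw hxN hJ (by omega)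
    have h3 := chart_inner_uc h0.chart H hxN (by omega) (by omega)
    omega
  · exact ⟨Nc, co, key Nc co h0 g1 g2 g3⟩

/-- the second end of the stair -/
theorem We.fold_end (W : We r j w K N b θ) {z f s : P} {Nc : Finset P} {co : P → ℕ × ℕ}
    (C : FoldC j w N b θ f Nc co)
    (hz : z ∈ rA N) (hlz : lev z = j + 1) (hzf : z ⋖ f) (hzs : z ⋖ s) (hne : f ≠ s)
    (htt : topOf f = topOf s) : s ∈ Nc ∧ (co s).1 = 0 ∧ (co s).2 = j := by
  have H := W.gt.H
  have hj := W.hj
  have e1 := (H.covBy_iff.mp hzs).2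
  have hls : Pool.Agent.GaussPoset.lev s = j := by omega
  have hn1 := (W.near hz hlz hzf hzs hne).2
  have hsN : s ∈ Nc := by
    refine C.nat.strip (mem_lowPart.mpr ⟨?_, by omega⟩)
    rw [htt]
    exact le_topOf s
  have hl' := C.nat.chart.lev s hsN
  have hm' : (co s).1 ≤ (co s).2 := C.nat.chart.mem s hsN
  have h10 : (co s).1 = 0 := by
    by_contra h11
    rcases Nat.lt_or_ge (co s).1 (co s).2 with h12 | h12
    · have := stair_inner_uc C.nat.chart H hsN (by omega) h12
      omega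
    · refine hne (C.nat.chart.inj f C.mem s hsN (Prod.ext ?_ ?_))
      · rw [C.co1]; omega
      · rw [C.co2]; have := C.ev; omega
  exact ⟨hsN, h10, by omega⟩

lemma CEl.bdE (W : We r j w K N b θ) {z : P} (h : CEl j w N θ z) : z ∈ bdR (rA N) := by
  obtain ⟨h1, h2, f, s, h3, -⟩ := h
  have e1 := (W.gt.H.covBy_iff.mp h3).2
  exact mem_bdR.mpr ⟨h1, f, not_mem_rA.mpr (Or.inl (W.low (by omega))), h3⟩

/-- the canonical label below a fold end -/
theorem We.hA_fold (W : We r j w K N b θ) {z f s : P} {Nc : Finset P} {co : P → ℕ × ℕ}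
    (C : FoldC j w N b θ f Nc co)
    (hz : z ∈ rA N) (hlz : lev z = j + 1) (hzf : z ⋖ f) (hzs : z ⋖ s) (hne : f ≠ s)
    (htt : topOf f = topOf s) : hA N θ z = j - w - 1 := by
  have H := W.gt.H
  have hj := W.hj
  have e1 := (H.covBy_iff.mp hzf).2
  have hf : f ∉ unnat N := W.low (by omega)
  have hbd : z ∈ bdR (rA N) := mem_bdR.mpr ⟨hz, f, not_mem_rA.mpr (Or.inl hf), hzf⟩
  have hbs : ∀ y : P, y ∉ unnat N → GaussPoset.bs N y = y := by
    intro y hy
    unfold GaussPoset.bs
    rw [if_neg (W.not_tw hy)]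
  have hle := W.hA_le (not_mem_rA.mpr (Or.inl hf)) hzf
  rw [hbs f hf] at hle
  have hth := C.th
  obtain ⟨x0, f1, f2, f3⟩ := W.hA_spec hbd
  rcases cov_two H hzf hzs hne f2 with rfl | rfl
  · rw [hbs _ hf] at f3
    omega
  · have f4 := W.near hz hlz hzf hzs hne
    have f5 := (H.covBy_iff.mp hzs).2
    have hx0 : x0 ∉ unnat N := W.low (by omega)
    rw [hbs _ hx0] at f3
    have f6 := W.single_th hx0 (by omega) f4.2 (by
      rw [← htt]
      intro hE
      obtain ⟨k1, k2, k3, k4, -⟩ := hE.spec (W.natSys.mem_iff.mpr ⟨hf, rfl⟩) C.lev.ge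
      omega)
    omega

lemma NoCC.not_celE (h : NoCC P j) (W : We r j w K N b θ) (hw2 : 2 ≤ w) {z : P} :
    ¬ CEl j w N θ z := by
  rintro ⟨h1, h2, f, s, h3, h4, h5, h6, h7⟩
  obtain ⟨Nc, co, C⟩ := W.fold_cell hw2 h1 h2 h3 h4 h5 h7 (W.not_E6 h1 h2 h3 h4 h5 h6)
  refine h z f s h2 ⟨C.lev, C.ev, fun k hk => ?_⟩ h3 h4 h5.symm (W.near h1 h2 h3 h4 h5).2 h6
  have := C.nab hk
  omega

end Pool.Agent.GaussPoset.Sm
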