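import Pool.Agent.W_448jx_h67.WeD

/-!
Two elements far apart give two peaks of an admissible configuration, refined
(MP_448cb3_co, HJoin10).
-/

namespace Pool.Agent.GaussPoset

set_option linter.unusedSectionVars false

open Polynomial Finset

universe u

namespace F4

section Two

variable {Q : Type u} [Fintype Q] [PartialOrder Q] [DecidableEq Q]

/-- a common peak costs a lot -/
lemma cost_above {i c : ℕ} {y w : Q} {e : Q → ℕ} (he : ∑ x, e x ≤ c) (hyw : y < w)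
    (hy : lev y ≤ lev w + 1) (h1 : 0 ≤ rho i e y) (h0 : 0 ≤ rho i e w)
    (hb : 2 * lev w + c + 1 < 2 * i) : False := by
  classical
  have h2 : e y + e w ≤ ∑ x, e x := by
    rw [← Finset.sum_pair (f := e) hyw.ne]
    exact Finset.sum_le_sum_of_subset (Finset.subset_univ _)
  unfold rho at h0 h1
  omega

/-- a peak above `u` -/
lemma exists_pk_above' {i c : ℕ} {u v : Q} (hu : i ≤ lev u) (hc : ∀ z, u ≤ z ∨ v ≤ z) {e : Q → ℕ}
    (he : ∑ x, e x ≤ c) (hA : Adm i e)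
    (hb : ∀ z, u ≤ z → v ≤ z → 2 * lev z + c + 1 < 2 * i)
    (hst : ∀ z, u ≤ z → v ≤ z → ∃ y, u ≤ y ∧ y < z ∧ lev y ≤ lev z + 1) :
    ∃ w ∈ Pk i e, u ≤ w ∧ ¬ v ≤ w := by
  classical
  obtain ⟨a, ha1, ha⟩ := Finset.exists_max_image (univ.filter (fun y : Q => u ≤ y))
    (fun y => rho i e y) ⟨u, by simp⟩
  have hau : u ≤ a := by simpa using ha1
  have hmax : ∀ y, u ≤ y → rho i e y ≤ rho i e a := fun y hy => ha y (by simpa using hy)
  let S : Finset Q := univ.filter (fun y => u ≤ y ∧ rho i e y = rho i e a)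
  obtain ⟨w, hw⟩ := S.exists_maximal ⟨a, by simp [S, hau]⟩
  have hw1 : u ≤ w ∧ rho i e w = rho i e a := by simpa [S] using hw.1
  have h0 : 0 ≤ rho i e a := by
    have h1 := hmax u le_rfl
    have h2 : 0 ≤ rho i e u := by unfold rho; omega
    exact h2.trans h1
  have hnv : ¬ v ≤ w := by
    intro hv
    obtain ⟨y, y1, y2, y3⟩ := hst w hw1.1 hv
    refine cost_above he y2 y3 ?_ (by rw [hw1.2]; exact h0) (hb w hw1.1 hv)
    by_contra hcon
    exact hA y ⟨Or.inl (not_le.mp hcon), ⟨w, y2, by rw [hw1.2]; exact hmax y y1⟩⟩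
  refine ⟨w, ?_, hw1.1, hnv⟩
  simp only [Pk, mem_filter, mem_univ, true_and]
  constructor
  · rintro (h1 | ⟨z, hz, h1⟩)
    · rw [hw1.2] at h1; omega
    · rcases hc z with h2 | h2
      · rw [hw1.2] at h1
        exact absurd (hmax z h2) (not_le.mpr h1)
      · exact hnv (h2.trans hz.le)
  · rintro ⟨y, hy, h1⟩
    have h2 : rho i e y = rho i e a :=
      le_antisymm (hmax y (hw1.1.trans hy.le)) (by rw [← hw1.2]; exact h1)
    have h3 : y ∈ S := by simp [S, h2, hw1.1.trans hy.le]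
    exact absurd (hw.2 h3 hy.le) (not_le_of_gt hy)

/-- order two for small energies, refined -/
theorem dvd_Z_two' {i c : ℕ} {x1 x2 : Q} (h1 : i ≤ lev x1) (h2 : i ≤ lev x2)
    (hc : ∀ z, x1 ≤ z ∨ x2 ≤ z) (hb : ∀ z, x1 ≤ z → x2 ≤ z → 2 * lev z + c + 1 < 2 * i)
    (s1 : ∀ z, x1 ≤ z → x2 ≤ z → ∃ y, x1 ≤ y ∧ y < z ∧ lev y ≤ lev z + 1)
    (s2 : ∀ z, x1 ≤ z → x2 ≤ z → ∃ y, x2 ≤ y ∧ y < z ∧ lev y ≤ lev z + 1) :
    (1 + X : ℤ[X]) ^ 2 ∣ Z Q i c := by
  classical
  unfold Z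
  refine Finset.dvd_sum fun e he => ?_
  rw [mem_piAntidiag] at he
  split_ifs with h
  · refine dvd_mul_of_dvd_right (pow_dvd_pow _ ?_) _
    obtain ⟨w1, a1, b1, c1⟩ := exists_pk_above' h1 hc he.1.le h hb s1
    obtain ⟨w2, a2, b2, c2⟩ := exists_pk_above' h2 (fun z => (hc z).symm) he.1.le h
      (fun z g1 g2 => hb z g2 g1) (fun z g1 g2 => s2 z g2 g1)
    have hne : w1 ≠ w2 := by
      rintro rfl
      exact c1 b2
    have h3 : ({w1, w2} : Finset Q) ⊆ Pk i e := by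
      intro x hx
      rw [mem_insert, mem_singleton] at hx
      rcases hx with rfl | rfl
      · exact a1
      · exact a2
    have h4 := Finset.card_le_card h3
    rwa [Finset.card_pair hne] at h4
  · exact dvd_zero _

end Two

section Part

variable {P : Type u} [Fintype P] [PartialOrder P] [DecidableEq P]
variable {p : P → Prop} [DecidablePred p]

/-- **order two of a part with large bounds at two far elements, for small own energies** -/
theorem part_two' (hgr : GradedBelow P) (hp : ∀ x y, x ≤ y → p x → p y) {i k M c0 : ℕ} {f s : P} (hf : p f) (hs : p s)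
    (h1 : i + k ≤ lev f) (h2 : i + k ≤ lev s)
    (hlow : ∀ y, p y → lev y ≤ M → f ≤ y ∨ s ≤ y) (hM : i + c0 ≤ M) (hk : c0 < k)
    (hb : ∀ y, f ≤ y → s ≤ y → 2 * lev y + c0 + 1 < 2 * (i + k))
    {B : {x // p x} → ℕ} (hB : ∀ x, B x ≤ k) (hBf : B ⟨f, hf⟩ = k) (hBs : B ⟨s, hs⟩ = k) {n : ℕ}
    (hn : n ≤ Efs i k f s + c0) : (1 + X : ℤ[X]) ^ 2 ∣ ZB (P := {x // p x}) i ∅ 0 B n := by
  classical
  refine ZB_dvd_upL (m := Efs i k f s + c0) hB (fun L hL hBL c hc => ?_) hn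
  have hl : ∀ x : {x // p x}, lev x = lev (x : P) := lev_subtype hp
  have hfL : (⟨f, hf⟩ : {x // p x}) ∈ L := hBL _ hBf
  have hsL : (⟨s, hs⟩ : {x // p x}) ∈ L := hBL _ hBs
  have hsum : ∑ x ∈ L, min k (lev x - i) =
      ∑ y ∈ L.map (Function.Embedding.subtype p), min k (lev y - i) := by
    rw [Finset.sum_map]
    refine Finset.sum_congr rfl fun x _ => ?_
    rw [hl]
    rfl
  rw [hsum] at hc
  have hsub : univ.filter (fun y : P => f ≤ y ∨ s ≤ y) ⊆
      L.map (Function.Embedding.subtype p) := by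
    intro y hy
    rw [mem_filter] at hy
    rw [mem_map]
    rcases hy.2 with h3 | h3
    · exact ⟨⟨y, hp _ _ h3 hf⟩, hL ⟨f, hf⟩ _ h3 hfL, rfl⟩
    · exact ⟨⟨y, hp _ _ h3 hs⟩, hL ⟨s, hs⟩ _ h3 hsL, rfl⟩
  have hE : Efs i k f s ≤ ∑ y ∈ L.map (Function.Embedding.subtype p), min k (lev y - i) := by
    unfold Efs
    exact Finset.sum_le_sum_of_subset hsub
  have hall : ∀ x ∈ L, f ≤ (x : P) ∨ s ≤ (x : P) := by
    intro x hx
    by_contra hcon
    have h3 : M < lev (x : P) := by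
      by_contra h4
      exact hcon (hlow x x.2 (not_lt.mp h4))
    have h5 : insert (x : P) (univ.filter (fun y : P => f ≤ y ∨ s ≤ y)) ⊆
        L.map (Function.Embedding.subtype p) := by
      intro y hy
      rw [mem_insert] at hy
      rcases hy with rfl | hy
      · rw [mem_map]; exact ⟨x, hx, rfl⟩
      · exact hsub hy
    have h6 := Finset.sum_le_sum_of_subset (f := fun y : P => min k (lev y - i)) h5
    rw [Finset.sum_insert (by
      rw [mem_filter]
      exact fun h => hcon h.2)] at h6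
    have h7 : Efs i k f s = ∑ y ∈ univ.filter (fun y : P => f ≤ y ∨ s ≤ y), min k (lev y - i) := by
      unfold Efs
      rfl
    have h8 : c0 < min k (lev (x : P) - i) := by
      rw [lt_min_iff]
      omega
    omega
  have hlL : ∀ x : {x // x ∈ L}, lev x = lev ((x : {x // p x}) : P) := by
    intro x
    rw [lev_subtype (p := fun x => x ∈ L) hL x, hl]
  refine dvd_Z_two' (x1 := ⟨⟨f, hf⟩, hfL⟩) (x2 := ⟨⟨s, hs⟩, hsL⟩) ?_ ?_ ?_ ?_ ?_ ?_
  · rw [hlL]; exact h1
  · rw [hlL]; exact h2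
  · intro z
    exact hall z.1 z.2
  · intro z g1 g2
    rw [hlL]
    have := hb (z : {x // p x}) g1 g2
    omega
  · intro z g1 g2
    have hz := hb (z : {x // p x}) g1 g2
    have hlt : f < ((z : {x // p x}) : P) := lt_of_le_of_ne g1 (by
      intro h
      rw [← h] at hz
      omega)
    obtain ⟨y, hy1, hy2, hy3⟩ := hgr _ _ hlt
    refine ⟨⟨⟨y, hp _ _ hy1 hf⟩, hL ⟨f, hf⟩ _ hy1 hfL⟩, hy1, hy2, ?_⟩
    rw [hlL, hlL]
    exact hy3.le
  · intro z g1 g2
    have hz := hb (z : {x // p x}) g1 g2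
    have hlt : s < ((z : {x // p x}) : P) := lt_of_le_of_ne g2 (by
      intro h
      rw [← h] at hz
      omega)
    obtain ⟨y, hy1, hy2, hy3⟩ := hgr _ _ hlt
    refine ⟨⟨⟨y, hp _ _ hy1 hs⟩, hL ⟨s, hs⟩ _ hy1 hsL⟩, hy1, hy2, ?_⟩
    rw [hlL, hlL]
    exact hy3.le

end Part

end F4

end Pool.Agent.GaussPoset
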