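import Pool.Agent.W_448jx_h67.WeF

/-!
The windows `2`, `3` at `j = 10` with the component of the end `(5, 25, 0)`: the far window
theorem with the larger labels (MP_448cb3_co, HJoin10)
-/

namespace Pool.Agent.GaussPoset.Sm

set_option linter.unusedSectionVars false

open Polynomial Finset

universe u

variable {P : Type u} [Fintype P] [PartialOrder P] [DecidableEq P] {r j w K : ℕ}
  {N : Tops P → Finset P} {b : Tops P → ℕ} {θ : Tops P → P → ℕ}

/-- the part of the element below both ends of a stair -/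
theorem We.bigC (W : We r j w K N b θ) (h10 : j = 10) (hw2 : 2 ≤ w) {n0 : ℕ} {g : P → ℕ}
    {x z : P} (hz : z ∈ unnat N \ twA N) (hzx : z ⋖ x) (hzC : CEl j w N θ z)
    (hlt : hA N θ z ≤ g z) (hgz : g z < lev z - w)
    (hCc : n0 ≤ cst w (fun _ => lev z - w) z) (h3' : w = 3 → n0 ≤ 71 ∧
      82 ≤ cst w (fun _ => lev z - w) z) {m : ℕ}
    (hm : m + ∑ x ∈ unnat N \ twA N, g x ≤ n0) :
    (1 + X : ℤ[X]) ^ (b (topOf x)) ∣
      ZB (P := {y : P // y ∉ unnat N \ twA N ∧ topOf y = topOf x}) w ∅ 0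
        (fun y => by classical exact ((unnat N \ twA N).filter (fun z => z ⋖ (y : P))).sup g) m := by
  classical
  have H := W.gt.H
  have HN := W.natSys
  have hj := W.hj
  have hw := W.hw
  have hz' := hzC
  obtain ⟨h1, h2, f, s, h3, h4, h5, h6, h7⟩ := hz'
  obtain ⟨Nc, co, C⟩ := W.fold_cell hw2 h1 h2 h3 h4 h5 h7 (W.not_E6 h1 h2 h3 h4 h5 h6)
  have e1 := W.hA_fold C h1 h2 h3 h4 h5 h6
  obtain ⟨s1, s2, s3⟩ := W.fold_end C h1 h2 h3 h4 h5 h6
  have hlf := C.lev
  have hls : lev s = j := by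
    have := C.nat.chart.lev s s1
    omega
  have htx : topOf x = topOf f := by
    rcases cov_two H h3 h4 h5 hzx with rfl | rfl
    · rfl
    · exact h6.symm
  have hbt : b (topOf x) = 2 := by rw [htx, C.hb]
  rw [hbt]
  set k := g z with hk
  have hk1 : j - w - 1 ≤ k := by omega
  have hk2 : k ≤ j - w := by omega
  have hfull := cst_full_le H h3 h4 h5 (w := w) (k := k) (by omega)
  have hn0 : n0 ≤ F4.Efs w k f s + k + 4 := hCc.trans hfull
  have hsz : k ≤ ∑ x ∈ unnat N \ twA N, g x :=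
    Finset.single_le_sum (f := g) (fun _ _ => Nat.zero_le _) hz
  have hp : ∀ x' y : P, x' ≤ y → (x' ∉ unnat N \ twA N ∧ topOf x' = topOf x) →
      (y ∉ unnat N \ twA N ∧ topOf y = topOf x) :=
    pg_part_up (W.twSys.lower HN.lower) (W.twSys.cp' HN.cp)
  have hfR : f ∉ unnat N \ twA N := not_mem_rA.mpr (Or.inl (W.low (by omega)))
  have hsR : s ∉ unnat N \ twA N := not_mem_rA.mpr (Or.inl (W.low (by omega)))
  have hBf : k ≤ ((unnat N \ twA N).filter (fun z => z ⋖ f)).sup g :=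
    Finset.le_sup (f := g) (mem_filter.mpr ⟨hz, h3⟩)
  have hBs : k ≤ ((unnat N \ twA N).filter (fun z => z ⋖ s)).sup g :=
    Finset.le_sup (f := g) (mem_filter.mpr ⟨hz, h4⟩)
  by_cases hw3 : w = 3
  · have h3'' := h3' hw3
    rw [F4.part_zero hp (i := w) (k := k) (f := f) (s := s) ⟨hfR, htx.symm⟩
      ⟨hsR, h6.symm.trans htx.symm⟩ hBf hBs (by omega)]
    exact dvd_zero _
  by_cases hbigz : ∃ z' ∈ unnat N \ twA N, k < g z'
  · obtain ⟨z', hz', hk'⟩ := hbigz
    have hne' : z' ≠ z := by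
      rintro rfl
      omega
    have h8 : g z + g z' ≤ ∑ x ∈ unnat N \ twA N, g x := by
      rw [← Finset.sum_pair (f := g) hne'.symm]
      refine Finset.sum_le_sum_of_subset ?_
      intro y hy
      rw [mem_insert, mem_singleton] at hy
      rcases hy with rfl | rfl
      · exact hz
      · exact hz'
    rw [F4.part_zero hp (i := w) (k := k) (f := f) (s := s) ⟨hfR, htx.symm⟩
      ⟨hsR, h6.symm.trans htx.symm⟩ hBf hBs (by omega)]
    exact dvd_zero _
  · push Not at hbigz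
    have hBle : ∀ y : P, ((unnat N \ twA N).filter (fun z => z ⋖ y)).sup g ≤ k := by
      intro y
      refine Finset.sup_le fun z' hz' => ?_
      exact hbigz z' (mem_filter.mp hz').1
    refine F4.part_two' H.gradedBelow hp (i := w) (k := k) (M := j / 2 + 1) (c0 := 4) (f := f) (s := s)
      ⟨hfR, htx.symm⟩ ⟨hsR, h6.symm.trans htx.symm⟩ (by omega) (by omega) ?_ (by omega)
      (by omega) ?_ (fun y => hBle y) (le_antisymm (hBle f) hBf) (le_antisymm (hBle s) hBs)
      (by omega)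
    · rintro y ⟨-, hy2⟩ hy3
      have hyN : y ∈ Nc := by
        refine C.nat.strip (mem_lowPart.mpr ⟨?_, by omega⟩)
        rw [← htx, ← hy2]
        exact le_topOf y
      have hly := C.nat.chart.lev y hyN
      have hmy : (co y).1 ≤ (co y).2 := C.nat.chart.mem y hyN
      rcases Nat.lt_or_ge (j / 2) (co y).2 with h9 | h9
      · right
        rw [C.nat.chart.le_iff s s1 y hyN, Prod.le_def, s2, s3]
        constructor
        · omega
        · omega
      · left
        rw [C.nat.chart.le_iff f C.mem y hyN, Prod.le_def, C.co1, C.co2]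
        constructor
        · omega
        · exact h9
    · intro y hy1 hy2
      have hyN := C.nat.chart.up f C.mem y hy1
      have a1 := (C.nat.chart.le_iff f C.mem y hyN).mp hy1
      have a2 := (C.nat.chart.le_iff s s1 y hyN).mp hy2
      rw [Prod.le_def, C.co1, C.co2] at a1
      rw [Prod.le_def, s2, s3] at a2
      have hly := C.nat.chart.lev y hyN
      have := C.ev
      omega

/-- data of a pendant below a special cell -/
theorem We.penS (W : We r j w K N b θ) {z : P} (hz : PenS j w N b θ z) :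
    hA N θ z = j - w ∧ lev z = j + 2 ∧ z ∈ bdR (rA N) := by
  obtain ⟨h1, x, h2, h3, h4, Nc, co, C⟩ := hz
  have H := W.gt.H
  have hj := W.hj
  have g6 := W.bs h2
  have e1 := (H.covBy_iff.mp h3).2
  have e2 := g6.lev
  have e3 := C.lev (by omega)
  have hbd : z ∈ bdR (rA N) := mem_bdR.mpr ⟨h1, x, h2, h3⟩
  obtain ⟨x0, f1, f2, f3⟩ := W.hA_spec hbd
  have e4 := h4 x0 f2
  subst e4
  have := C.th
  exact ⟨by omega, by omega, hbd⟩

/-- the special cell of a pendant -/
theorem We.penS_cone (W : We r j w K N b θ) {x : P}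
    (hs : Spc j w N b θ (GaussPoset.bs N x)) :
    b (topOf x) = 2 ∧ lev x = j + 1 ∧ (∃ co, F4.ConeAt x co (j - 1)) ∧
      ∀ y : P, topOf y = topOf x → lev y ≤ w + 2 → x ≤ y := by
  classical
  obtain ⟨Nc, co, C⟩ := hs
  have hj := W.hj
  have hw := W.hw
  have hw1 := W.hw1
  have hl := C.lev (by omega)
  by_cases ht : x ∈ twA N
  · have hbs : GaussPoset.bs N x = twT N x := by
      unfold GaussPoset.bs
      rw [if_pos ht]
    rw [hbs] at C hl
    have h1 := W.twSys.cp x ht
    have hup := W.twSys.up x ht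
    have T := W.twn ht
    have hne : twT N x ≠ x := T.ne
    have hll : lev (twT N x) = lev x := lev_eq_of_up hup
    refine ⟨by rw [← h1]; exact C.hb, by omega, ⟨_, C.cone.twin hne hup⟩, fun y hy hly => ?_⟩
    exact ((hup y).mp (C.above hw (by omega) (hy.trans h1.symm) hly)).le
  · have hbs : GaussPoset.bs N x = x := by
      unfold GaussPoset.bs
      rw [if_neg ht]
    rw [hbs] at C hl
    exact ⟨C.hb, hl, ⟨co, C.cone⟩, fun y hy hly => (C.above hw (by omega) hy hly).le⟩

/-- the part of a pendant below a special cell -/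
theorem We.bigS (W : We r j w K N b θ) (h7 : 7 ≤ j) {n0 : ℕ} {g : P → ℕ}
    {x z : P} (hz : z ∈ unnat N \ twA N) (hzx : z ⋖ x) (hzS : PenS j w N b θ z)
    (hgz : g z = j - w)
    (hCc : n0 ≤ cst w (fun _ => j - w + 1) z) {m : ℕ}
    (hm : m + ∑ x ∈ unnat N \ twA N, g x ≤ n0) :
    (1 + X : ℤ[X]) ^ (b (topOf x)) ∣
      ZB (P := {y : P // y ∉ unnat N \ twA N ∧ topOf y = topOf x}) w ∅ 0
        (fun y => by classical exact ((unnat N \ twA N).filter (fun z => z ⋖ (y : P))).sup g) m := by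
  classical
  have H := W.gt.H
  have HN := W.natSys
  have hj := W.hj
  have hw := W.hw
  obtain ⟨-, x1, h1, h2, h4, hs⟩ := hzS
  have hxx := h4 x hzx
  subst hxx
  obtain ⟨q1, q2, ⟨co, q3⟩, q4⟩ := W.penS_cone hs
  have e1 := (H.covBy_iff.mp hzx).2
  rw [q1]
  set k := j - w with hk
  have hn0 : n0 ≤ F4.Efs w k x x + k + 2 := by
    rw [← cst_pen hzx h4 (by omega) (by omega)]
    exact hCc
  have hsz : k ≤ ∑ x ∈ unnat N \ twA N, g x := by
    rw [← hgz]
    exact Finset.single_le_sum (f := g) (fun _ _ => Nat.zero_le _) hz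
  have hp : ∀ x' y : P, x' ≤ y → (x' ∉ unnat N \ twA N ∧ topOf x' = topOf x) →
      (y ∉ unnat N \ twA N ∧ topOf y = topOf x) :=
    pg_part_up (W.twSys.lower HN.lower) (W.twSys.cp' HN.cp)
  have hBx : k ≤ ((unnat N \ twA N).filter (fun z => z ⋖ x)).sup g := by
    rw [← hgz]
    exact Finset.le_sup (f := g) (mem_filter.mpr ⟨hz, hzx⟩)
  by_cases hbigz : ∃ z' ∈ unnat N \ twA N, k < g z'
  · obtain ⟨z', hz', hk'⟩ := hbigz
    have hne' : z' ≠ z := by
      rintro rfl
      omega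
    have h8 : g z + g z' ≤ ∑ x ∈ unnat N \ twA N, g x := by
      rw [← Finset.sum_pair (f := g) hne'.symm]
      refine Finset.sum_le_sum_of_subset ?_
      intro y hy
      rw [mem_insert, mem_singleton] at hy
      rcases hy with rfl | rfl
      · exact hz
      · exact hz'
    rw [F4.part_zero hp (i := w) (k := k) (f := x) (s := x) ⟨h1, rfl⟩ ⟨h1, rfl⟩ hBx hBx (by omega)]
    exact dvd_zero _
  · push Not at hbigz
    have hBle : ∀ y : P, ((unnat N \ twA N).filter (fun z => z ⋖ y)).sup g ≤ k := by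
      intro y
      refine Finset.sup_le fun z' hz' => ?_
      exact hbigz z' (mem_filter.mp hz').1
    exact F4.part_cone hp (i := w) (h := k) (x := x) ⟨h1, rfl⟩ q3 (by omega) (by omega) (by omega)
      (fun y hy hly => q4 y hy.2 hly) (fun y => hBle y) (le_antisymm (hBle x) hBx) (by omega)

/-- **The far window theorem with the larger labels.** -/
theorem We.farS (W : We r j w K N b θ) (h7 : 7 ≤ j) (h10 : j = 10) (hw2 : 2 ≤ w) (n0 : ℕ)
    (h3' : ∀ z, CEl j w N θ z → w = 3 → n0 ≤ 71 ∧ 82 ≤ cst w (fun _ => lev z - w) z)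
    (hcost : ∀ x ∈ twA N, n0 ≤ tcS j w N b θ x)
    (hbd : ∀ z ∈ bdR (rA N), n0 ≤ cst w (hS j w N b θ) z) :
    FarV P w (rA N) (lv P w).card (hS j w N b θ)
      (∑ x ∈ (twA N).filter (fun x => tcS j w N b θ x = n0), TmS j w N b θ x) n0 := by
  classical
  have H := W.gt.H
  have HN := W.natSys
  have hj := W.hj
  have hw := W.hw
  have F := W.farS0 h7 n0 hcost
  choose B hB using W.nt
  have hCl : ∀ z, CEl j w N θ z → hA N θ z = j - w - 1 ∧ lev z = j + 1 ∧ j % 2 = 0 := by
    intro z hz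
    obtain ⟨h1, h2, f, s, h3, h4, h5, h6, h7⟩ := hz
    obtain ⟨Nc, co, C⟩ := W.fold_cell hw2 h1 h2 h3 h4 h5 h7 (W.not_E6 h1 h2 h3 h4 h5 h6)
    exact ⟨W.hA_fold C h1 h2 h3 h4 h5 h6, h2, C.ev⟩
  have hspec : ∀ z, (PenS j w N b θ z ∧ hA N θ z = j - w ∧ lev z = j + 2 ∧
      hS j w N b θ z = j - w + 1) ∨
      (¬ PenS j w N b θ z ∧ (CEl j w N θ z ∧ j % 2 = 0) ∧ hA N θ z = j - w - 1 ∧
        lev z = j + 1 ∧ hS j w N b θ z = lev z - w) ∨ hS j w N b θ z = hA N θ z := by
    intro z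
    by_cases h1 : PenS j w N b θ z
    · obtain ⟨a1, a2, a3⟩ := W.penS h1
      exact Or.inl ⟨h1, a1, a2, by rw [hS_of h1, a1]⟩
    · right
      by_cases h2 : CEl j w N θ z
      · obtain ⟨a1, a2, a3⟩ := hCl z h2
        exact Or.inl ⟨h1, ⟨h2, a3⟩, a1, a2, by rw [hS_not h1, hC_of h2]⟩
      · exact Or.inr (by rw [hS_not h1, hC_not h2])
  have F' : FarV P w (unnat N \ twA N) (∑ t, b t)
      (hcan (unnat N \ twA N) (thX (twA N) (twT N) (fun x => θ (topOf x) x)))
      (∑ x ∈ (twA N).filter (fun x => tcS j w N b θ x = n0), TmS j w N b θ x) n0 := by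
    rw [W.sum_b]
    exact F
  have key := farV_big (B := B) hB W.twSys n0 (j - w - 1) F' (fun x hx => W.twn hx) ?_
    (hS j w N b θ) ?_ ?_ ?_ ?_
  · rw [W.sum_b] at key
    exact key
  · intro x hx
    have h1 := hcost x hx
    show n0 < tcst w (thA N θ) (twT N x, x) + (j - w - 1)
    by_cases hs : Spc j w N b θ (twT N x)
    · rw [W.tcS_spc hx hs] at h1
      omega
    · unfold tcS at h1
      rw [if_neg hs] at h1
      omega
  · intro z _
    show hA N θ z ≤ hS j w N b θ z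
    rcases hspec z with ⟨-, h1, -, h2⟩ | ⟨-, -, h1, h3, h2⟩ | h1 <;> omega
  · intro z _ hlt
    have hlt' : hA N θ z < hS j w N b θ z := hlt
    show j - w - 1 ≤ hA N θ z
    rcases hspec z with ⟨-, h1, -, h2⟩ | ⟨-, -, h1, h3, h2⟩ | h1 <;> omega
  · intro z hz
    have h0 : hA N θ z ≤ lev z - w := F.le_lev z hz
    rcases hspec z with ⟨-, h1, h3, h2⟩ | ⟨-, -, h1, h3, h2⟩ | h1 <;> omega
  · intro g g0 hg x z hx hz hzx hlt m hm
    have hzb : z ∈ bdR (unnat N \ twA N) := mem_bdR.mpr ⟨hz, x, hx, hzx⟩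
    have hlt' : thA N θ x < g z := hlt
    have hle : hA N θ z ≤ thA N θ x + 1 := hcan_le hx hzx
    have hgz := hg z hzb
    have hcz := hbd z hzb
    rw [cst_const w (hS j w N b θ) z] at hcz
    rcases hspec z with ⟨h0, h1, h3, h2⟩ | ⟨-, h0, h1, h3, h2⟩ | h1
    · rw [h2] at hcz hgz
      exact W.bigS (by omega) hz hzx h0 (by omega) hcz hm
    · rw [h2] at hcz hgz
      exact W.bigC h10 hw2 hz hzx h0.1 (by omega) hgz hcz (h3' z h0.1) hm
    · omega

end Pool.Agent.GaussPoset.Sm
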