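import Pool.Agent.W_448jx_h67.WeI

/-!
The windows `2`, `3` at `j = 10` with the component of the end `(5, 25, 0)`: elements of level
`j + 1` below a deep cell (MP_448cb3_co, HJoin10)
-/

namespace Pool.Agent.GaussPoset.Sm

set_option linter.unusedSectionVars false

open Polynomial Finset W4

universe u

variable {P : Type u} [Fintype P] [PartialOrder P] [DecidableEq P] {r j w K0 K : ℕ}
  {N : Tops P → Finset P} {b : Tops P → ℕ} {θ : Tops P → P → ℕ} {XE XO : ℕ → Prop}

/-- elements of level `j + 1` below a deep cell, with fold joins; the cap of `W` is not used -/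
theorem We.deep_jS (W : We r j w K0 N b θ) (hw2 : 2 ≤ w) (hj8 : 8 ≤ j)
    (hj2 : j % 2 = 0) {z : P} (hz : z ∈ bdR (rA N)) (hlz : lev z = j + 1)
    (hnE : ∀ y, z ⋖ y → ¬ E6T j w (topOf y) (b (topOf y)) (N (topOf y)) (θ (topOf y)))
    {x : P} (hzx : z ⋖ x) (hD : Dk j w K0 N θ x) : K < cst w (hA N θ) z ∨
      (j % 2 = 0 ∧ cst w (hA N θ) z = foC w j ∧ nst w (hA N θ) z = foN w j ∧
        nab w z = nab (w + hA N θ z) z + 1 ∧ (∀ y, z ⋖ y → y = x) ∧ Fold j x) ∨
      ((∃ x', FJn j z x x') ∧ hA N θ z = j - w - 1) ∨ CEl j w N θ z := by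
  classical
  have H := W.gt.H
  have HN := W.natSys
  have hj := W.hj
  have hw := W.hw
  have hzR := (mem_bdR.mp hz).1
  have hzu := (mem_rA.mp hzR).1
  have e1 := (H.covBy_iff.mp hzx).2
  have hlx : lev x = j := by omega
  have hx : x ∉ unnat N := W.low (by omega)
  have hbs : GaussPoset.bs N x = x := by
    unfold GaussPoset.bs
    rw [if_neg (W.not_tw hx)]
  have hle := W.hA_le (not_mem_rA.mpr (Or.inl hx)) hzx
  rw [hbs] at hle
  have hth := hD.th
  have h1w := hD.one_le
  have hxt : x ∈ N (topOf x) := HN.mem_iff.mpr ⟨hx, rfl⟩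
  have hxle : x ≤ (topOf x : P) := le_topOf x
  have hzN := mem_unnat.mp hzu (topOf x)
  have hnat : ∀ y ∈ N (topOf x), y ∉ unnat N := fun y hy => (HN.mem_iff.mp hy).1
  have hzt : ∀ y, y ∉ unnat N → ¬ ∀ v, y < v ↔ z < v := fun y hy h =>
    (mem_rA.mp hzR).2 (mem_twA.mpr ⟨hzu, y, hy, h⟩)
  -- two covers have one cover each
  have hnear : (Win.uc x).card = 2 → ∀ y, z ⋖ y → y = x := by
    intro h2 y hy
    by_contra hne
    have := (W.near hzR hlz hzx hy (Ne.symm hne)).1
    omega
  -- the label of an element with one cover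
  have hlab : (∀ y, z ⋖ y → y = x) → hA N θ z = θ (topOf x) x + 1 := by
    intro ho
    obtain ⟨x0, g1, g2, g3⟩ := W.hA_spec hz
    rw [ho x0 g2, hbs] at g3
    exact g3
  have hthx : θ (topOf x) x = θ (topOf x) x := rfl
  have hth0 := hD.th
  have hnx := hnE x hzx
  generalize htt : topOf x = t at hxt hxle hzN hnat hle hth hlab hnx
  rcases (W.typ t).resolve_right hnx with ⟨g1, g2, g3, g5⟩ | ⟨Nc, co, h0, g1, g2, g4⟩ |
    ⟨Nc, co, h0, g1, g2, g3, g4, g5'⟩
  · exfalso
    rw [g2] at hth
    simp only at hth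
    omega
  · exfalso
    rw [g1] at hxt
    rw [g2] at hth
    have hJ : ¬ (x ∈ junk (fun _ => True) Nc co ∨ x ∈ junk (fun _ => True) Nc (swp co)) := by
      intro h
      unfold thR at hth
      rw [if_pos h] at hth
      omega
    have hxN : x ∈ Nc := by
      rw [mem_natR] at hxt
      rcases hxt with h | h | h
      · exact h
      · exact absurd (Or.inl h) hJ
      · exact absurd (Or.inr h) hJ
    have h2 := rect_th7 h0 hw hxN hJ (by omega)
    have h3 := chart_inner_uc h0.chart H hxN (by omega) (by omega)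
    exact g4 x z hxle hlx h3 hzx (hnear h3)
  · rw [g1] at hxt hzN
    rw [g2] at hth
    have hJ : x ∉ junk (fun c => c.1 ≤ c.2) Nc co := by
      intro h
      unfold thS at hth
      rw [if_pos h] at hth
      omega
    have hxN : x ∈ Nc := by
      rw [mem_natS] at hxt
      exact hxt.resolve_right hJ
    have hl := h0.chart.lev x hxN
    have hm : (co x).1 ≤ (co x).2 := h0.chart.mem x hxN
    have h2 := stair_th7 h0 hw g4 hxN hJ (by omega)
    have hzN1 : z ∉ Nc := fun h => hzN (mem_natS.mpr (Or.inl h))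
    have h6 := cst_ge_cover (i := w) (h := hA N θ) H.gradedBelow hzx
    rcases Nat.lt_or_ge (co x).1 (co x).2 with hlt | hge
    · -- a double
      have h3 := stair_inner_uc h0.chart H hxN (by omega) hlt
      have ho := hnear h3
      rcases g5' x z hxle hlx h3 hzx ho with h4 | h4
      · exfalso
        obtain ⟨y, hy, h⟩ := diag_twin h0.chart h0.max H hzN1 hxN hzx ho h4
        exact hzt y (hnat y (by rw [g1]; exact mem_natS.mpr (Or.inl hy))) h
      · exfalso
        omega
    · -- the fold end
      have hcc : (co x).2 = (co x).1 := by omega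
      -- the label
      have hlb : hA N θ z + 1 = lev x - w := by
        obtain ⟨x0, f1, f2, f3⟩ := W.hA_spec hz
        rw [g2] at hle
        by_cases hne : x0 = x
        · rw [hne, hbs, htt, g2] at f3
          omega
        · have f4 := W.near hzR hlz hzx f2 (Ne.symm hne)
          have f5 := (H.covBy_iff.mp f2).2
          have hx0 : x0 ∉ unnat N := W.low (by omega)
          have hbs0 : GaussPoset.bs N x0 = x0 := by
            unfold GaussPoset.bs
            rw [if_neg (W.not_tw hx0)]
          rw [hbs0] at f3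
          have f6 := W.single_th hx0 (by omega) f4.2 (hnE x0 f2)
          omega
      have h8 : min (hA N θ z) (lev z - w) = hA N θ z := Nat.min_eq_left (by omega)
      rw [h8] at h6
      have hA2 : (co x).1 = j / 2 := by omega
      have hlb' : hA N θ z = j - w - 1 := by omega
      have h7 := cst_stair (w := w) (L := j) (h := j - w - 1) h0.chart hxN hlx (by omega)
      rw [hA2, show j - j / 2 = j / 2 by omega] at h7
      have hnk : ∀ k, k ≤ j → nab k x + (k - j / 2) = min (k / 2) (j / 2) + 1 := by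
        intro k hk
        have := stair_nab h0.chart hxN (k := k) (by omega)
        rw [hA2, show (co x).2 = j / 2 by omega] at this
        exact this
      have hFo : Fold j x := ⟨hlx, hj2, fun k hk => by
        have := hnk k hk
        omega⟩
      by_cases ho : ∀ y, z ⋖ y → y = x
      · -- a pendant
        right; left
        have h9 := cst_only (i := w) (h := hA N θ) H.gradedBelow hzx ho
        rw [h8, hlb', h7] at h9
        have hns : nst w (hA N θ) z = foN w j := by
          rw [nst_eq, hlb']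
          unfold foN
          refine Finset.sum_congr rfl fun n hn => ?_
          rw [mem_range] at hn
          rw [nab_only ho hzx (by omega)]
          have := hnk (w + n) (by omega)
          omega
        refine ⟨hj2, by unfold foC; exact h9, hns, ?_, ho, hFo⟩
        rw [hlb', nab_only ho hzx (by omega), nab_only ho hzx (by omega)]
        have a1 := hnk w (by omega)
        have a2 := hnk (w + (j - w - 1)) (by omega)
        omega
      · -- a second cover
        right; right
        push Not at ho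
        obtain ⟨x', hzx', hne'⟩ := ho
        have hne : x ≠ x' := Ne.symm hne'
        have e2 := (H.covBy_iff.mp hzx').2
        have hx' : x' ∉ unnat N := W.low (by omega)
        by_cases hh : topOf x' = t
        · right
          exact ⟨hzR, hlz, x, x', hzx, hzx', hne, by rw [htt, hh], by omega⟩
        · left
          refine ⟨⟨x', Cg.mk' hzx hzx' (mem_onlyB.mpr fun s hs hxs => ?_)
            (mem_onlyB.mpr fun s hs hxs => ?_) ?_, hlz, hFo⟩, hlb'⟩
          · exact HN.top_eq (HN.mem_iff.mpr ⟨hx, rfl⟩) hs hxs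
          · exact HN.top_eq (HN.mem_iff.mpr ⟨hx', rfl⟩) hs hxs
          · rw [htt]
            exact fun h => hh h.symm

/-- the levels above an element below both ends of a stair -/
theorem We.cel_nab (W : We r j w K0 N b θ) (hw2 : 2 ≤ w) {z : P} (hz : CEl j w N θ z) :
    lev z = j + 1 ∧ j % 2 = 0 ∧ ∀ k, k ≤ j →
      nab k z = (min (k / 2) (j / 2) + 1 - (k - j / 2)) + (if j / 2 < k then 1 else 0) := by
  classical
  obtain ⟨h1, h2, f, s, h3, h4, h5, h6, h7⟩ := hz
  have H := W.gt.H
  obtain ⟨Nc, co, C⟩ := W.fold_cell hw2 h1 h2 h3 h4 h5 h7 (W.not_E6 h1 h2 h3 h4 h5 h6)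
  obtain ⟨s1, s2, s3⟩ := W.fold_end C h1 h2 h3 h4 h5 h6
  have hev := C.ev
  have hlf := C.lev
  have hls : lev s = j := by
    have := C.nat.chart.lev s s1
    omega
  refine ⟨h2, hev, fun k hk => ?_⟩
  have hnf := C.nab hk
  have hns : nab k s + (k - (co s).2) = min (k / 2) (co s).1 + 1 :=
    stair_nab C.nat.chart s1 (k := k) (by omega)
  rw [s2, s3] at hns
  have hns1 : nab k s = 1 := by omega
  have hset : (lv P k).filter (fun y => z ≤ y) =
      (lv P k).filter (fun y => f ≤ y) ∪ (lv P k).filter (fun y => s ≤ y) := by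
    ext y
    rw [mem_union, mem_filter, mem_filter, mem_filter, mem_lv]
    constructor
    · rintro ⟨hy, hzy⟩
      have hlt : z < y := lt_of_le_of_ne hzy (by rintro rfl; omega)
      obtain ⟨x, hx, hxy⟩ := Hul.exists_cov hlt
      rcases cov_two H h3 h4 h5 hx with rfl | rfl
      · exact Or.inl ⟨hy, hxy⟩
      · exact Or.inr ⟨hy, hxy⟩
    · rintro (⟨hy, h⟩ | ⟨hy, h⟩)
      · exact ⟨hy, h3.1.le.trans h⟩
      · exact ⟨hy, h4.1.le.trans h⟩
  have hcard : nab k z = ((lv P k).filter (fun y => f ≤ y) ∪
      (lv P k).filter (fun y => s ≤ y)).card := by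
    rw [← hset]
    unfold nab
    congr
  -- the element above `s`
  have hmem : ∀ y, y ∈ (lv P k).filter (fun y => s ≤ y) → (f ≤ y ↔ k ≤ j / 2) := by
    intro y hy
    rw [mem_filter, mem_lv] at hy
    have hyN := C.nat.chart.up s s1 y hy.2
    have a1 := (C.nat.chart.le_iff s s1 y hyN).mp hy.2
    rw [Prod.le_def, s2, s3] at a1
    have a2 := C.nat.chart.lev y hyN
    rw [C.nat.chart.le_iff f C.mem y hyN, Prod.le_def, C.co1, C.co2]
    constructor
    · rintro ⟨-, h⟩
      omega
    · intro h
      constructor <;> omega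
  have hcs : ((lv P k).filter (fun y => s ≤ y)).card = 1 := by
    rw [← hns1]
    unfold nab
    congr
  have hcf : ((lv P k).filter (fun y => f ≤ y)).card = nab k f := by
    unfold nab
    congr
  obtain ⟨y0, hy0⟩ := Finset.card_eq_one.mp hcs
  have hy0m : y0 ∈ (lv P k).filter (fun y => s ≤ y) := by rw [hy0]; exact mem_singleton_self _
  have h8 := hmem y0 hy0m
  rw [hcard, hy0]
  by_cases hk2 : k ≤ j / 2
  · have h9 : (lv P k).filter (fun y => f ≤ y) ∪ {y0} = (lv P k).filter (fun y => f ≤ y) := by
      rw [union_eq_left, singleton_subset_iff, mem_filter]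
      rw [mem_filter] at hy0m
      exact ⟨hy0m.1, h8.mpr hk2⟩
    rw [h9, hcf, if_neg (by omega)]
    omega
  · have h9 : y0 ∉ (lv P k).filter (fun y => f ≤ y) := by
      rw [mem_filter]
      exact fun h => hk2 (h8.mp h.2)
    rw [Finset.card_union_of_disjoint (by rw [disjoint_singleton_right]; exact h9), hcf,
      card_singleton, if_pos (by omega)]
    omega

/-- the outcome of an element below both ends of a stair, with the full label -/
theorem We.cel_out (W : We r j w K0 N b θ) (hw2 : 2 ≤ w) (hj8 : 8 ≤ j) {z : P}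
    (hz : CEl j w N θ z) {g : P → ℕ} (hg : g z = lev z - w)
    (hO : Okv K XE XO (ccN w j) (ccC w j)) : OutG j w K XE XO g z (cst w g z) := by
  obtain ⟨h1, h2, h3⟩ := W.cel_nab hw2 hz
  have hw := W.hw
  have e0 : g z = j + 1 - w := by omega
  have e1 : cst w g z = ccC w j := by
    rw [cst_const, e0, cst_shift (i := w) (h := fun _ => j + 1 - w) (a := j + 1 - w) (by omega),
      Finset.sum_range_succ, show w + (j + 1 - w) = lev z by omega, nab_self, mul_one,
      Nat.min_self]
    unfold ccC
    rw [show j + 1 - w = j - w + 1 by omega]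
    congr 1
    refine Finset.sum_congr rfl fun n hn => ?_
    rw [mem_range] at hn
    rw [Nat.min_eq_right (by omega), h3 (w + n) (by omega)]
    rfl
  have e2 : nst w g z = ccN w j := by
    rw [nst_eq, e0, show j + 1 - w = j - w + 1 by omega]
    unfold ccN
    refine Finset.sum_congr rfl fun n hn => ?_
    rw [mem_range] at hn
    rw [h3 (w + n) (by omega)]
    rfl
  rw [e1]
  refine hO.out e2 ?_
  rw [e0, show w + (j + 1 - w) = lev z by omega, nab_self, h3 w (by omega), if_neg (by omega)]
  omega

/-- elements of level `j + 1` below the component of `(5, 25, 0)` -/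
theorem We.deep_E (W : We r j w K0 N b θ) {z : P} (hz : z ∈ bdR (rA N)) (hlz : lev z = j + 1)
    {x : P} (hzx : z ⋖ x)
    (hE : E6T j w (topOf x) (b (topOf x)) (N (topOf x)) (θ (topOf x))) :
    hA N θ z = 5 ∧ ((∀ y, z ⋖ y → y = x) ∨ ∃ y, Cg z x y) := by
  have H := W.gt.H
  have HN := W.natSys
  have hj := W.hj
  have hw := W.hw
  have e1 := (H.covBy_iff.mp hzx).2
  have hlx : lev x = j := by omega
  have hx : x ∉ unnat N := W.low (by omega)
  have hbs0 : ∀ y : P, lev y ≤ j → GaussPoset.bs N y = y := by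
    intro y hy
    unfold GaussPoset.bs
    rw [if_neg (W.not_tw (W.low hy))]
  have hsp : ∀ y, y ∉ unnat N → lev y = j →
      E6T j w (topOf y) (b (topOf y)) (N (topOf y)) (θ (topOf y)) →
      θ (topOf y) y = 4 ∧ j = 10 ∧ w = 3 := by
    intro y hy hly hEy
    obtain ⟨-, k2, k3, k4, -⟩ := hEy.spec (HN.mem_iff.mpr ⟨hy, rfl⟩) hly.ge
    exact ⟨k2, k3, k4⟩
  obtain ⟨q1, q2, q3⟩ := hsp x hx hlx hE
  have hle := W.hA_le (not_mem_rA.mpr (Or.inl hx)) hzx
  rw [hbs0 x hlx.le] at hle
  have hlab : hA N θ z = 5 := by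
    obtain ⟨x0, f1, f2, f3⟩ := W.hA_spec hz
    have e2 := (H.covBy_iff.mp f2).2
    rw [hbs0 x0 (by omega)] at f3
    by_cases hne : x0 = x
    · rw [hne] at f3
      omega
    · have hx0 : x0 ∉ unnat N := W.low (by omega)
      by_cases hE0 : E6T j w (topOf x0) (b (topOf x0)) (N (topOf x0)) (θ (topOf x0))
      · have := (hsp x0 hx0 (by omega) hE0).1
        omega
      · have f4 := W.near (mem_bdR.mp hz).1 hlz hzx f2 (Ne.symm hne)
        have f6 := W.single_th hx0 (by omega) f4.2 hE0
        omega
  refine ⟨hlab, ?_⟩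
  by_cases ho : ∀ y, z ⋖ y → y = x
  · exact Or.inl ho
  · right
    push Not at ho
    obtain ⟨y, hzy, hne⟩ := ho
    have e2 := (H.covBy_iff.mp hzy).2
    have hy : y ∉ unnat N := W.low (by omega)
    have htt : topOf y ≠ topOf x := by
      intro htt
      refine hne (hE.one y ?_ x (le_topOf x) (by omega) hlx)
      rw [← htt]
      exact le_topOf y
    refine ⟨y, Cg.mk' hzx hzy (mem_onlyB.mpr fun s hs hxs => ?_)
      (mem_onlyB.mpr fun s hs hxs => ?_) (Ne.symm htt)⟩
    · exact HN.top_eq (HN.mem_iff.mpr ⟨hx, rfl⟩) hs hxs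
    · exact HN.top_eq (HN.mem_iff.mpr ⟨hy, rfl⟩) hs hxs

end Pool.Agent.GaussPoset.Sm
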