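import Pool.Agent.W_448jx_h67.WeJ
import Pool.Agent.W_448s7s_h5.SpC

/-!
Explicit costs and lines of the joins of level `11`, `j = 10` (MP_448cb3_co, HJoin10).
-/

namespace Pool.Agent.GaussPoset.Sm

set_option linter.unusedSectionVars false

open Finset W4

universe u

variable {P : Type u} [Fintype P] [PartialOrder P] [DecidableEq P] {r : ℕ}

section Num

variable {z : P}

/-- the full cost at the window `2`, level `11` -/
lemma ful2_11 (hl : lev z = 11) : ful 2 z = nab 3 z + 2 * nab 4 z + 3 * nab 5 z + 4 * nab 6 z +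
    5 * nab 7 z + 6 * nab 8 z + 7 * nab 9 z + 8 * nab 10 z + 9 := by
  have h1 : nab 11 z = 1 := by rw [← hl]; exact nab_self
  unfold ful
  rw [hl]
  simp only [Finset.sum_range_succ, Finset.sum_range_zero, h1]
  omega

/-- the full cost at the window `3`, level `11` -/
lemma ful3_11 (hl : lev z = 11) : ful 3 z = nab 4 z + 2 * nab 5 z + 3 * nab 6 z +
    4 * nab 7 z + 5 * nab 8 z + 6 * nab 9 z + 7 * nab 10 z + 8 := by
  have h1 : nab 11 z = 1 := by rw [← hl]; exact nab_self
  unfold ful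
  rw [hl]
  simp only [Finset.sum_range_succ, Finset.sum_range_zero, h1]
  omega

/-- the cost with the label `7` at the window `2`, level `11` -/
lemma cst2_11 (hl : lev z = 11) : cst 2 (fun _ => 7) z = nab 3 z + 2 * nab 4 z + 3 * nab 5 z +
    4 * nab 6 z + 5 * nab 7 z + 6 * nab 8 z + 7 * nab 9 z + 7 * nab 10 z + 7 := by
  have h1 : nab 11 z = 1 := by rw [← hl]; exact nab_self
  rw [cst_eq, hl]
  simp only [Finset.sum_range_succ, Finset.sum_range_zero, h1]
  norm_num

/-- the cost with the label `6` at the window `3`, level `11` -/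
lemma cst3_11 (hl : lev z = 11) : cst 3 (fun _ => 6) z = nab 4 z + 2 * nab 5 z + 3 * nab 6 z +
    4 * nab 7 z + 5 * nab 8 z + 6 * nab 9 z + 6 * nab 10 z + 6 := by
  have h1 : nab 11 z = 1 := by rw [← hl]; exact nab_self
  rw [cst_eq, hl]
  simp only [Finset.sum_range_succ, Finset.sum_range_zero, h1]
  norm_num

/-- the cost with the label `5` at the window `3`, level `11` -/
lemma cst3e_11 (hl : lev z = 11) : cst 3 (fun _ => 5) z = nab 4 z + 2 * nab 5 z + 3 * nab 6 z +
    4 * nab 7 z + 5 * nab 8 z + 5 * nab 9 z + 5 * nab 10 z + 5 := by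
  have h1 : nab 11 z = 1 := by rw [← hl]; exact nab_self
  rw [cst_eq, hl]
  simp only [Finset.sum_range_succ, Finset.sum_range_zero, h1]
  norm_num

lemma nst2_11 {h : P → ℕ} (hh : h z = 7) : nst 2 h z = nab 2 z + nab 3 z + nab 4 z + nab 5 z +
    nab 6 z + nab 7 z + nab 8 z := by
  rw [nst_eq, hh]
  simp only [Finset.sum_range_succ, Finset.sum_range_zero]
  norm_num

lemma nst3_11 {h : P → ℕ} (hh : h z = 6) : nst 3 h z = nab 3 z + nab 4 z + nab 5 z +
    nab 6 z + nab 7 z + nab 8 z := by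
  rw [nst_eq, hh]
  simp only [Finset.sum_range_succ, Finset.sum_range_zero]
  norm_num

lemma nst3e_11 {h : P → ℕ} (hh : h z = 5) : nst 3 h z = nab 3 z + nab 4 z + nab 5 z +
    nab 6 z + nab 7 z := by
  rw [nst_eq, hh]
  simp only [Finset.sum_range_succ, Finset.sum_range_zero]
  norm_num

/-- the line of an element of level `11` -/
lemma line_11 (hl : lev z = 11) : kapZ 10 z = (nab 0 z : ℤ) + nab 1 z + nab 2 z + nab 3 z +
      nab 4 z + nab 5 z + nab 6 z + nab 7 z + nab 8 z + nab 9 z + nab 10 z - 22 ∧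
    gZ 10 z = 110 - (10 * (nab 0 z : ℤ) + 9 * nab 1 z + 8 * nab 2 z + 7 * nab 3 z +
      6 * nab 4 z + 5 * nab 5 z + 4 * nab 6 z + 3 * nab 7 z + 2 * nab 8 z + nab 9 z) := by
  unfold kapZ gZ mZ cZ
  rw [hl]
  simp only [Finset.sum_range_succ, Finset.sum_range_zero]
  constructor
  · push_cast
    ring
  · push_cast
    ring

end Num

/-- the data of an end, explicitly -/
lemma Dt.expl {x : P} {s : ℕ × ℕ × ℕ} (h : Dt 10 x s) :
    nab 0 x + nab 1 x + nab 2 x + nab 3 x + nab 4 x + nab 5 x + nab 6 x + nab 7 x + nab 8 x +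
      nab 9 x = s.1 + 10 ∧
    10 * nab 0 x + 9 * nab 1 x + 8 * nab 2 x + 7 * nab 3 x + 6 * nab 4 x + 5 * nab 5 x +
      4 * nab 6 x + 3 * nab 7 x + 2 * nab 8 x + nab 9 x = s.2.1 + 55 ∧
    nab 8 x = s.2.2 + 1 := by
  obtain ⟨h1, h2, h3⟩ := h
  unfold mX at h1
  unfold cX at h2
  simp only [Finset.sum_range_succ, Finset.sum_range_zero] at h1 h2
  push_cast at h1 h2
  refine ⟨?_, ?_, h3⟩
  · have : ((nab 0 x + nab 1 x + nab 2 x + nab 3 x + nab 4 x + nab 5 x + nab 6 x + nab 7 x +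
        nab 8 x + nab 9 x : ℕ) : ℤ) = ((s.1 + 10 : ℕ) : ℤ) := by
      push_cast
      linarith
    exact_mod_cast this
  · have : ((10 * nab 0 x + 9 * nab 1 x + 8 * nab 2 x + 7 * nab 3 x + 6 * nab 4 x + 5 * nab 5 x +
        4 * nab 6 x + 3 * nab 7 x + 2 * nab 8 x + nab 9 x : ℕ) : ℤ) =
        ((s.2.1 + 55 : ℕ) : ℤ) := by
      push_cast
      linarith
    exact_mod_cast this

/-- a side: at least one element on each level, one on level `9` -/
lemma side_ge (H : Gr P r) {x : P} (hl : lev x = 10) (h1 : (Win.uc x).card = 1) :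
    (∀ k, k ≤ 10 → 1 ≤ nab k x) ∧ nab 9 x = 1 ∧ nab 10 x = 1 :=
  ⟨fun k hk => one_le_nab (by omega), by rw [nab_uc H (k := 9) (by omega), h1],
    by rw [← hl]; exact nab_self⟩

/-- the levels above a join of level `11` -/
lemma Cg.sums (H : Gr P r) {z x x' : P} (h : Cg z x x') (hl : lev z = 11) :
    ∀ k, k ≤ 10 → nab k z = nab k x + nab k x' := fun k hk => h.sum H (by omega)

end Pool.Agent.GaussPoset.Sm
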