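import Pool.Agent.W_448jx_h67.WeL

/-!
The windows `2`, `3` at `j = 10` with the component of the end `(5, 25, 0)`: elements of level
`11` below a deep cell, the outcomes (MP_448cb3_co, HJoin10)
-/

namespace Pool.Agent.GaussPoset.Sm

set_option linter.unusedSectionVars false

open Polynomial Finset W4 Cp

universe u

variable {P : Type u} [Fintype P] [PartialOrder P] [DecidableEq P] {r w K0 K : ℕ}
  {N : Tops P → Finset P} {b : Tops P → ℕ} {θ : Tops P → P → ℕ} {XE XO : ℕ → Prop}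

/-- the numbers of elements above the end `(5, 25, 0)` -/
def E6P (x : P) : Prop :=
  lev x = 10 ∧ ∀ k, k ≤ 10 → nab k x = if 3 ≤ k ∧ k ≤ 7 then 2 else 1

/-- an admissible element with the label `h` -/
def OkL (w K : ℕ) (XE XO : ℕ → Prop) (h : ℕ) (z : P) : Prop :=
  K < cst w (fun _ => h) z ∨ (nab w z = nab (w + h) z + 1 ∧
    Okv K XE XO (nst w (fun _ => h) z) (cst w (fun _ => h) z))

/-- the inputs at the level `11` -/
structure InE (P : Type u) [Fintype P] [PartialOrder P] [DecidableEq P] (w K : ℕ)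
    (XE XO : ℕ → Prop) : Prop where
  hcc : NoCC P 10 ∨ Okv K XE XO (ccN w 10) (ccC w 10)
  hfj : ∀ z x x' : P, FJn 10 z x x' → OkL w K XE XO (10 - w - 1) z
  hfp : (∀ z x : P, Fold 10 x → lev z = 11 → z ⋖ x → (∀ y, z ⋖ y → y = x) → False) ∨
    Okv K XE XO (foN w 10) (foC w 10)
  hej : w = 3 → ∀ z x x' : P, Cg z x x' → lev z = 11 → E6P x → OkL w K XE XO 5 z
  hep : w = 3 → (∀ z x : P, E6P x → lev z = 11 → z ⋖ x → (∀ y, z ⋖ y → y = x) → False) ∨
    Okv K XE XO 10 40

lemma OkL.out {h v : ℕ} {z : P} (H : OkL w K XE XO h z) {g : P → ℕ} (hg : g z = h)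
    (hc : cst w g z = v) : OutG 10 w K XE XO g z v := by
  have e1 : cst w (fun _ => h) z = v := by rw [← hc, cst_const w g z, hg]
  have e2 : nst w g z = nst w (fun _ => h) z := by rw [nst_eq, nst_eq, hg]
  rcases H with H | ⟨H1, H2⟩
  · left
    omega
  · rw [e1] at H2
    exact H2.out e2 (by rw [hg]; exact H1)

/-- the cost of a pendant below the end `(5, 25, 0)` -/
lemma E6P.pen (H : Gr P r) {x z : P} (hx : E6P x) (hl : lev z = 11) (hzx : z ⋖ x)
    (ho : ∀ y, z ⋖ y → y = x) : cst 3 (fun _ => 5) z = 40 ∧ nst 3 (fun _ => 5) z = 10 ∧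
      nab 3 z = nab (3 + 5) z + 1 := by
  obtain ⟨h1, h2⟩ := hx
  have e : ∀ k, k ≤ 10 → nab k z = if 3 ≤ k ∧ k ≤ 7 then 2 else 1 := by
    intro k hk
    rw [nab_only ho hzx (by omega), h2 k hk]
  have g3 := e 3 (by omega)
  have g4 := e 4 (by omega)
  have g5 := e 5 (by omega)
  have g6 := e 6 (by omega)
  have g7 := e 7 (by omega)
  have g8 := e 8 (by omega)
  have g9 := e 9 (by omega)
  have g10 := e 10 (by omega)
  norm_num at g3 g4 g5 g6 g7 g8 g9 g10
  refine ⟨?_, ?_, ?_⟩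
  · rw [cst3e_11 hl, g4, g5, g6, g7, g8, g9, g10]
  · rw [nst3e_11 (z := z) (h := fun _ => 5) rfl, g3, g4, g5, g6, g7]
  · rw [g3, g8]

/-- **elements of level `11` below a deep cell** -/
theorem We.dj_E (W : We r 10 w K0 N b θ) (hw2 : 2 ≤ w) (I : InE P w K XE XO) {v : ℕ} {z x : P}
    (hz : z ∈ bdR (rA N)) (hc : cst w (hS 10 w N b θ) z = v) (hlz : lev z = 11) (hzx : z ⋖ x)
    (hD : Dk 10 w K0 N θ x) : OutG 10 w K XE XO (hS 10 w N b θ) z v := by
  have H := W.gt.H
  have hp : ¬ PenS 10 w N b θ z := fun h => by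
    have := (W.penS h).2.1
    omega
  by_cases hE : ∃ y, z ⋖ y ∧ E6T 10 w (topOf y) (b (topOf y)) (N (topOf y)) (θ (topOf y))
  · obtain ⟨y, hzy, hEy⟩ := hE
    have hnc : ¬ CEl 10 w N θ z := by
      rintro ⟨h1, h2, f, s, h3, h4, h5, h6, h7⟩
      have hn := W.not_E6 h1 h2 h3 h4 h5 h6
      rcases cov_two H h3 h4 h5 hzy with rfl | rfl
      · exact hn hEy
      · rw [h6] at hn
        exact hn hEy
    have hS1 : hS 10 w N b θ z = hA N θ z := by rw [hS_not hp, hC_not hnc]
    have hcA : cst w (hA N θ) z = v := by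
      rw [← hc, cst_const w (hA N θ) z, cst_const w (hS 10 w N b θ) z, hS1]
    refine outG_congr (h := hA N θ) hS1.symm ?_
    obtain ⟨h5, h6⟩ := W.deep_E hz hlz hzy hEy
    have e1 := (H.covBy_iff.mp hzy).2
    have hw3 : w = 3 := hEy.w3
    have hyP : E6P y := ⟨by omega, fun k hk => hEy.pat y (le_topOf y) (by omega) k hk⟩
    rcases h6 with h6 | ⟨x', h6⟩
    · rcases I.hep hw3 with h7 | h7
      · exact (h7 z y hyP hlz hzy h6).elim
      · subst hw3
        obtain ⟨c1, c2, c3⟩ := hyP.pen H hlz hzy h6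
        have e2 : nst 3 (hA N θ) z = 10 := by rw [← c2, nst_eq, nst_eq, h5]
        have e3 : v = 40 := by rw [← hcA, cst_const, h5, c1]
        rw [e3]
        exact h7.out e2 (by rw [h5]; exact c3)
    · exact (I.hej hw3 z y x' h6 hlz hyP).out h5 hcA
  · push Not at hE
    by_cases hC : CEl 10 w N θ z
    · rcases I.hcc with h | h
      · exact absurd hC (h.not_celE W hw2)
      · rw [← hc]
        exact W.cel_out hw2 (by omega) hC (by rw [hS_not hp, hC_of hC]) h
    · have hS1 : hS 10 w N b θ z = hA N θ z := by rw [hS_not hp, hC_not hC]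
      have hcA : cst w (hA N θ) z = v := by
        rw [← hc, cst_const w (hA N θ) z, cst_const w (hS 10 w N b θ) z, hS1]
      refine outG_congr (h := hA N θ) hS1.symm ?_
      rcases W.deep_jS (K := K) hw2 (by omega) (by norm_num) hz hlz hE hzx hD with h |
        ⟨-, h2, h3, h4, h5, h6⟩ | ⟨⟨x', h1⟩, h2⟩ | h
      · left
        omega
      · rcases I.hfp with h7 | h7
        · exact (h7 z x h6 hlz hzx h5).elim
        · rw [← hcA, h2]
          exact h7.out h3 h4
      · exact (I.hfj z x x' h1).out h2 hcA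
      · exact absurd h hC

/-- **the inputs at the window `w`** -/
theorem We.lkF (W : We r 10 w K0 N b θ) (hw2 : 2 ≤ w)
    (hK : 2 * K < 3 * (10 + 1 - w) ^ 2 + 3 * (10 + 1 - w)) (hu : Unq P w b)
    (I : InE P w K XE XO) {Zf : Finset P} {FT : P → Prop}
    (C : CellsF P 10 w K0 K N b θ XE XO Zf FT) :
    LkF P 10 w K0 K N b θ XE XO Zf FT where
  hK := hK
  unq := hu
  nsk := fun z x x' h hl hn hns => by
    have hw := W.hw
    exact (nsk23' (by omega) (by omega) hn hns).elim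
  dj := fun v z x hz hc hl hzx hD => (W.dj_E hw2 I hz hc hl hzx hD).toK
  dp := fun v z x hz hzf _ hc hx hzx hl hD hR =>
    (W.dp_cellsN hw2 (by omega) C hz hzf hc hx hzx hl hD hR).toK
  dt := fun x hx hxf hD hR => (W.dt_cellsN hw2 (by omega) C hx hxf hD hR).toT

end Pool.Agent.GaussPoset.Sm
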