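import Pool.Agent.W_448jx_h67.WeN
import Pool.Agent.W_448jx_h67.WeO

/-!
The windows `2`, `3` at `j = 10` with the component of the end `(5, 25, 0)`: the strips
(MP_448cb3_co, HJoin10)
-/

namespace Pool.Agent.GaussPoset.Sm

set_option linter.unusedSectionVars false

open Finset Wd

universe u

variable {P : Type u} [Fintype P] [PartialOrder P] [DecidableEq P] {r w K0 : ℕ}

section Late

variable {lo hi : ℕ → ℕ} {e : ℕ → ℕ → P} {t : Tops P}

lemma LateC.toD {lo hi : ℕ → ℕ} (h : LateC 10 lo hi 3) : LateD 10 3 lo hi where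
  h0 := le_rfl
  h1 := by norm_num
  h2 := h.low
  h3 := h.at_a
  h4 := by
    right
    have h1 := h.word
    unfold wds at h1
    rw [if_neg (by norm_num), List.mem_append] at h1
    rcases h1 with h1 | h1
    · exact h1
    · norm_num at h1

lemma e6_num : ∀ k, k < 11 → ((Icc (Cl.losW 3 Cl.w6 k) (Cl.hisW 3 Cl.w6 k)).filter (fun s' =>
    s' ≤ Cl.losW 3 Cl.w6 10 ∧ Cl.losW 3 Cl.w6 10 ≤ s' + (10 - k))).card =
      if 3 ≤ k ∧ k ≤ 7 then 2 else 1 := by
  decide +kernel

lemma e6_top : Cl.losW 3 Cl.w6 10 = Cl.hisW 3 Cl.w6 10 := by decide +kernel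

/-- the component of the end `(5, 25, 0)` -/
theorem e6T_of (G : Win.GoodTo P r 10) (C : Cp.Comp 10 (t : P) lo hi e) (h : LateC 10 lo hi 3) :
    E6T 10 3 t (hi 3 - lo 3 + 1) (lowPart 10 (t : P)) (fun x => lev x - 6) := by
  classical
  obtain ⟨D, -⟩ := Cl.wordD_three h.toD (by norm_num)
  obtain ⟨r1, r2⟩ := D.rows C
  have H := G.H
  have e1 := h.at_a
  have r10 := r1 10 le_rfl
  have s10 := r2 10 le_rfl
  have t10 := e6_top
  refine ⟨rfl, rfl, by omega, rfl, rfl, ?_, ?_⟩
  · intro x hx y hy hlx hly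
    obtain ⟨s, a1, a2, a3⟩ := C.surj x hx (by omega)
    obtain ⟨s', b1, b2, b3⟩ := C.surj y hy (by omega)
    rw [hlx] at a1 a2 a3
    rw [hly] at b1 b2 b3
    rw [← a3, ← b3, show s = s' by omega]
  · intro x hx hlx k hk
    have ho : x ∈ onlyB t := only_of_le H G.good hx (by omega)
    rw [nab_pos H G.good C ho hlx.ge hk, ← e6_num k (by omega), ← r1 k hk, ← r2 k hk, ← r10]
    congr 1
    refine Finset.filter_congr fun s' hs' => ?_
    have hpos : posA 10 lo hi e x = {lo 10} := by
      obtain ⟨s, a1, a2, a3⟩ := C.surj x hx (by omega)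
      rw [hlx] at a1 a2 a3
      ext u
      rw [mem_posA, mem_singleton]
      constructor
      · intro h
        omega
      · rintro rfl
        exact ⟨⟨le_rfl, by omega⟩, by rw [← show s = lo 10 by omega, a3]⟩
    rw [hpos]
    simp only [mem_singleton, exists_eq_left]

end Late

variable {lo hi : Tops P → ℕ → ℕ} {e : Tops P → ℕ → ℕ → P}

/-- **the strips at the windows `2`, `3`** -/
theorem Ctx.exists_we (K : Ctx P r 10 lo hi e) (hw : w = 2 ∨ w = 3)
    (hK : 2 * K0 < 3 * (10 + 1 - w) ^ 2 + 3 * (10 + 1 - w))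
    (c1 : ∀ a ∈ Finset.Icc 2 ((10 + 1) / 2), K0 + 1 < stC w (10 + 1) a)
    (c2 : ∀ a ∈ Finset.Icc 2 (10 - 1), K0 + 1 < reC w (10 + 1) a) :
    ∃ (N : Tops P → Finset P) (θ : Tops P → P → ℕ),
      We r 10 w K0 N (fun t => hi t w - lo t w + 1) θ ∧
      Unq P w (fun t => hi t w - lo t w + 1) := by
  have H := K.gt.H
  have key : ∀ t : Tops P, ∃ (M : Finset P) (ϑ : P → ℕ),
      (TypeX 10 w t (hi t w - lo t w + 1) M ϑ ∨ E6T 10 w t (hi t w - lo t w + 1) M ϑ) ∧
      ∃ B, NatTop w t (hi t w - lo t w + 1) M ϑ B := by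
    intro t
    have hT : (lo t w = hi t w ∨ RectShape 10 (lo t) (hi t) ∨ StairShape 10 (lo t) (hi t) ∨
        StairShape 10 (fun k => k - hi t k) (fun k => k - lo t k)) ∨
        (w = 3 ∧ LateC 10 (lo t) (hi t) 3) := by
      rcases shape_cases (K.comp t) (by omega) (K.shape t) with h | h | ⟨a, h, h3⟩
      · exact Or.inl (Or.inl (h w (by omega)))
      · exact Or.inl (Or.inr (by tauto))
      · have h4 := h3 (by norm_num)
        rcases Nat.lt_or_ge w a with h5 | h5
        · left; left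
          rw [(h.low w h5).1, (h.low w h5).2]
        · right
          have h6 : a = 3 := by omega
          subst h6
          exact ⟨by omega, h⟩
    rcases hT with hT | ⟨rfl, hT⟩
    · obtain ⟨M, ϑ, h1, h2⟩ := exists_typeX K.gt (by omega) (K.comp t) (i := w) (by omega) hT
      exact ⟨M, ϑ, Or.inl h1, h2.natTop H.gradedBelow⟩
    · refine ⟨_, _, Or.inr (e6T_of K.gt (K.comp t) hT), ?_⟩
      have e1 := hT.at_a
      rw [show hi t 3 - lo t 3 + 1 = 2 by omega]
      exact ⟨_, Cl.natTop_late3 hT.toD (K.comp t) H K.gt.good H.gradedBelow⟩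
  choose N θ h1 h2 using key
  refine ⟨N, θ, ?_, ?_⟩
  · exact
      { gt := K.gt, hj := by omega, hw1 := by omega, hw := by omega, typ := h1, nt := h2
        sum_b := (card_level H K.gt.good K.comp (by omega)).symm
        hK := hK
        rdeep := fun C _ hx _ h1 h2 h3 h4 => rdeep_of (by omega) (by omega) c2 C hx h1 h2 h3 h4
        sdeep := fun _ _ _ _ C _ hx _ h1 h3 h4 => sdeep_of (by omega) (by omega) c1 C hx h1 h3 h4 }
  · intro t ht x y hx hy hlx hly
    have e1 := (K.comp t).lo_le w (by omega)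
    obtain ⟨s, a1, a2, a3⟩ := (K.comp t).surj x hx (by omega)
    obtain ⟨s', b1, b2, b3⟩ := (K.comp t).surj y hy (by omega)
    rw [hlx] at a1 a2 a3
    rw [hly] at b1 b2 b3
    simp only at ht
    rw [← a3, ← b3, show s = s' by omega]

/-- one pendant below the straight ends -/
theorem Ctx.onePenE (K : Ctx P r 10 lo hi e) (hw : w = 2 ∨ w = 3) :
    OnePen P 10 (fun t => 2 ≤ hi t w - lo t w + 1) := by
  rcases K.pen_or with h | ⟨hodd, -⟩
  swap
  · norm_num at hodd
  intro y y' p p' hB hly hly' h1 h1' htt hne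
  refine h y y' p p' ?_ hly hly' h1 h1' htt hne
  rcases shape_cases (K.comp (topOf y)) (by omega) (K.shape (topOf y)) with h | h | ⟨a, h, h3⟩
  · have := h w (by omega)
    omega
  · exact h
  · exfalso
    have h4 := h3 (by norm_num)
    rcases Nat.lt_or_ge w a with h5 | h5
    · have := h.low w h5
      omega
    · have h6 : a = 3 := by omega
      subst h6
      refine hne ((e6T_of K.gt (K.comp (topOf y)) h).one y (le_topOf y) y' ?_ hly hly')
      rw [htt]
      exact le_topOf y'

/-- the number of elements above an element of a component -/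
lemma Ctx.nab_le_b (K : Ctx P r 10 lo hi e) {x : P} (hx : lev x ≤ 10) (hw : w ≤ lev x) :
    nab w x ≤ hi (topOf x) w - lo (topOf x) w + 1 := by
  classical
  have C := K.comp (topOf x)
  have ho : x ∈ onlyB (topOf x) := only_of_le K.gt.H K.gt.good (le_topOf x) hx
  unfold nab
  have hsub : (lv P w).filter (x ≤ ·) ⊆
      (Icc (lo (topOf x) w) (hi (topOf x) w)).image (e (topOf x) w) := by
    intro y hy
    rw [mem_filter, mem_lv] at hy
    obtain ⟨s', a1, a2, a3⟩ := C.surj y (onlyB_le (onlyB_up ho hy.2)) (by omega)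
    rw [hy.1] at a1 a2 a3
    exact mem_image.mpr ⟨s', mem_Icc.mpr ⟨a1, a2⟩, a3⟩
  refine (Finset.card_le_card hsub).trans (Finset.card_image_le.trans ?_)
  rw [Nat.card_Icc]
  omega

end Pool.Agent.GaussPoset.Sm
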