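import Pool.Agent.W_448jx_h67.WeP

/-!
The windows `2`, `3` at `j = 10` with the component of the end `(5, 25, 0)`: the labels of the joins
of level `11` (MP_448cb3_co, HJoin10)
-/

namespace Pool.Agent.GaussPoset.Sm

set_option linter.unusedSectionVars false

open Finset Wd

universe u

variable {P : Type u} [Fintype P] [PartialOrder P] [DecidableEq P] {r w K0 K : ℕ}
  {N : Tops P → Finset P} {b : Tops P → ℕ} {θ : Tops P → P → ℕ}

lemma fold_nab10 {x : P} (h : Fold 10 x) : nab 0 x = 1 ∧ nab 1 x = 1 ∧ nab 2 x = 2 ∧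
    nab 3 x = 2 ∧ nab 4 x = 3 ∧ nab 5 x = 3 ∧ nab 6 x = 3 ∧ nab 7 x = 2 ∧ nab 8 x = 2 ∧
    nab 9 x = 1 ∧ nab 10 x = 1 := by
  have e := h.2.2
  have g0 := e 0 (by omega)
  have g1 := e 1 (by omega)
  have g2 := e 2 (by omega)
  have g3 := e 3 (by omega)
  have g4 := e 4 (by omega)
  have g5 := e 5 (by omega)
  have g6 := e 6 (by omega)
  have g7 := e 7 (by omega)
  have g8 := e 8 (by omega)
  have g9 := e 9 (by omega)
  have g10 := e 10 (by omega)
  omega

lemma e6_nab10 {x : P} (h : E6P x) : nab 0 x = 1 ∧ nab 1 x = 1 ∧ nab 2 x = 1 ∧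
    nab 3 x = 2 ∧ nab 4 x = 2 ∧ nab 5 x = 2 ∧ nab 6 x = 2 ∧ nab 7 x = 2 ∧ nab 8 x = 1 ∧
    nab 9 x = 1 ∧ nab 10 x = 1 := by
  have e := h.2
  have g0 := e 0 (by omega)
  have g1 := e 1 (by omega)
  have g2 := e 2 (by omega)
  have g3 := e 3 (by omega)
  have g4 := e 4 (by omega)
  have g5 := e 5 (by omega)
  have g6 := e 6 (by omega)
  have g7 := e 7 (by omega)
  have g8 := e 8 (by omega)
  have g9 := e 9 (by omega)
  have g10 := e 10 (by omega)
  norm_num at g0 g1 g2 g3 g4 g5 g6 g7 g8 g9 g10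
  omega

/-- the threshold of a fold end -/
theorem We.fold_th (W : We r 10 w K0 N b θ) (hw2 : 2 ≤ w) {x : P}
    (hb : nab w x ≤ b (topOf x)) (hF : Fold 10 x) : θ (topOf x) x + w + 2 = 10 := by
  have HN := W.natSys
  have hw := W.hw
  have hlx := hF.1
  obtain ⟨n0, n1, n2, n3, n4, n5, n6, n7, n8, n9, n10⟩ := fold_nab10 hF
  have hx : x ∉ unnat N := W.low (by omega)
  have hxt : x ∈ N (topOf x) := HN.mem_iff.mpr ⟨hx, rfl⟩
  have hxle : x ≤ (topOf x : P) := le_topOf x
  have h2 : 2 ≤ nab w x := by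
    have : w = 2 ∨ w = 3 := by omega
    rcases this with rfl | rfl <;> omega
  generalize htt : topOf x = t at hxt hxle hb
  rcases W.typ t with hT | hE
  swap
  · exfalso
    have := hE.pat x hxle hlx 4 (by omega)
    norm_num at this
    omega
  rcases hT with ⟨g1, g2, g3, g5⟩ | ⟨Nc, co, h0, g1, g2, g4⟩ | ⟨Nc, co, h0, g1, g2, g3, g4, g5'⟩
  · omega
  · exfalso
    have hxN : x ∈ Nc := h0.strip (mem_lowPart.mpr ⟨hxle, by omega⟩)
    have hl := h0.chart.lev x hxN
    have a1 := rect_nab h0.chart hxN (k := 1) (by omega)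
    have a4 := rect_nab h0.chart hxN (k := 4) (by omega)
    omega
  · have hxN : x ∈ Nc := h0.strip (mem_lowPart.mpr ⟨hxle, by omega⟩)
    have hl := h0.chart.lev x hxN
    have hm : (co x).1 ≤ (co x).2 := h0.chart.mem x hxN
    have a9 := stair_nab h0.chart hxN (k := 9) (by omega)
    have a4 := stair_nab h0.chart hxN (k := 4) (by omega)
    have hJ : x ∉ junk (fun c => c.1 ≤ c.2) Nc co :=
      not_junk_above h0.chart hxN (by omega) le_rfl
    have h3 := stair_th7 h0 hw hw2 hxN hJ (by omega)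
    rw [g2]
    omega

/-- the component of the end `(5, 25, 0)` -/
theorem We.e6_T (W : We r 10 3 K0 N b θ) {x : P} (hb : nab 3 x ≤ b (topOf x)) (hE : E6P x) :
    E6T 10 3 (topOf x) (b (topOf x)) (N (topOf x)) (θ (topOf x)) := by
  have HN := W.natSys
  have hlx := hE.1
  obtain ⟨n0, n1, n2, n3, n4, n5, n6, n7, n8, n9, n10⟩ := e6_nab10 hE
  have hxle : x ≤ (topOf x : P) := le_topOf x
  generalize htt : topOf x = t at hxle hb
  rcases W.typ t with hT | hE
  swap
  · exact hE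
  exfalso
  rcases hT with ⟨g1, g2, g3, g5⟩ | ⟨Nc, co, h0, g1, g2, g4⟩ | ⟨Nc, co, h0, g1, g2, g3, g4, g5'⟩
  · omega
  · have hxN : x ∈ Nc := h0.strip (mem_lowPart.mpr ⟨hxle, by omega⟩)
    have hl := h0.chart.lev x hxN
    have a1 := rect_nab h0.chart hxN (k := 1) (by omega)
    have a3 := rect_nab h0.chart hxN (k := 3) (by omega)
    omega
  · have hxN : x ∈ Nc := h0.strip (mem_lowPart.mpr ⟨hxle, by omega⟩)
    have hl := h0.chart.lev x hxN
    have hm : (co x).1 ≤ (co x).2 := h0.chart.mem x hxN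
    have a2 := stair_nab h0.chart hxN (k := 2) (by omega)
    have a3 := stair_nab h0.chart hxN (k := 3) (by omega)
    omega

/-- joins are in the far set -/
lemma We.join_rA (W : We r 10 w K0 N b θ) {z : P} (hz : Hul.Jn z) : z ∈ rA N := by
  have HN := W.natSys
  obtain ⟨t1, t2, h1, h2, hne, hz1, hz2⟩ := hz
  have key : ∀ y, y ∉ unnat N → (y ≤ t1 → y ≤ t2 → False) := by
    intro y hy g1 g2
    have h3 : y ∈ N (topOf y) := HN.mem_iff.mpr ⟨hy, rfl⟩
    exact hne ((HN.top_eq h3 h1 g1).trans (HN.top_eq h3 h2 g2).symm)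
  have hzu : z ∈ unnat N := by
    by_contra hcon
    exact key z hcon hz1 hz2
  refine mem_rA.mpr ⟨hzu, fun h => ?_⟩
  obtain ⟨-, y, hy, hup⟩ := mem_twA.mp h
  have hl := W.lt_lev hzu
  refine key y hy ((hup t1).mpr ?_).le ((hup t2).mpr ?_).le
  · exact lt_of_le_of_ne hz1 (by rintro rfl; omega)
  · exact lt_of_le_of_ne hz2 (by rintro rfl; omega)

/-- a join of level `11` is in the boundary of the far set, its label is the canonical one -/
theorem We.join_bd (W : We r 10 w K0 N b θ) {z x x' : P} (h : Cg z x x') (hl : lev z = 11) :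
    z ∈ bdR (rA N) ∧ hS 10 w N b θ z = hA N θ z ∧ hA N θ z ≤ θ (topOf x) x + 1 := by
  have H := W.gt.H
  have hzR := W.join_rA h.jn
  have e1 := (h.lev_eq H).1
  have hx : x ∉ unnat N := W.low (by omega)
  have hbs : GaussPoset.bs N x = x := by
    unfold GaussPoset.bs
    rw [if_neg (W.not_tw hx)]
  have hle := W.hA_le (not_mem_rA.mpr (Or.inl hx)) h.cov
  rw [hbs] at hle
  refine ⟨mem_bdR.mpr ⟨hzR, x, not_mem_rA.mpr (Or.inl hx), h.cov⟩, ?_, hle⟩
  have hp : ¬ PenS 10 w N b θ z := fun h => by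
    have := (W.penS h).2.1
    omega
  have hC : ¬ CEl 10 w N θ z := by
    rintro ⟨h1, h2, f, s, h3, h4, h5, h6, h7⟩
    have hne : x ≠ x' := by rintro rfl; exact h.ne rfl
    rcases cov_two H h3 h4 h5 h.cov with rfl | rfl <;>
      rcases cov_two H h3 h4 h5 h.cov' with rfl | rfl
    · exact h.ne rfl
    · exact h.ne h6
    · exact h.ne h6.symm
    · exact h.ne rfl
  rw [hS_not hp, hC_not hC]

/-- monotone in the label -/
lemma cst_mono_const {h k : ℕ} (hk : h ≤ k) {z : P} :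
    cst w (fun _ => h) z ≤ cst w (fun _ => k) z := by
  unfold cst ez
  refine Finset.sum_le_sum fun y _ => ?_
  split_ifs
  · simp only
    omega
  · exact le_rfl

/-- elements of level `11` of the boundary are not affected by the pendants of the fold -/
lemma FS.at11 (W : We r 10 w K0 N b θ) {Zf : Finset P} {FT : P → Prop} {hF : P → ℕ}
    (F : FS P 10 w K N b θ Zf FT hF) {z : P} (hz : z ∈ bdR (rA N)) (hl : lev z = 11) :
    z ∈ bdR (rA N \ Zf) ∧ hF z = hS 10 w N b θ z := by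
  have H := W.gt.H.gradedBelow
  have hZ : ∀ y ∈ Zf, 12 ≤ lev y := by
    intro y hy
    obtain ⟨x, hx, -, hyx, -⟩ := F.up y hy
    have e1 := H.lev_covBy hyx
    have := W.lt_lev (mem_twA.mp hx).1
    omega
  have h1 : z ∉ Zf := fun h => by
    have := hZ z h
    omega
  have h2 : ∀ y ∈ Zf, ¬ z ⋖ y := fun y hy hzy => by
    have := hZ y hy
    have e1 := H.lev_covBy hzy
    omega
  obtain ⟨hzR, u, hu, hzu⟩ := mem_bdR.mp hz
  exact ⟨mem_bdR.mpr ⟨mem_sdiff.mpr ⟨hzR, h1⟩, u, fun h => hu (mem_sdiff.mp h).1, hzu⟩,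
    F.eq z hz h1 h2⟩

/-- **the cost of a join bounds the cheapest class** -/
theorem We.mn_join (W : We r 10 w K0 N b θ) {Zf : Finset P} {FT : P → Prop} {hF : P → ℕ}
    (F : FS P 10 w K N b θ Zf FT hF) {v : ℕ} (M : MnF w N Zf FT hF (tcS 10 w N b θ) v)
    {z x x' : P} (h : Cg z x x') (hl : lev z = 11) {k : ℕ} (hk : θ (topOf x) x + 1 ≤ k) :
    v ≤ cst w (fun _ => k) z := by
  obtain ⟨h1, h2, h3⟩ := W.join_bd h hl
  obtain ⟨h4, h5⟩ := F.at11 W h1 hl
  have h6 := M.bd z h4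
  rw [cst_const w hF z, h5, h2] at h6
  exact h6.trans (cst_mono_const (by omega))

end Pool.Agent.GaussPoset.Sm
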