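import Pool.Agent.W_448jx_h67.WeO

/-!
The lists of pairs of ends and the refined sides (MP_448cb3_co, HJoin10)
-/

namespace Pool.Agent.GaussPoset.Sm

set_option linter.unusedSectionVars false

open Finset Wd

/-- the excluded pairs -/
def XR (R : List ((ℕ × ℕ × ℕ) × (ℕ × ℕ × ℕ))) (s s' : ℕ × ℕ × ℕ) : Bool := !R.elem (s, s')

/-- the pairs of ends which are left after the window `3`, cap `5` -/
def RA : List ((ℕ × ℕ × ℕ) × (ℕ × ℕ × ℕ)) :=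
  R10.filter fun p => !(p == ((1, 3, 0), (5, 25, 0)) || p == ((5, 25, 0), (1, 3, 0)) ||
    p == ((1, 4, 0), (5, 25, 0)) || p == ((5, 25, 0), (1, 4, 0)))

/-- the pairs of ends which are left after the window `2`, cap `20` -/
def RB : List ((ℕ × ℕ × ℕ) × (ℕ × ℕ × ℕ)) :=
    [((1, 2, 1), (10, 50, 1)), ((1, 3, 0), (10, 50, 1)), ((1, 4, 0), (10, 50, 1)),
    ((1, 5, 0), (10, 50, 1)), ((3, 9, 1), (5, 20, 1)), ((3, 9, 1), (10, 50, 1)),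
    ((5, 20, 1), (3, 9, 1)), ((5, 20, 1), (5, 20, 1)), ((5, 20, 1), (5, 25, 0)),
    ((5, 20, 1), (10, 50, 1)), ((5, 25, 0), (5, 20, 1)), ((5, 25, 0), (10, 50, 1)),
    ((10, 50, 1), (1, 2, 1)), ((10, 50, 1), (1, 3, 0)), ((10, 50, 1), (1, 4, 0)),
    ((10, 50, 1), (1, 5, 0)), ((10, 50, 1), (3, 9, 1)), ((10, 50, 1), (5, 20, 1)),
    ((10, 50, 1), (5, 25, 0)), ((10, 50, 1), (10, 50, 1))]

/-- the pairs of ends which are left without `15|F` -/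
def RC : List ((ℕ × ℕ × ℕ) × (ℕ × ℕ × ℕ)) :=
  [((1, 2, 1), (10, 50, 1)), ((1, 3, 0), (10, 50, 1)), ((1, 4, 0), (10, 50, 1)),
  ((3, 9, 1), (5, 20, 1)), ((3, 9, 1), (10, 50, 1)), ((5, 20, 1), (3, 9, 1)),
  ((5, 20, 1), (5, 20, 1)), ((5, 20, 1), (5, 25, 0)), ((5, 20, 1), (10, 50, 1)),
  ((5, 25, 0), (5, 20, 1)), ((5, 25, 0), (10, 50, 1)), ((10, 50, 1), (1, 2, 1)),
  ((10, 50, 1), (1, 3, 0)), ((10, 50, 1), (1, 4, 0)), ((10, 50, 1), (3, 9, 1)),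
  ((10, 50, 1), (5, 20, 1)), ((10, 50, 1), (5, 25, 0)), ((10, 50, 1), (10, 50, 1))]

/-- the pairs of ends which are left after the window `2`, cap `32` -/
def RD : List ((ℕ × ℕ × ℕ) × (ℕ × ℕ × ℕ)) :=
  [((3, 9, 1), (5, 20, 1)), ((3, 9, 1), (10, 50, 1)), ((5, 20, 1), (3, 9, 1)),
  ((5, 20, 1), (5, 20, 1)), ((5, 20, 1), (5, 25, 0)), ((5, 20, 1), (10, 50, 1)),
  ((5, 25, 0), (5, 20, 1)), ((5, 25, 0), (10, 50, 1)), ((10, 50, 1), (3, 9, 1)),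
  ((10, 50, 1), (5, 20, 1)), ((10, 50, 1), (5, 25, 0)), ((10, 50, 1), (10, 50, 1))]

/-- the pairs of ends which are left after the window `2`, cap `35` -/
def RDD : List ((ℕ × ℕ × ℕ) × (ℕ × ℕ × ℕ)) :=
  [((3, 9, 1), (10, 50, 1)), ((5, 20, 1), (5, 20, 1)), ((5, 20, 1), (10, 50, 1)),
  ((5, 25, 0), (10, 50, 1)), ((10, 50, 1), (3, 9, 1)), ((10, 50, 1), (5, 20, 1)),
  ((10, 50, 1), (5, 25, 0)), ((10, 50, 1), (10, 50, 1))]

/-- the pairs of ends which are left without `E6|F` -/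
def RE : List ((ℕ × ℕ × ℕ) × (ℕ × ℕ × ℕ)) :=
  [((3, 9, 1), (10, 50, 1)), ((5, 20, 1), (5, 20, 1)), ((5, 20, 1), (10, 50, 1)),
  ((10, 50, 1), (3, 9, 1)), ((10, 50, 1), (5, 20, 1)), ((10, 50, 1), (10, 50, 1))]

/-- the pairs of ends which are left after the window `3`, cap `30` -/
def REE : List ((ℕ × ℕ × ℕ) × (ℕ × ℕ × ℕ)) :=
  [((3, 9, 1), (10, 50, 1)), ((5, 20, 1), (10, 50, 1)), ((10, 50, 1), (3, 9, 1)),
  ((10, 50, 1), (5, 20, 1)), ((10, 50, 1), (10, 50, 1))]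

/-- values at four windows -/
def pk {α : Type} (a b c d : α) (w : ℕ) : α :=
  if w = 0 then a else if w = 1 then b else if w = 2 then c else d

/-- no noise -/
def nf (_ : ℤ) : Bool := false

/-- the refined sides, one level deeper -/
def S10r : List (ℕ × ℕ × ℕ) :=
    [(0, 0, 0), (0, 0, 1), (1, 1, 0), (1, 1, 1), (1, 2, 0), (1, 3, 0), (1, 4, 0), (1, 5, 0),
    (2, 3, 1), (3, 6, 0), (3, 6, 1), (3, 9, 0), (4, 7, 1), (4, 10, 1),
    (5, 12, 1), (5, 15, 0), (5, 15, 1), (5, 20, 0), (5, 25, 0), (6, 13, 1),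
    (6, 16, 1), (7, 23, 1)]

set_option maxRecDepth 100000 in
lemma chkT10 : ChkT 10 S10r := by decide +kernel

end Pool.Agent.GaussPoset.Sm
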