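import Pool.Agent.W_448jx_h67.WeQ
import Pool.Agent.W_448jx_h67.WtA

/-!
The costs of the joins of level `11` at the fold end and at the end `(5, 25, 0)`
(MP_448cb3_co, HJoin10)
-/

namespace Pool.Agent.GaussPoset.Sm

set_option linter.unusedSectionVars false

open Finset Wd

universe u

variable {P : Type u} [Fintype P] [PartialOrder P] [DecidableEq P] {r w K0 K : ℕ}

/-- the numbers of elements above an end of a join of level `11` -/
structure Sd (x : P) (s : ℕ × ℕ × ℕ) : Prop where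
  n0 : nab 0 x = 1
  n1 : nab 1 x = 1
  n9 : nab 9 x = 1
  n10 : nab 10 x = 1
  l2 : 1 ≤ nab 2 x
  l3 : 1 ≤ nab 3 x
  l4 : 1 ≤ nab 4 x
  l5 : 1 ≤ nab 5 x
  l6 : 1 ≤ nab 6 x
  l7 : 1 ≤ nab 7 x
  l8 : 1 ≤ nab 8 x
  A : nab 2 x + nab 3 x + nab 4 x + nab 5 x + nab 6 x + nab 7 x + nab 8 x = s.1 + 7
  B : 8 * nab 2 x + 7 * nab 3 x + 6 * nab 4 x + 5 * nab 5 x + 4 * nab 6 x + 3 * nab 7 x +
    2 * nab 8 x = s.2.1 + 35
  G : nab 8 x = s.2.2 + 1
  t : nab 2 x = 1 ∨ Fold 10 x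

variable {lo hi : Tops P → ℕ → ℕ} {e : Tops P → ℕ → ℕ → P}

lemma sok11 {x : P} (hx : lev x = 10) : Sok 10 x :=
  ⟨fun hf => by have := hf.1; omega, fun h12 => by omega⟩

/-- the low levels of a side -/
lemma Ctx.low10 (K : Ctx P r 10 lo hi e) {z x x' : P} (h : Cg z x x') (hs : Sok 10 x) :
    nab 0 x = 1 ∧ nab 1 x = 1 ∧ (nab 2 x = 1 ∨ Fold 10 x) := by
  have hl := K.lev_ge h
  obtain ⟨l1, l2⟩ := h.lev_eq K.gt.H
  have hend : lev x = 10 → (Win.uc x).card = 1 := fun hh => (K.ends h (by omega)).1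
  rcases K.cases h.only (by omega) hend hs.1 with g | g | ⟨a, g, g3⟩
  · obtain ⟨n0, n1, -⟩ := fold_nab10 g
    exact ⟨n0, n1, Or.inr g⟩
  · exact ⟨g 0 (by omega), g 1 (by omega), Or.inl (g 2 (by omega))⟩
  · have h4 := g3 (by norm_num)
    have key : ∀ k, k < 3 → nab k x = 1 := by
      intro k hk
      obtain ⟨e1, e2⟩ := g.low k (by omega)
      exact nab_one_of_eq (K.comp (topOf x)) h.only (by omega) (by omega) (by rw [e1, e2])
    exact ⟨key 0 (by omega), key 1 (by omega), Or.inl (key 2 (by omega))⟩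

/-- the numbers of elements above an end -/
theorem Ctx.sd (K : Ctx P r 10 lo hi e) {z x x' : P} (h : Cg z x x') (hl : lev z = 11)
    {s : ℕ × ℕ × ℕ} (d : Dt 10 x s) : Sd x s := by
  have H := K.gt.H
  have e1 := (h.lev_eq H).1
  have hx : lev x = 10 := by omega
  obtain ⟨a0, a1, a2⟩ := K.low10 h (sok11 hx)
  obtain ⟨b1, b2, b3⟩ := side_ge H hx (K.ends h hl).1
  obtain ⟨c1, c2, c3⟩ := d.expl
  have l2 := b1 2 (by omega)
  have l3 := b1 3 (by omega)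
  have l4 := b1 4 (by omega)
  have l5 := b1 5 (by omega)
  have l6 := b1 6 (by omega)
  have l7 := b1 7 (by omega)
  have l8 := b1 8 (by omega)
  exact ⟨a0, a1, b2, b3, l2, l3, l4, l5, l6, l7, l8, by omega, by omega, c3, a2⟩

/-- the data of the end `(5, 25, 0)` -/
lemma Sd.e6 {x : P} {s : ℕ × ℕ × ℕ} (d : Sd x s) (hE : E6P x) : s = (5, 25, 0) := by
  obtain ⟨n0, n1, n2, n3, n4, n5, n6, n7, n8, n9, n10⟩ := e6_nab10 hE
  have a := d.A
  have b := d.B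
  have g := d.G
  obtain ⟨s1, s2, s3⟩ := s
  simp only at a b g
  refine Prod.ext ?_ (Prod.ext ?_ ?_) <;> simp only <;> omega

/-- the data of the fold end -/
lemma Sd.fold {x : P} {s : ℕ × ℕ × ℕ} (d : Sd x s) (hE : Fold 10 x) : s = (10, 50, 1) := by
  obtain ⟨n0, n1, n2, n3, n4, n5, n6, n7, n8, n9, n10⟩ := fold_nab10 hE
  have a := d.A
  have b := d.B
  have g := d.G
  obtain ⟨s1, s2, s3⟩ := s
  simp only at a b g
  refine Prod.ext ?_ (Prod.ext ?_ ?_) <;> simp only <;> omega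

/-- a join at the end `(5, 25, 0)`, label `5` at the window `3` -/
theorem e6_join {z x x' : P} (hl : lev z = 11) (hs : ∀ k, k ≤ 10 → nab k z = nab k x + nab k x')
    (hE : E6P x) {s : ℕ × ℕ × ℕ} (d : Sd x' s) :
    cst 3 (fun _ => 5) z + s.2.1 = 64 + 7 * s.1 + nab 2 x' ∧
    nst 3 (fun _ => 5) z + nab 2 x' + s.2.2 = 16 + s.1 ∧
    (nab 3 x' = s.2.2 + 1 → nab 3 z = nab (3 + 5) z + 1) := by
  obtain ⟨n0, n1, n2, n3, n4, n5, n6, n7, n8, n9, n10⟩ := e6_nab10 hE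
  have a := d.A
  have b := d.B
  have g := d.G
  have d9 := d.n9
  have d10 := d.n10
  rw [cst3e_11 hl, nst3e_11 (z := z) (h := fun _ => 5) rfl, hs 3 (by omega), hs 4 (by omega),
    hs 5 (by omega), hs 6 (by omega), hs 7 (by omega), hs 8 (by omega), hs 9 (by omega),
    hs 10 (by omega)]
  refine ⟨by omega, by omega, fun h => by omega⟩

/-- a join at the fold end, label `7` at the window `2` -/
theorem fo_join2 {z x x' : P} (hl : lev z = 11) (hs : ∀ k, k ≤ 10 → nab k z = nab k x + nab k x')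
    (hE : Fold 10 x) {s : ℕ × ℕ × ℕ} (d : Sd x' s) :
    cst 2 (fun _ => 7) z + s.2.1 = 107 + 8 * s.1 ∧
    nst 2 (fun _ => 7) z = 24 + s.1 ∧
    (nab 2 x' = 1 → nab 2 z = nab (2 + 7) z + 1) := by
  obtain ⟨n0, n1, n2, n3, n4, n5, n6, n7, n8, n9, n10⟩ := fold_nab10 hE
  have a := d.A
  have b := d.B
  have g := d.G
  have d9 := d.n9
  have d10 := d.n10
  rw [cst2_11 hl, nst2_11 (z := z) (h := fun _ => 7) rfl, hs 2 (by omega), hs 3 (by omega),
    hs 4 (by omega), hs 5 (by omega), hs 6 (by omega), hs 7 (by omega), hs 8 (by omega),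
    hs 9 (by omega), hs 10 (by omega)]
  refine ⟨by omega, by omega, fun h => by omega⟩

/-- a join at the fold end, label `6` at the window `3` -/
theorem fo_join3 {z x x' : P} (hl : lev z = 11) (hs : ∀ k, k ≤ 10 → nab k z = nab k x + nab k x')
    (hE : Fold 10 x) {s : ℕ × ℕ × ℕ} (d : Sd x' s) :
    cst 3 (fun _ => 6) z + s.2.1 = 80 + 7 * s.1 + nab 2 x' ∧
    nst 3 (fun _ => 6) z + nab 2 x' = 22 + s.1 ∧
    (nab 3 x' = 1 → nab 3 z = nab (3 + 6) z + 1) := by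
  obtain ⟨n0, n1, n2, n3, n4, n5, n6, n7, n8, n9, n10⟩ := fold_nab10 hE
  have a := d.A
  have b := d.B
  have g := d.G
  have d9 := d.n9
  have d10 := d.n10
  rw [cst3_11 hl, nst3_11 (z := z) (h := fun _ => 6) rfl, hs 3 (by omega), hs 4 (by omega),
    hs 5 (by omega), hs 6 (by omega), hs 7 (by omega), hs 8 (by omega), hs 9 (by omega),
    hs 10 (by omega)]
  refine ⟨by omega, by omega, fun h => by omega⟩

/-- the remaining pairs of ends -/
def HR (P : Type u) [Fintype P] [PartialOrder P] [DecidableEq P]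
    (R : List ((ℕ × ℕ × ℕ) × (ℕ × ℕ × ℕ))) : Prop :=
  ∀ z x x' : P, Cg z x x' → lev z = 11 → ∃ s s', (s, s') ∈ R ∧ Dt 10 x s ∧ Dt 10 x' s'

lemma Dt.unq10 {x : P} {s s' : ℕ × ℕ × ℕ} (h : Dt 10 x s) (h' : Dt 10 x s') : s = s' := by
  obtain ⟨h1, h2, h3⟩ := h
  obtain ⟨h1', h2', h3'⟩ := h'
  rw [h1] at h1'
  rw [h2] at h2'
  refine Prod.ext (by exact_mod_cast h1') (Prod.ext (by exact_mod_cast h2') (by omega))

lemma HR.noP {R : List ((ℕ × ℕ × ℕ) × (ℕ × ℕ × ℕ))} (h : HR P R) : NoP P 10 (XR R) := by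
  intro z x x' hz hl s s' d d'
  obtain ⟨t, t', h1, h2, h3⟩ := h z x x' hz hl
  unfold XR
  rw [d.unq10 h2, d'.unq10 h3, Bool.not_eq_false', List.elem_iff]
  exact h1

/-- the other end of a join at the end `(5, 25, 0)` -/
lemma HR.e6 {R : List ((ℕ × ℕ × ℕ) × (ℕ × ℕ × ℕ))} (h : HR P R) (K : Ctx P r 10 lo hi e)
    {z x x' : P} (hz : Cg z x x') (hl : lev z = 11) (hE : E6P x) :
    ∃ s', ((5, 25, 0), s') ∈ R ∧ Sd x' s' := by
  obtain ⟨s, s', h1, h2, h3⟩ := h z x x' hz hl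
  rw [(K.sd hz hl h2).e6 hE] at h1
  exact ⟨s', h1, K.sd hz.symm hl h3⟩

/-- the other end of a join at the fold end -/
lemma HR.fold {R : List ((ℕ × ℕ × ℕ) × (ℕ × ℕ × ℕ))} (h : HR P R) (K : Ctx P r 10 lo hi e)
    {z x x' : P} (hz : Cg z x x') (hl : lev z = 11) (hE : Fold 10 x) :
    ∃ s', ((10, 50, 1), s') ∈ R ∧ Sd x' s' := by
  obtain ⟨s, s', h1, h2, h3⟩ := h z x x' hz hl
  rw [(K.sd hz hl h2).fold hE] at h1
  exact ⟨s', h1, K.sd hz.symm hl h3⟩

end Pool.Agent.GaussPoset.Sm
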