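import Pool.Agent.W_448jx_h67.WeS

/-!
The inputs at the level `11` for the windows `2`, `3` at `j = 10` (MP_448cb3_co, HJoin10)
-/

namespace Pool.Agent.GaussPoset.Sm

set_option linter.unusedSectionVars false

open Finset Wd

universe u

variable {P : Type u} [Fintype P] [PartialOrder P] [DecidableEq P] {r w K0 K y : ℕ}
  {LE LO : List ℤ} {lo hi : Tops P → ℕ → ℕ} {e : Tops P → ℕ → ℕ → P}

/-- an end with two ancestors on level `k` only is not the fold end -/
lemma Sd.nf {x : P} {s : ℕ × ℕ × ℕ} (d : Sd x s) (h : s.1 < 10) : nab 2 x = 1 := by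
  rcases d.t with h1 | h1
  · exact h1
  · have := d.fold h1
    rw [this] at h
    norm_num at h

/-- an expensive or admissible value -/
lemma okLe_of {h : ℕ} {z : P} {c n : ℕ} (hc : cst w (fun _ => h) z = c)
    (hn : nst w (fun _ => h) z = n) (hd : K < c ∨ nab w z = nab (w + h) z + 1)
    (hO : OkN y K LE LO n c) : OkL w K (XL y LE) (XL y LO) h z := by
  unfold OkL
  rw [hc, hn]
  rcases hd with hd | hd
  · exact Or.inl hd
  · exact Or.inr ⟨hd, hO.okv⟩

lemma e6_R10 : ∀ p ∈ R10, p.1 = (5, 25, 0) → p.2 = (1, 2, 1) ∨ p.2 = (1, 3, 0) ∨ p.2 = (1, 4, 0) ∨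
    p.2 = (3, 9, 1) ∨ p.2 = (5, 20, 1) ∨ p.2 = (5, 25, 0) ∨ p.2 = (10, 50, 1) := by
  decide +kernel

lemma all_R10 : ∀ p ∈ R10, p.2.2.1 ≤ 7 * p.2.1 := by decide +kernel

/-- **the window `3`, cap `5`** -/
theorem inE_A (K : Ctx P r 10 lo hi e) (hR : HR P R10) :
    InE P 3 69 (XL (10 + 1 - 3) [-24, 4, 5]) (XL (10 + 1 - 3) [-10]) where
  hcc := Or.inr (by
    refine OkN.okv (y := 10 + 1 - 3) (LE := [-24, 4, 5]) (LO := [-10]) ?_
    decide +kernel)
  hfj := by
    rintro z x x' ⟨h, hl, hf⟩
    obtain ⟨s, h1, d⟩ := hR.fold K h hl hf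
    have h2 := all_R10 _ h1
    obtain ⟨c1, -, -⟩ := fo_join3 hl (h.sums K.gt.H hl) hf d
    left
    show 69 < cst 3 (fun _ => 6) z
    simp only at h2
    omega
  hfp := Or.inr (by
    refine OkN.okv (y := 10 + 1 - 3) (LE := [-24, 4, 5]) (LO := [-10]) ?_
    decide +kernel)
  hej := by
    intro _ z x x' h hl hE
    obtain ⟨s, h1, d⟩ := hR.e6 K h hl hE
    obtain ⟨c1, c2, c3⟩ := e6_join hl (h.sums K.gt.H hl) hE d
    have a := d.A
    have b := d.B
    have g := d.G
    have l2 := d.l2
    have l3 := d.l3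
    have l4 := d.l4
    have l5 := d.l5
    have l6 := d.l6
    have l7 := d.l7
    have h2 := e6_R10 _ h1 rfl
    simp only at h2
    rcases h2 with rfl | rfl | rfl | rfl | rfl | rfl | rfl
    · left
      simp only at c1
      omega
    · have nf := d.nf (by norm_num)
      simp only at a b g c1 c2 c3
      refine okLe_of (c := 69) (n := 16) (by omega) (by omega) (Or.inr (c3 (by omega))) ?_
      decide +kernel
    · have nf := d.nf (by norm_num)
      simp only at a b g c1 c2 c3
      refine okLe_of (c := 68) (n := 16) (by omega) (by omega) (Or.inr (c3 (by omega))) ?_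
      decide +kernel
    · left
      simp only at c1
      omega
    · left
      simp only at c1
      omega
    · left
      simp only at c1
      omega
    · left
      simp only at c1
      omega
  hep := fun _ => Or.inr (by
    refine OkN.okv (y := 10 + 1 - 3) (LE := [-24, 4, 5]) (LO := [-10]) ?_
    decide +kernel)

/-- **the window `2`, cap `20`** -/
theorem inE_B (K : Ctx P r 10 lo hi e) (hR : HR P R10) :
    InE P 2 101 (XL (10 + 1 - 2) []) (XL (10 + 1 - 2) [-9]) where
  hcc := Or.inr (by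
    refine OkN.okv (y := 10 + 1 - 2) (LE := []) (LO := [-9]) ?_
    decide +kernel)
  hfj := by
    rintro z x x' ⟨h, hl, hf⟩
    obtain ⟨s, h1, d⟩ := hR.fold K h hl hf
    have h2 := all_R10 _ h1
    obtain ⟨c1, -, -⟩ := fo_join2 hl (h.sums K.gt.H hl) hf d
    left
    show 101 < cst 2 (fun _ => 7) z
    simp only at h2
    omega
  hfp := Or.inr (by
    refine OkN.okv (y := 10 + 1 - 2) (LE := []) (LO := [-9]) ?_
    decide +kernel)
  hej := fun h => by norm_num at h
  hep := fun h => by norm_num at h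

end Pool.Agent.GaussPoset.Sm
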