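import Pool.Agent.W_448jx_h67.WtA

/-!
The tables of the window `3`, cap `5` (MP_448cb3_co, HJoin10)
-/

namespace Pool.Agent.GaussPoset.Sm

set_option linter.unusedSectionVars false

open Finset Wd

/-- lines with `g`, by `κ`, window `3`, cap `5` -/
def LA : List (List ℤ) :=
  [[], [], [3], [-2, -1, 0, 1, 2, 3], [-11, -7, -6, -5, -4, -3, -2, -1, 0, 1, 2, 3, 8], [-20, -6,
  -3, -2, -1, 0, 1, 2, 3, 4, 5, 6, 7], [-29, -28, -27, -25, -24, -23, -22, -18, -11, -10, -9, -8,
  -7, -6, -5, -4, -3], [-22, -17], [-34, -29, -27, -26, -25, -24, -23], [], [-50, -45], [-55, -54,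
  -53]]

/-- caps, window `3`, cap `5` -/
def cpA : ℕ → ℤ := pk 57 44 (-1000) 5

/-- odd noise, window `3`, cap `5` -/
def nOA : ℕ → ℤ → Bool :=
  pk nf nf nf (fun V => ([-10] : List ℤ).elem V)

/-- even noise, window `3`, cap `5` -/
def nEA : ℕ → ℤ → Bool :=
  pk nf (nz 10) nf
    (fun V => nz 8 V || ([-24, 4, 5] : List ℤ).elem V)

/-- lower bounds, window `3`, cap `5` -/
def lbA : ℕ → ℤ := pk 0 0 (-999) (-64)

set_option maxRecDepth 100000 in
theorem tabA : Tab2 10 3 cpA LA E10 S10r S10b (XR R10) := by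
  refine ⟨by norm_num, chkE10, chkT10, ?_, ?_, ?_, ?_, ?_, ?_, ?_, ?_, ?_⟩
  · decide +kernel
  · decide +kernel
  · decide +kernel
  · decide +kernel
  · intro _ h
    decide +kernel
  · decide +kernel
  · decide +kernel
  · decide +kernel
  · decide +kernel

lemma uA : ubd 10 3 cpA lbA LA nOA nEA 200 2 = [29, 25, -999, 6] := by
  decide +kernel

end Pool.Agent.GaussPoset.Sm
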