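import Pool.Agent.W_448jx_h67.WeU
import Pool.Agent.W_448jx_h67.WtB

/-!
The windows `3`, cap `5`, and `2`, cap `20`: the pairs of ends which are left
(MP_448cb3_co, HJoin10)
-/

namespace Pool.Agent.GaussPoset.Sm

set_option linter.unusedSectionVars false

open Finset Wd

universe u

variable {P : Type u} [Fintype P] [PartialOrder P] [DecidableEq P] {r : ℕ}
  {lo hi : Tops P → ℕ → ℕ} {e : Tops P → ℕ → ℕ → P}

lemma numA : NumC False False False 10 3 69 [-24, 4, 5] [-10] := by
  constructor <;> decide +kernel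

lemma numB : NumC False False False 10 2 101 [] [-9] := by
  constructor <;> decide +kernel

/-- the trivial balance at the window `2` -/
lemma Ctx.triv2 (K : Ctx P r 10 lo hi e) : WinB P 10 2 (-1000) nf nf (-999) (-999) := by
  have H := K.gt.H
  refine ⟨fun h => by norm_num at h, ?_, fun h => by norm_num at h, fun h => by norm_num at h⟩
  intro z x x' h hs hs'
  obtain ⟨a0, a1, -⟩ := K.low10 h hs
  obtain ⟨b0, b1, -⟩ := K.low10 h.symm hs'
  have hl := K.lev_ge h
  have h1 := ful_line (j := 10) (w := 2) (z := z) (by omega) (by omega) (fun k hk => by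
    have hk' : k = 0 ∨ k = 1 := by omega
    rcases hk' with rfl | rfl <;> rw [h.sum H (by omega)] <;> omega)
  have h2 : (0 : ℤ) ≤ ful 2 z := Int.natCast_nonneg _
  rw [h1] at h2
  norm_num at h2 ⊢
  linarith

/-- the balances at the windows `0`, `1` -/
lemma Ctx.win01 (K : Ctx P r 10 lo hi e) (hJ : ∃ z : P, Hul.Jn z) :
    ∃ V0 V1, WinB P 10 0 57 nf nf 0 V0 ∧ WinB P 10 1 44 nf (nz 10) 0 V1 := by
  obtain ⟨V0, h0⟩ := K.win0 hJ
  obtain ⟨V1, h1⟩ := K.win1 (by norm_num) chkE10 (by decide +kernel) (by decide +kernel) hJ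
  refine ⟨V0, V1, ?_, ?_⟩
  · have e : cap0 10 = 57 := by decide +kernel
    rw [e] at h0
    exact h0
  · have e : ((10 * (10 - 1) / 2 : ℕ) : ℤ) - 1 = 44 := by decide +kernel
    rw [e] at h1
    exact h1

/-- **the pairs of ends which are left after the window `3`, cap `5`** -/
theorem Ctx.hRA (K : Ctx P r 10 lo hi e) : HR P RA := by
  have hR : HR P R10 := fun z x x' h hl => left10 K h hl
  intro z x x' h hl
  have hJ : ∃ z : P, Hul.Jn z := ⟨z, h.jn⟩
  obtain ⟨V0, V1, B0, B1⟩ := K.win01 hJ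
  obtain ⟨N, θ, W, hu⟩ := K.exists_we (w := 3) (K0 := 86) (Or.inr rfl) (by norm_num)
    (by decide +kernel) (by decide +kernel)
  have F := W.fs0 (Kc := 69) (by norm_num) (fun _ => Or.inl (by norm_num))
  obtain ⟨v, M, B3⟩ := K.winE (Or.inr rfl) W hu F (inE_A K hR)
    (W.cellsC (by norm_num) (by norm_num) (by norm_num) numA (fun h => h.elim) (fun h => h.elim)
      (fun h => h.elim) (fun h => h.elim))
    (cT := 5) (lb := -64) (by norm_num) (by norm_num) (by norm_num) (by norm_num)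
    (by decide) (by decide) hJ
  have hb := (K.boundsV (V := pk V0 V1 (-999) ((v : ℤ) - 64)) hR.noP tabA (nO := nOA) (nE := nEA)
    (lb := lbA) (fun w hw => by
      have hw' : w = 0 ∨ w = 1 ∨ w = 2 ∨ w = 3 := by omega
      rcases hw' with rfl | rfl | rfl | rfl
      · exact B0
      · exact B1
      · exact K.triv2
      · exact B3) 200 2).2 3 le_rfl
  change (ubd 10 3 cpA lbA LA nOA nEA 200 2).getD 3 0 ≤ (v : ℤ) - 64 at hb
  rw [uA] at hb
  norm_num at hb
  have hv : 70 ≤ v := by omega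
  obtain ⟨s, s', h1, d, d'⟩ := hR z x x' h hl
  refine ⟨s, s', ?_, d, d'⟩
  unfold RA
  rw [List.mem_filter]
  refine ⟨h1, ?_⟩
  have key : ∀ {y y' : P}, Cg z y y' → Dt 10 y (5, 25, 0) → ∀ s, Dt 10 y' s →
      s = (1, 3, 0) ∨ s = (1, 4, 0) → False := by
    intro y y' hy hd s hs h3
    have sd := K.sd hy.symm hl hs
    have h4 := K.mn_e6 W F M hy hl (K.e6_of hy hl hd) sd
    have h5 := sd.nf (by rcases h3 with rfl | rfl <;> norm_num)
    rcases h3 with rfl | rfl <;> simp only at h4 <;> omega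
  by_contra hcon
  rw [Bool.not_eq_true', Bool.not_eq_false] at hcon
  simp only [Bool.or_eq_true, beq_iff_eq, Prod.mk.injEq] at hcon
  rcases hcon with ((⟨h2, h3⟩ | ⟨h2, h3⟩) | ⟨h2, h3⟩) | ⟨h2, h3⟩
  · exact key h.symm (h3 ▸ d') s d (Or.inl h2)
  · exact key h (h2 ▸ d) s' d' (Or.inl h3)
  · exact key h.symm (h3 ▸ d') s d (Or.inr h2)
  · exact key h (h2 ▸ d) s' d' (Or.inr h3)


end Pool.Agent.GaussPoset.Sm
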