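import Pool.Agent.W_448jx_h67.WtA

/-!
The tables of the window `2`, cap `20` (MP_448cb3_co, HJoin10)
-/

namespace Pool.Agent.GaussPoset.Sm

set_option linter.unusedSectionVars false

open Finset Wd

/-- lines with `g`, by `κ`, window `2`, cap `20` -/
def LB : List (List ℤ) :=
  [[], [], [3], [-2, -1, 0, 1, 2, 3], [-11, -7, -6, -5, -4, -3, -2, -1, 0, 1, 2, 3, 8], [-20, -6,
  -3, -2, -1, 0, 1, 2, 3, 4, 5, 6, 7], [-27, -25, -24, -23, -22, -18, -11, -10, -9, -8, -7, -6,
  -5, -4, -3], [-22, -17], [-34, -29, -27, -26, -25, -24, -23], [], [-50, -45], [-55, -54, -53]]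

/-- caps, window `2`, cap `20` -/
def cpB : ℕ → ℤ := pk 57 44 20 0

/-- odd noise, window `2`, cap `20` -/
def nOB : ℕ → ℤ → Bool :=
  pk nf nf (fun V => ([-9] : List ℤ).elem V) nf

/-- even noise, window `2`, cap `20` -/
def nEB : ℕ → ℤ → Bool :=
  pk nf (nz 10) (fun V => nz 9 V || ([] : List ℤ).elem V)
    nf

/-- lower bounds, window `2`, cap `20` -/
def lbB : ℕ → ℤ := pk 0 0 (-81) 0

set_option maxRecDepth 100000 in
theorem tabB : Tab2 10 2 cpB LB E10 S10r S10b (XR RA) := by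
  refine ⟨by norm_num, chkE10, chkT10, ?_, ?_, ?_, ?_, ?_, ?_, ?_, ?_, ?_⟩
  · decide +kernel
  · decide +kernel
  · decide +kernel
  · decide +kernel
  · intro _ h
    decide +kernel
  · decide +kernel
  · decide +kernel
  · decide +kernel
  · decide +kernel

lemma uB : ubd 10 2 cpB lbB LB nOB nEB 200 5 = [48, 43, 21] := by
  decide +kernel

lemma restB : ∀ p ∈ rest 10 E10 (XR RA) [48, 43, 21], p ∈ RB := by
  decide +kernel

end Pool.Agent.GaussPoset.Sm
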