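import Pool.Agent.W_448jx_h67.WeV
import Pool.Agent.W_448jx_h67.WtC

/-!
The pairs of ends which are left after the window `2`, cap `20` (MP_448cb3_co, HJoin10)
-/

namespace Pool.Agent.GaussPoset.Sm

set_option linter.unusedSectionVars false

open Finset Wd

universe u

variable {P : Type u} [Fintype P] [PartialOrder P] [DecidableEq P] {r : ℕ}
  {lo hi : Tops P → ℕ → ℕ} {e : Tops P → ℕ → ℕ → P}

/-- **the pairs of ends which are left after the window `2`, cap `20`** -/
theorem Ctx.hRB (K : Ctx P r 10 lo hi e) : HR P RB := by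
  have hR0 : HR P R10 := fun z x x' h hl => left10 K h hl
  have hR : HR P RA := K.hRA
  intro z x x' h hl
  have hJ : ∃ z : P, Hul.Jn z := ⟨z, h.jn⟩
  obtain ⟨V0, V1, B0, B1⟩ := K.win01 hJ
  obtain ⟨N, θ, W, hu⟩ := K.exists_we (w := 2) (K0 := 110) (Or.inl rfl) (by norm_num)
    (by decide +kernel) (by decide +kernel)
  have F := W.fs0 (Kc := 101) (by norm_num) (fun h => by norm_num at h)
  obtain ⟨v, M, B2⟩ := K.winE (Or.inl rfl) W hu F (inE_B K hR0)
    (W.cellsC (by norm_num) (by norm_num) (by norm_num) numB (fun h => h.elim) (fun h => h.elim)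
      (fun h => h.elim) (fun h => h.elim))
    (cT := 20) (lb := -81) (by norm_num) (by norm_num) (by norm_num) (by norm_num)
    (by decide) (by decide) hJ
  have l1 := (h.lev_eq K.gt.H).1
  have l2 := (h.lev_eq K.gt.H).2
  obtain ⟨s, s', h1, d, d'⟩ := K.left2 (V := pk V0 V1 ((v : ℤ) - 81) 0) hR.noP tabB
    (nO := nOB) (nE := nEB) (lb := lbB) (fun w hw => by
      have hw' : w = 0 ∨ w = 1 ∨ w = 2 := by omega
      rcases hw' with rfl | rfl | rfl
      · exact B0
      · exact B1
      · exact B2) 200 5 h hl (sok11 (by omega)) (sok11 (by omega))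
  rw [uB] at h1
  exact ⟨s, s', restB _ h1, d, d'⟩

end Pool.Agent.GaussPoset.Sm
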