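import Pool.Agent.W_448jx_h67.WeN

/-!
The numerical conditions for the windows `2`, caps `32`, `35`, and `3`, cap `30`
(MP_448cb3_co, HJoin10)
-/

namespace Pool.Agent.GaussPoset.Sm

set_option linter.unusedSectionVars false

open Finset Wd

lemma numC : NumC False False True 10 2 113 [24] [-9, 30, 31, 32] := by
  constructor <;> decide +kernel

lemma numD : NumC False False True 10 2 116 [24, 34, 35] [-9] := by
  constructor <;> decide +kernel

lemma numG : NumC True True True 10 3 94 [-24, 29] [-10] := by
  constructor <;> decide +kernel

end Pool.Agent.GaussPoset.Sm
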