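import Pool.Agent.W_448jx_h67.WeR
import Pool.Agent.W_448j10_h67.JcC

/-!
Level 10, window 5: the joins of the level 11, costs and thresholds (MP_448cb3_co, HJoin10)
-/

namespace Pool.Agent.GaussPoset.J10

set_option linter.unusedSectionVars false

open Finset Dd Wd Cl J8

universe u

variable {P : Type u} [Fintype P] [PartialOrder P] [DecidableEq P] {r : ℕ}

/-- the kinds of the ends with their numbers -/
lemma En.num {θ : P → ℕ} {x : P} (E : En θ x) :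
    (5 ≤ θ x ∧ nab 2 x = 1 ∧ nab 3 x = 1 ∧ nab 4 x = 1 ∧ nab 5 x = 1) ∨
    (θ x = 0 ∧ nab 2 x = 1 ∧ nab 3 x = 1 ∧ nab 4 x = 1 ∧ nab 5 x = 2 ∧ nab 6 x = 1 ∧
      nab 7 x = 1 ∧ nab 8 x = 1) ∨
    (θ x = 2 ∧ nab 2 x = 1 ∧ nab 3 x = 1 ∧ nab 4 x = 2 ∧ nab 5 x = 2 ∧ nab 6 x = 2 ∧
      nab 7 x = 2 ∧ nab 8 x = 2) ∨
    (θ x = 2 ∧ nab 2 x = 1 ∧ nab 3 x = 2 ∧ nab 4 x = 2 ∧ nab 5 x = 2 ∧ nab 6 x = 2 ∧
      nab 7 x = 2 ∧ nab 8 x = 1) ∨
    (θ x = 1 ∧ nab 2 x = 2 ∧ nab 3 x = 2 ∧ nab 4 x = 3 ∧ nab 5 x = 3 ∧ nab 6 x = 3 ∧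
      nab 7 x = 2 ∧ nab 8 x = 2) := by
  rcases E with ⟨h, hn⟩ | ⟨h, hn⟩ | ⟨h, hn⟩ | ⟨h, hn⟩ | ⟨h, hn⟩
  · exact Or.inl ⟨h, hn 2 (by norm_num), hn 3 (by norm_num), hn 4 (by norm_num),
      hn 5 (by norm_num)⟩
  · exact Or.inr (Or.inl ⟨h, hn 2 (by norm_num), hn 3 (by norm_num), hn 4 (by norm_num),
      hn 5 (by norm_num), hn 6 (by norm_num), hn 7 (by norm_num), hn 8 (by norm_num)⟩)
  · exact Or.inr (Or.inr (Or.inl ⟨h, hn 2 (by norm_num), hn 3 (by norm_num), hn 4 (by norm_num),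
      hn 5 (by norm_num), hn 6 (by norm_num), hn 7 (by norm_num), hn 8 (by norm_num)⟩))
  · exact Or.inr (Or.inr (Or.inr (Or.inl ⟨h, hn 2 (by norm_num), hn 3 (by norm_num),
      hn 4 (by norm_num), hn 5 (by norm_num), hn 6 (by norm_num), hn 7 (by norm_num),
      hn 8 (by norm_num)⟩)))
  · exact Or.inr (Or.inr (Or.inr (Or.inr ⟨h, hn 2 (by norm_num), hn 3 (by norm_num),
      hn 4 (by norm_num), hn 5 (by norm_num), hn 6 (by norm_num), hn 7 (by norm_num),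
      hn 8 (by norm_num)⟩)))

section

variable {θ : P → ℕ} {x : P}

lemma En.v15 (E : En θ x) (d : Sm.Sd x (1, 5, 0)) : θ x = 0 ∧ nab 5 x = 2 ∧ nab 6 x = 1 ∧
    nab 7 x = 1 ∧ nab 8 x = 1 := by
  have a := d.A
  have b := d.B
  have g := d.G
  have l6 := d.l6
  have l7 := d.l7
  simp only at a b g
  rcases E.num with h | h | h | h | h <;> omega

lemma En.vF (E : En θ x) (d : Sm.Sd x (10, 50, 1)) : θ x = 1 ∧ nab 5 x = 3 ∧ nab 6 x = 3 ∧
    nab 7 x = 2 ∧ nab 8 x = 2 := by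
  have a := d.A
  have b := d.B
  have g := d.G
  have l6 := d.l6
  have l7 := d.l7
  simp only at a b g
  rcases E.num with h | h | h | h | h <;> omega

lemma En.v7 (E : En θ x) (d : Sm.Sd x (5, 20, 1)) : θ x = 2 ∧ nab 5 x = 2 ∧ nab 6 x = 2 ∧
    nab 7 x = 2 ∧ nab 8 x = 2 := by
  have a := d.A
  have b := d.B
  have g := d.G
  have l6 := d.l6
  have l7 := d.l7
  simp only at a b g
  rcases E.num with h | h | h | h | h <;> omega

lemma En.v6 (E : En θ x) (d : Sm.Sd x (5, 25, 0)) : θ x = 2 ∧ nab 5 x = 2 ∧ nab 6 x = 2 ∧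
    nab 7 x = 2 ∧ nab 8 x = 1 := by
  have a := d.A
  have b := d.B
  have g := d.G
  have l6 := d.l6
  have l7 := d.l7
  simp only at a b g
  rcases E.num with h | h | h | h | h <;> omega

lemma En.v12 (E : En θ x) (d : Sm.Sd x (1, 2, 1)) : 5 ≤ θ x ∧ nab 5 x = 1 ∧ nab 6 x = 1 ∧
    nab 7 x = 1 ∧ nab 8 x = 2 := by
  have a := d.A
  have b := d.B
  have g := d.G
  have l6 := d.l6
  have l7 := d.l7
  simp only at a b g
  rcases E.num with h | h | h | h | h <;> omega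

lemma En.v13 (E : En θ x) (d : Sm.Sd x (1, 3, 0)) : 5 ≤ θ x ∧ nab 5 x = 1 ∧ nab 6 x = 1 ∧
    nab 7 x = 2 ∧ nab 8 x = 1 := by
  have a := d.A
  have b := d.B
  have g := d.G
  have l6 := d.l6
  have l7 := d.l7
  simp only at a b g
  rcases E.num with h | h | h | h | h <;> omega

lemma En.v14 (E : En θ x) (d : Sm.Sd x (1, 4, 0)) : 5 ≤ θ x ∧ nab 5 x = 1 ∧ nab 6 x = 2 ∧
    nab 7 x = 1 ∧ nab 8 x = 1 := by
  have a := d.A
  have b := d.B
  have g := d.G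
  have l6 := d.l6
  have l7 := d.l7
  simp only at a b g
  rcases E.num with h | h | h | h | h <;> omega

lemma En.v39 (E : En θ x) (d : Sm.Sd x (3, 9, 1)) : 5 ≤ θ x ∧ nab 5 x = 1 ∧ nab 6 x = 2 ∧
    nab 7 x = 2 ∧ nab 8 x = 2 := by
  have a := d.A
  have b := d.B
  have g := d.G
  have l6 := d.l6
  have l7 := d.l7
  simp only at a b g
  rcases E.num with h | h | h | h | h <;> omega

end

/-- the cost and the exponent of a join -/
lemma jn_num {h : P → ℕ} {z x y : P} (hl : lev z = 11)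
    (hs : ∀ k, k ≤ 10 → nab k z = nab k x + nab k y) {s s' : ℕ × ℕ × ℕ} (d : Sm.Sd x s)
    (d' : Sm.Sd y s') :
    (h z = 1 → cst 5 h z = nab 6 x + nab 6 y + (nab 7 x + nab 7 y) + (nab 8 x + nab 8 y) + 5 ∧
      nst 5 h z = nab 5 x + nab 5 y) ∧
    (h z = 2 → cst 5 h z = nab 6 x + nab 6 y + 2 * (nab 7 x + nab 7 y) +
      2 * (nab 8 x + nab 8 y) + 10 ∧ nst 5 h z = nab 5 x + nab 5 y + (nab 6 x + nab 6 y)) ∧
    (h z = 3 → cst 5 h z = nab 6 x + nab 6 y + 2 * (nab 7 x + nab 7 y) +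
      3 * (nab 8 x + nab 8 y) + 15) := by
  have e9 := d.n9
  have e10 := d.n10
  have f9 := d'.n9
  have f10 := d'.n10
  have c := cst11 (h := h) hl
  rw [hs 6 (by omega), hs 7 (by omega), hs 8 (by omega), hs 9 (by omega), hs 10 (by omega),
    e9, e10, f9, f10] at c
  refine ⟨fun h1 => ?_, fun h1 => ?_, fun h1 => ?_⟩
  · rw [h1] at c
    refine ⟨by rw [c]; norm_num, ?_⟩
    rw [nst_eq, h1]
    simp only [Finset.sum_range_succ, Finset.sum_range_zero]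
    rw [hs 5 (by omega)]
    omega
  · rw [h1] at c
    refine ⟨by rw [c]; norm_num, ?_⟩
    rw [nst_eq, h1]
    simp only [Finset.sum_range_succ, Finset.sum_range_zero]
    rw [hs 5 (by omega), hs 6 (by omega)]
    omega
  · rw [h1] at c
    rw [c]
    norm_num

end Pool.Agent.GaussPoset.J10
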