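import Pool.Agent.W_448jx_h67.WfA

/-!
Level 10, window 5: the joins of the level 11 by their costs (MP_448cb3_co, HJoin10)
-/

namespace Pool.Agent.GaussPoset.J10

set_option linter.unusedSectionVars false

open Finset Dd Wd Cl J8

universe u

variable {P : Type u} [Fintype P] [PartialOrder P] [DecidableEq P] {r : ℕ}

/-- the joins by their costs; `h` = the label -/
inductive JK (h : P → ℕ) (z : P) : ℕ × ℕ × ℕ → ℕ × ℕ × ℕ → Prop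
  | q (hh : h z = 1) (hc : cst 5 h z = 15) (hn : nst 5 h z = 5) (h5 : nab 5 z = 5)
      (h6 : nab 6 z = 4) : JK h z (1, 5, 0) (10, 50, 1)
  | a (hh : h z = 2) (hc : cst 5 h z = 28) : JK h z (10, 50, 1) (1, 2, 1)
  | b (hh : h z = 2) (hc : cst 5 h z = 28) : JK h z (10, 50, 1) (1, 3, 0)
  | c (hh : h z = 2) (hc : cst 5 h z = 27) : JK h z (10, 50, 1) (1, 4, 0)
  | d (hh : h z = 2) (hc : cst 5 h z = 31) : JK h z (10, 50, 1) (3, 9, 1)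
  | e7 (hh : h z = 2) (hc : cst 5 h z = 31) (hn : nst 5 h z = 10) (h5 : nab 5 z = 5)
      (h7 : nab 7 z = 4) : JK h z (10, 50, 1) (5, 20, 1)
  | e6 (hh : h z = 2) (hc : cst 5 h z = 29) (hn : nst 5 h z = 10) (h5 : nab 5 z = 5)
      (h7 : nab 7 z = 4) : JK h z (10, 50, 1) (5, 25, 0)
  | f (hh : h z = 2) (hc : cst 5 h z = 32) (hn : nst 5 h z = 12) (h5 : nab 5 z = 6)
      (h7 : nab 7 z = 4) : JK h z (10, 50, 1) (10, 50, 1)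
  | far {s s' : ℕ × ℕ × ℕ} (h1 : s ≠ (10, 50, 1)) (h2 : s' ≠ (10, 50, 1))
      (hc : 33 ≤ cst 5 h z) : JK h z s s'

section

variable {lo hi : Tops P → ℕ → ℕ} {e : Tops P → ℕ → ℕ → P} {Kc : ℕ} {w : Tops P → ℕ}
  {ρ : Tops P → ℤ} {S : Tops P → Finset P} {θ : Tops P → P → ℕ} {B : Tops P → P → Prop}

/-- **the joins by their costs** -/
theorem C10.jk (W : C10 P r lo hi e Kc w ρ S θ B) {R : List ((ℕ × ℕ × ℕ) × (ℕ × ℕ × ℕ))}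
    (hR : Sm.HR P R) (hRB : ∀ p ∈ R, p ∈ Sm.RB) {z x y : P} (h : Sm.Cg z x y)
    (hl : lev z = 11) (hh : h10 S θ z = th10 θ x + 1) (hm : th10 θ x ≤ th10 θ y) :
    ∃ s s', (s, s') ∈ R ∧ Sm.Dt 10 x s ∧ Sm.Dt 10 y s' ∧ JK (h10 S θ) z s s' := by
  have H := W.K.gt.H
  obtain ⟨s, s', h1, dx, dy⟩ := hR z x y h hl
  refine ⟨s, s', h1, dx, dy, ?_⟩
  have ex := W.K.sd h hl dx
  have ey := W.K.sd h.symm hl dy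
  have l1 := (h.lev_eq H).1
  have l2 := (h.lev_eq H).2
  have Ex := (W.td (topOf x)).ends x (le_topOf x) (by omega) (W.K.ends h hl).1
  have Ey := (W.td (topOf y)).ends y (le_topOf y) (by omega) (W.K.ends h hl).2
  have hs := h.sums H hl
  obtain ⟨c1, c2, c3⟩ := jn_num (h := h10 S θ) hl hs ex ey
  have s5 := hs 5 (by omega)
  have s6 := hs 6 (by omega)
  have s7 := hs 7 (by omega)
  unfold th10 at hh hm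
  obtain ⟨s1, s2, s3⟩ := s
  obtain ⟨t1, t2, t3⟩ := s'
  have h2 := hRB _ h1
  unfold Sm.RB at h2
  simp only [List.mem_cons, Prod.mk.injEq, List.not_mem_nil, or_false] at h2
  clear h1 dx dy hR hRB
  rcases h2 with ⟨⟨rfl, rfl, rfl⟩, ⟨rfl, rfl, rfl⟩⟩ |
    ⟨⟨rfl, rfl, rfl⟩, ⟨rfl, rfl, rfl⟩⟩ |
    ⟨⟨rfl, rfl, rfl⟩, ⟨rfl, rfl, rfl⟩⟩ |
    ⟨⟨rfl, rfl, rfl⟩, ⟨rfl, rfl, rfl⟩⟩ |
    ⟨⟨rfl, rfl, rfl⟩, ⟨rfl, rfl, rfl⟩⟩ |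
    ⟨⟨rfl, rfl, rfl⟩, ⟨rfl, rfl, rfl⟩⟩ |
    ⟨⟨rfl, rfl, rfl⟩, ⟨rfl, rfl, rfl⟩⟩ |
    ⟨⟨rfl, rfl, rfl⟩, ⟨rfl, rfl, rfl⟩⟩ |
    ⟨⟨rfl, rfl, rfl⟩, ⟨rfl, rfl, rfl⟩⟩ |
    ⟨⟨rfl, rfl, rfl⟩, ⟨rfl, rfl, rfl⟩⟩ |
    ⟨⟨rfl, rfl, rfl⟩, ⟨rfl, rfl, rfl⟩⟩ |
    ⟨⟨rfl, rfl, rfl⟩, ⟨rfl, rfl, rfl⟩⟩ |
    ⟨⟨rfl, rfl, rfl⟩, ⟨rfl, rfl, rfl⟩⟩ |
    ⟨⟨rfl, rfl, rfl⟩, ⟨rfl, rfl, rfl⟩⟩ |
    ⟨⟨rfl, rfl, rfl⟩, ⟨rfl, rfl, rfl⟩⟩ |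
    ⟨⟨rfl, rfl, rfl⟩, ⟨rfl, rfl, rfl⟩⟩ |
    ⟨⟨rfl, rfl, rfl⟩, ⟨rfl, rfl, rfl⟩⟩ |
    ⟨⟨rfl, rfl, rfl⟩, ⟨rfl, rfl, rfl⟩⟩ |
    ⟨⟨rfl, rfl, rfl⟩, ⟨rfl, rfl, rfl⟩⟩ |
    ⟨⟨rfl, rfl, rfl⟩, ⟨rfl, rfl, rfl⟩⟩

  · obtain ⟨a1, a2, a3, a4, a5⟩ := Ex.v12 ex
    obtain ⟨b1, b2, b3, b4, b5⟩ := Ey.vF ey
    omega
  · obtain ⟨a1, a2, a3, a4, a5⟩ := Ex.v13 ex
    obtain ⟨b1, b2, b3, b4, b5⟩ := Ey.vF ey
    omega
  · obtain ⟨a1, a2, a3, a4, a5⟩ := Ex.v14 ex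
    obtain ⟨b1, b2, b3, b4, b5⟩ := Ey.vF ey
    omega
  · obtain ⟨a1, a2, a3, a4, a5⟩ := Ex.v15 ex
    obtain ⟨b1, b2, b3, b4, b5⟩ := Ey.vF ey
    have g := c1 (by omega)
    exact JK.q (by omega) (by omega) (by omega) (by omega) (by omega)
  · obtain ⟨a1, a2, a3, a4, a5⟩ := Ex.v39 ex
    obtain ⟨b1, b2, b3, b4, b5⟩ := Ey.v7 ey
    omega
  · obtain ⟨a1, a2, a3, a4, a5⟩ := Ex.v39 ex
    obtain ⟨b1, b2, b3, b4, b5⟩ := Ey.vF ey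
    omega
  · obtain ⟨a1, a2, a3, a4, a5⟩ := Ex.v7 ex
    obtain ⟨b1, b2, b3, b4, b5⟩ := Ey.v39 ey
    have g := c3 (by omega)
    exact JK.far (by decide) (by decide) (by omega)
  · obtain ⟨a1, a2, a3, a4, a5⟩ := Ex.v7 ex
    obtain ⟨b1, b2, b3, b4, b5⟩ := Ey.v7 ey
    have g := c3 (by omega)
    exact JK.far (by decide) (by decide) (by omega)
  · obtain ⟨a1, a2, a3, a4, a5⟩ := Ex.v7 ex
    obtain ⟨b1, b2, b3, b4, b5⟩ := Ey.v6 ey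
    have g := c3 (by omega)
    exact JK.far (by decide) (by decide) (by omega)
  · obtain ⟨a1, a2, a3, a4, a5⟩ := Ex.v7 ex
    obtain ⟨b1, b2, b3, b4, b5⟩ := Ey.vF ey
    omega
  · obtain ⟨a1, a2, a3, a4, a5⟩ := Ex.v6 ex
    obtain ⟨b1, b2, b3, b4, b5⟩ := Ey.v7 ey
    have g := c3 (by omega)
    exact JK.far (by decide) (by decide) (by omega)
  · obtain ⟨a1, a2, a3, a4, a5⟩ := Ex.v6 ex
    obtain ⟨b1, b2, b3, b4, b5⟩ := Ey.vF ey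
    omega
  · obtain ⟨a1, a2, a3, a4, a5⟩ := Ex.vF ex
    obtain ⟨b1, b2, b3, b4, b5⟩ := Ey.v12 ey
    have g := c2 (by omega)
    exact JK.a (by omega) (by omega)
  · obtain ⟨a1, a2, a3, a4, a5⟩ := Ex.vF ex
    obtain ⟨b1, b2, b3, b4, b5⟩ := Ey.v13 ey
    have g := c2 (by omega)
    exact JK.b (by omega) (by omega)
  · obtain ⟨a1, a2, a3, a4, a5⟩ := Ex.vF ex
    obtain ⟨b1, b2, b3, b4, b5⟩ := Ey.v14 ey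
    have g := c2 (by omega)
    exact JK.c (by omega) (by omega)
  · obtain ⟨a1, a2, a3, a4, a5⟩ := Ex.vF ex
    obtain ⟨b1, b2, b3, b4, b5⟩ := Ey.v15 ey
    omega
  · obtain ⟨a1, a2, a3, a4, a5⟩ := Ex.vF ex
    obtain ⟨b1, b2, b3, b4, b5⟩ := Ey.v39 ey
    have g := c2 (by omega)
    exact JK.d (by omega) (by omega)
  · obtain ⟨a1, a2, a3, a4, a5⟩ := Ex.vF ex
    obtain ⟨b1, b2, b3, b4, b5⟩ := Ey.v7 ey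
    have g := c2 (by omega)
    exact JK.e7 (by omega) (by omega) (by omega) (by omega) (by omega)
  · obtain ⟨a1, a2, a3, a4, a5⟩ := Ex.vF ex
    obtain ⟨b1, b2, b3, b4, b5⟩ := Ey.v6 ey
    have g := c2 (by omega)
    exact JK.e6 (by omega) (by omega) (by omega) (by omega) (by omega)
  · obtain ⟨a1, a2, a3, a4, a5⟩ := Ex.vF ex
    obtain ⟨b1, b2, b3, b4, b5⟩ := Ey.vF ey
    have g := c2 (by omega)
    exact JK.f (by omega) (by omega) (by omega) (by omega) (by omega)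

end

end Pool.Agent.GaussPoset.J10
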