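import Pool.Agent.W_448jx_h67.WfB

/-!
Level 10, window 5: the ladder with joins of the level 11 (MP_448cb3_co, HJoin10)
-/

namespace Pool.Agent.GaussPoset.J10

set_option linter.unusedSectionVars false

open Polynomial Finset Dd Wd Cl J8

universe u

variable {P : Type u} [Fintype P] [PartialOrder P] [DecidableEq P] {r : ℕ}

/-- the costs of the joins -/
def kc (p : (ℕ × ℕ × ℕ) × (ℕ × ℕ × ℕ)) : ℕ :=
  if p = ((1, 5, 0), (10, 50, 1)) then 15 else if p = ((10, 50, 1), (1, 2, 1)) then 28 else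
  if p = ((10, 50, 1), (1, 3, 0)) then 28 else if p = ((10, 50, 1), (1, 4, 0)) then 27 else
  if p = ((10, 50, 1), (3, 9, 1)) then 31 else if p = ((10, 50, 1), (5, 20, 1)) then 31 else
  if p = ((10, 50, 1), (5, 25, 0)) then 29 else if p = ((10, 50, 1), (10, 50, 1)) then 32 else 33

lemma kc_le (p : (ℕ × ℕ × ℕ) × (ℕ × ℕ × ℕ)) : kc p ≤ 33 := by
  unfold kc
  split_ifs <;> norm_num

lemma JK.kc_le {h : P → ℕ} {z : P} {s s' : ℕ × ℕ × ℕ} (k : JK h z s s') :
    kc (s, s') ≤ cst 5 h z := by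
  have key : ∀ {p : (ℕ × ℕ × ℕ) × (ℕ × ℕ × ℕ)} {n m : ℕ}, kc p = n → m = n → kc p ≤ m :=
    fun h h' => by omega
  rcases k with ⟨-, hc, -, -, -⟩ | ⟨-, hc⟩ | ⟨-, hc⟩ | ⟨-, hc⟩ | ⟨-, hc⟩ | ⟨-, hc, -, -, -⟩ |
    ⟨-, hc, -, -, -⟩ | ⟨-, hc, -, -, -⟩ | ⟨-, -, hc⟩
  · exact key (by decide) hc
  · exact key (by decide) hc
  · exact key (by decide) hc
  · exact key (by decide) hc
  · exact key (by decide) hc
  · exact key (by decide) hc
  · exact key (by decide) hc
  · exact key (by decide) hc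
  · exact (J10.kc_le _).trans hc

section

variable {lo hi : Tops P → ℕ → ℕ} {e : Tops P → ℕ → ℕ → P} {Kc : ℕ} {w : Tops P → ℕ}
  {ρ : Tops P → ℤ} {S : Tops P → Finset P} {θ : Tops P → P → ℕ} {B : Tops P → P → Prop}
  {R : List ((ℕ × ℕ × ℕ) × (ℕ × ℕ × ℕ))}

/-- the joins cost more than `n` -/
lemma C10.jnok (W : C10 P r lo hi e Kc w ρ S θ B) (hR : Sm.HR P R) (hRB : ∀ p ∈ R, p ∈ Sm.RB)
    {n : ℕ} {σ : ℤ} (hn : ∀ p ∈ R, n < kc p) : JnOK P S θ n σ := by
  intro z _ x y h hl hh hm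
  obtain ⟨s, s', h1, -, -, k⟩ := W.jk hR hRB h hl hh hm
  have := hn _ h1
  have := k.kc_le
  left
  omega

/-- a join is a boundary element; its label -/
lemma C10.jn_min (W : C10 P r lo hi e Kc w ρ S θ B) {z x y : P} (h : Sm.Cg z x y)
    (hl : lev z = 11) : z ∈ bdR (unnat S) ∧ z ∉ CX lo hi S θ ∧
    ((h10 S θ z = th10 θ x + 1 ∧ th10 θ x ≤ th10 θ y) ∨
      (h10 S θ z = th10 θ y + 1 ∧ th10 θ y ≤ th10 θ x)) := by
  classical
  have H := W.K.gt.H
  have l1 := (h.lev_eq H).1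
  have l2 := (h.lev_eq H).2
  have hzR : z ∈ unnat S := by
    rw [mem_unnat]
    intro s hs
    exact h.ne ((W.sys.topOf_eq (W.sys.up s z hs _ h.cov.1.le)).trans
      (W.sys.topOf_eq (W.sys.up s z hs _ h.cov'.1.le)).symm)
  have hzb : z ∈ bdR (unnat S) := by
    unfold bdR
    rw [mem_filter]
    exact ⟨hzR, x, W.nat10 (by omega), h.cov⟩
  refine ⟨hzb, ?_, ?_⟩
  · intro hC
    obtain ⟨-, -, t, Nc, co, F, E, C, -⟩ := mem_CX.mp hC
    have hFt := C.chart.le_t F C.F_mem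
    have hEt := C.chart.le_t E C.S_mem
    have hx : topOf x = t := by
      rcases C.only x h.cov with h1 | h1
      · rw [h1]; exact W.top_of hFt C.lev_F.le
      · rw [h1]; exact W.top_of hEt C.lev_S.le
    have hy : topOf y = t := by
      rcases C.only y h.cov' with h1 | h1
      · rw [h1]; exact W.top_of hFt C.lev_F.le
      · rw [h1]; exact W.top_of hEt C.lev_S.le
    exact h.ne (hx.trans hy.symm)
  · obtain ⟨v, hv, hzv, hh⟩ := hcan_spec (θ := th10 θ) hzb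
    have hh' : h10 S θ z = th10 θ v + 1 := hh
    have hlex := W.h_le h.cov (le_topOf x) (by omega)
    have hley := W.h_le h.cov' (le_topOf y) (by omega)
    unfold th10 at hh' ⊢
    have hne : x ≠ y := fun h1 => h.ne (by rw [h1])
    rcases Sm.cov_two H h.cov h.cov' hne hzv with rfl | rfl
    · left
      exact ⟨hh', by omega⟩
    · right
      exact ⟨hh', by omega⟩

end

end Pool.Agent.GaussPoset.J10
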