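import Pool.Agent.W_448jx_h67.WfC

/-!
Level 10, window 5: the pairs of ends `15|F` and `E6|F` (MP_448cb3_co, HJoin10)
-/

namespace Pool.Agent.GaussPoset.J10

set_option linter.unusedSectionVars false

open Polynomial Finset Dd Wd Cl J8

universe u

variable {P : Type u} [Fintype P] [PartialOrder P] [DecidableEq P] {r : ℕ}
  {R : List ((ℕ × ℕ × ℕ) × (ℕ × ℕ × ℕ))}

/-- the list without a pair -/
def dropP (R : List ((ℕ × ℕ × ℕ) × (ℕ × ℕ × ℕ))) (s s' : ℕ × ℕ × ℕ) :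
    List ((ℕ × ℕ × ℕ) × (ℕ × ℕ × ℕ)) :=
  R.filter fun p => !(p == (s, s') || p == (s', s))

lemma mem_dropP {s s' : ℕ × ℕ × ℕ} {p : (ℕ × ℕ × ℕ) × (ℕ × ℕ × ℕ)} :
    p ∈ dropP R s s' ↔ p ∈ R ∧ p ≠ (s, s') ∧ p ≠ (s', s) := by
  unfold dropP
  rw [List.mem_filter, Bool.not_eq_true', Bool.or_eq_false_iff, beq_eq_false_iff_ne,
    beq_eq_false_iff_ne]

/-- a pair is excluded -/
lemma hr_drop (H : Gr P r) (hR : Sm.HR P R) {s s' : ℕ × ℕ × ℕ}
    (h : ∀ z x y : P, Sm.Cg z x y → lev z = 11 → Sm.Dt 10 x s → Sm.Dt 10 y s' → False) :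
    Sm.HR P (dropP R s s') := by
  intro z x y hz hl
  obtain ⟨t, t', h1, h2, h3⟩ := hR z x y hz hl
  refine ⟨t, t', mem_dropP.mpr ⟨h1, ?_, ?_⟩, h2, h3⟩
  · intro h4
    rw [Prod.mk.injEq] at h4
    exact h z x y hz hl (h4.1 ▸ h2) (h4.2 ▸ h3)
  · intro h4
    rw [Prod.mk.injEq] at h4
    exact h z y x hz.symm hl (h4.2 ▸ h3) (h4.1 ▸ h2)

section

variable {lo hi : Tops P → ℕ → ℕ} {e : Tops P → ℕ → ℕ → P}

/-- data at the window `5` -/
lemma exists_c10 (K : Sm.Ctx P r 10 lo hi e) {Kc : ℕ} (hK1 : 1 ≤ Kc) (hK : Kc ≤ 33)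
    (h25 : Kc ≠ 25) (h7 : Kc ≠ 7) (hL : ∀ t, WordD 10 5 wa5 (lo t) (hi t) →
      ∃ w ρ S θ B, TD Kc t (hi t 5 - lo t 5 + 1) w ρ S θ B) :
    ∃ w ρ S θ B, C10 P r lo hi e Kc w ρ S θ B := by
  have hd : ∀ t, ¬ WordD 10 4 w4d (lo t) (hi t) := no_w4d K.gt K.comp K.shape
  choose w ρ S θ B hT hw hx using fun t : Tops P => exists_td (K := Kc) hK1 hK K.gt (K.comp t)
    (K.shape t) (hd t) (fun W => by
      obtain ⟨w, ρ, S, θ, B, T⟩ := hL t W
      exact ⟨w, ρ, S, θ, B, T, fun h => absurd h h25, fun h => absurd h h7⟩)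
  exact ⟨w, ρ, S, θ, B, K, hT⟩

lemma chkB15 : ∀ p ∈ Sm.RB, 15 ≤ kc p := by decide +kernel

lemma chkB15' : ∀ p ∈ Sm.RB, p.1 ≠ (1, 5, 0) → p.2 ≠ (1, 5, 0) → 27 ≤ kc p := by decide +kernel

/-- **the pair `15|F` is excluded** -/
theorem kill15 (K : Sm.Ctx P r 10 lo hi e) (hR : Sm.HR P Sm.RB) :
    Sm.HR P (dropP Sm.RB (1, 5, 0) (10, 50, 1)) := by
  classical
  have H := K.gt.H
  refine hr_drop H hR ?_
  intro z x y hz hl dx dy
  have h5 := no5_all K (fun w ρ S θ B W n hn hn7 _ => W.jnok hR (fun p hp => hp)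
    (fun p hp => by have := chkB15 p hp; omega))
  obtain ⟨w, ρ, S, θ, B, W⟩ := exists_c10 K (Kc := 16) (by norm_num) (by norm_num)
    (by norm_num) (by norm_num) (fun t D => by
      obtain ⟨w, ρ, S, θ, B, T, -⟩ := tdLa5A K.gt (K.comp t) D (h5 t D)
      exact ⟨_, _, _, _, _, T.mono (K' := 16) (by norm_num) (by norm_num)⟩)
  have hne : Nonempty (Tops P) := ⟨topOf x⟩
  have I := W.ladder hne (N := 15) (by norm_num) (by norm_num) (by norm_num)
    (fun n _ hn _ => W.jnok hR (fun p hp => hp) (fun p hp => by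
      have := chkB15 p hp
      omega))
  obtain ⟨hzb, hzC, hor⟩ := W.jn_min hz hl
  -- the value
  have hval : ∀ z, h10 S θ z = 1 → nst 5 (h10 S θ) z = 5 → nab 5 z = 5 → nab 6 z = 4 →
      Lv (lv P 5).card (Lt 5 (h10 S θ) z) (-1 * (-1) ^ below P 5) := by
    intro z h1 h2 h3 h4
    have := lt_lv (h := h10 S θ) (z := z) (s := 5) (a := 4) (b := 1) h2 h3 (by rw [h1]; exact h4)
      rfl
    simpa using this
  obtain ⟨-, -, -, -, -, -, a7⟩ := W.go hne (n := 15) (by norm_num) (by norm_num) (by norm_num)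
    I.w_ge (fun h => I.q (by omega)) (fun h => by omega) (fun h => by omega)
    (fun h => by omega) (-1) (Or.inr rfl) (fun h => by omega)
    (fun t ht => by
      rcases (W.td t).sg (by omega) with h1 | h1 <;> omega)
    (by
      intro z _ x y h hl hh hm
      obtain ⟨s, s', -, -, -, k⟩ := W.jk hR (fun p hp => hp) h hl hh hm
      rcases k with ⟨h1, hc, hn, g5, g6⟩ | ⟨-, hc⟩ | ⟨-, hc⟩ | ⟨-, hc⟩ | ⟨-, hc⟩ |
        ⟨-, hc, -, -, -⟩ | ⟨-, hc, -, -, -⟩ | ⟨-, hc, -, -, -⟩ | ⟨-, -, hc⟩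
      · right
        exact ⟨hc, Or.inr (hval z h1 hn g5 g6)⟩
      all_goals
        left
        omega)
  have fin : ∀ s s', JK (h10 S θ) z s s' →
      ((s = (1, 5, 0) ∧ s' = (10, 50, 1)) ∨ (s' = (1, 5, 0) ∧ s = (10, 50, 1))) → False := by
    intro s s' k hss
    rcases k with ⟨h1, hc, hn, g5, g6⟩ | ⟨-, hc⟩ | ⟨-, hc⟩ | ⟨-, hc⟩ | ⟨-, hc⟩ |
      ⟨-, hc, -, -, -⟩ | ⟨-, hc, -, -, -⟩ | ⟨-, hc, -, -, -⟩ | ⟨h1, h2, hc⟩
    · exact a7 z hzb hzC hc (hval z h1 hn g5 g6)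
    · exact absurd hss (by decide)
    · exact absurd hss (by decide)
    · exact absurd hss (by decide)
    · exact absurd hss (by decide)
    · exact absurd hss (by decide)
    · exact absurd hss (by decide)
    · exact absurd hss (by decide)
    · rcases hss with ⟨-, h3⟩ | ⟨-, h3⟩
      · exact h2 h3
      · exact h1 h3
  rcases hor with ⟨h1, h2⟩ | ⟨h1, h2⟩
  · obtain ⟨s, s', -, d, d', k⟩ := W.jk hR (fun p hp => hp) hz hl h1 h2
    exact fin s s' k (Or.inl ⟨d.unq10 dx, d'.unq10 dy⟩)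
  · obtain ⟨s, s', -, d, d', k⟩ := W.jk hR (fun p hp => hp) hz.symm hl h1 h2
    exact fin s s' k (Or.inr ⟨d'.unq10 dx, d.unq10 dy⟩)

/-- **The data at the window `5`, cap `33`**, if the pair `15|F` is excluded. -/
theorem exists_c33 (K : Sm.Ctx P r 10 lo hi e) (hR : Sm.HR P R) (hRB : ∀ p ∈ R, p ∈ Sm.RB)
    (h27 : ∀ p ∈ R, 27 ≤ kc p) : ∃ w ρ S θ B, C10 P r lo hi e 33 w ρ S θ B := by
  have h5 := no5_all K (fun w ρ S θ B W n hn hn7 _ => W.jnok hR hRB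
    (fun p hp => by have := h27 p hp; omega))
  have hA := exA_all K h5 (fun w ρ S θ B W n hn hn25 _ => W.jnok hR hRB
    (fun p hp => by have := h27 p hp; omega))
  exact exists_c10 K (by norm_num) (by norm_num) (by norm_num) (by norm_num) (fun t D => by
    obtain ⟨S, θ, B, T⟩ := tdLa5B K.gt (K.comp t) D (h5 t D) (hA t D)
    exact ⟨_, _, _, _, _, T⟩)

/-- **the pair `E6|F` is excluded** if the joins cost at least `29` -/
theorem killE6 (K : Sm.Ctx P r 10 lo hi e) (hR : Sm.HR P R) (hRB : ∀ p ∈ R, p ∈ Sm.RB)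
    (h29 : ∀ p ∈ R, 29 ≤ kc p) :
    Sm.HR P (dropP R (5, 25, 0) (10, 50, 1)) := by
  classical
  have H := K.gt.H
  refine hr_drop H hR ?_
  intro z x y hz hl dx dy
  obtain ⟨w, ρ, S, θ, B, W⟩ := exists_c33 K hR hRB (fun p hp => by have := h29 p hp; omega)
  have hne : Nonempty (Tops P) := ⟨topOf x⟩
  have I := W.ladder hne (N := 29) (by norm_num) (by norm_num) (by norm_num)
    (fun n _ hn _ => W.jnok hR hRB (fun p hp => by
      have := h29 p hp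
      omega))
  obtain ⟨hzb, hzC, hor⟩ := W.jn_min hz hl
  have hval : ∀ z, h10 S θ z = 2 → nst 5 (h10 S θ) z = 10 → nab 5 z = 5 → nab 7 z = 4 →
      Lv (lv P 5).card (Lt 5 (h10 S θ) z) (1 * (-1) ^ below P 5) := by
    intro z h1 h2 h3 h4
    have := lt_lv (h := h10 S θ) (z := z) (s := 10) (a := 4) (b := 0) h2 h3 (by rw [h1]; exact h4)
      rfl
    simpa using this
  obtain ⟨-, -, -, -, -, -, a7⟩ := W.go hne (n := 29) (by norm_num) (by norm_num) (by norm_num)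
    I.w_ge (fun h => I.q (by omega)) (fun h => I.f (by omega)) (fun h => I.e6 (by omega))
    (fun h => I.c7 (by omega)) 1 (Or.inl rfl) (fun h => rfl)
    (fun t ht => by
      rcases (W.td t).sg (by omega) with h1 | h1 <;> omega)
    (by
      intro z _ x y h hl hh hm
      obtain ⟨s, s', g, -, -, k⟩ := W.jk hR hRB h hl hh hm
      have g1 := h29 _ g
      rcases k with ⟨h1, hc, hn, g5, g6⟩ | ⟨-, hc⟩ | ⟨-, hc⟩ | ⟨-, hc⟩ | ⟨-, hc⟩ |
        ⟨-, hc, -, -, -⟩ | ⟨h1, hc, hn, g5, g7⟩ | ⟨-, hc, -, -, -⟩ | ⟨-, -, hc⟩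
      · exact absurd g1 (by decide)
      · exact absurd g1 (by decide)
      · exact absurd g1 (by decide)
      · exact absurd g1 (by decide)
      · left; omega
      · left; omega
      · right
        exact ⟨hc, Or.inr (hval z h1 hn g5 g7)⟩
      · left; omega
      · left; omega)
  have fin : ∀ s s', JK (h10 S θ) z s s' →
      ((s = (5, 25, 0) ∧ s' = (10, 50, 1)) ∨ (s' = (5, 25, 0) ∧ s = (10, 50, 1))) → False := by
    intro s s' k hss
    rcases k with ⟨h1, hc, hn, g5, g6⟩ | ⟨-, hc⟩ | ⟨-, hc⟩ | ⟨-, hc⟩ | ⟨-, hc⟩ |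
      ⟨-, hc, -, -, -⟩ | ⟨h1, hc, hn, g5, g7⟩ | ⟨-, hc, -, -, -⟩ | ⟨h1, h2, hc⟩
    · exact absurd hss (by decide)
    · exact absurd hss (by decide)
    · exact absurd hss (by decide)
    · exact absurd hss (by decide)
    · exact absurd hss (by decide)
    · exact absurd hss (by decide)
    · exact a7 z hzb hzC hc (hval z h1 hn g5 g7)
    · exact absurd hss (by decide)
    · rcases hss with ⟨-, h3⟩ | ⟨-, h3⟩
      · exact h2 h3
      · exact h1 h3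
  rcases hor with ⟨h1, h2⟩ | ⟨h1, h2⟩
  · obtain ⟨s, s', -, d, d', k⟩ := W.jk hR hRB hz hl h1 h2
    exact fin s s' k (Or.inl ⟨d.unq10 dx, d'.unq10 dy⟩)
  · obtain ⟨s, s', -, d, d', k⟩ := W.jk hR hRB hz.symm hl h1 h2
    exact fin s s' k (Or.inr ⟨d'.unq10 dx, d.unq10 dy⟩)

end

end Pool.Agent.GaussPoset.J10
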