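import Pool.Agent.W_448jx_h67.WfD

/-!
Level 10, window 5: the pairs of ends `E7|F` and `F|F`; no joins (MP_448cb3_co, HJoin10)
-/

namespace Pool.Agent.GaussPoset.J10

set_option linter.unusedSectionVars false

open Polynomial Finset Dd Wd Cl J8

universe u

variable {P : Type u} [Fintype P] [PartialOrder P] [DecidableEq P] {r : ℕ}
  {R : List ((ℕ × ℕ × ℕ) × (ℕ × ℕ × ℕ))}

/-- equal terms do not cancel -/
lemma empty_of_sum {ι : Type*} {T : Finset ι} {f : ι → ℤ[X]} {a c B : ℕ}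
    (hf : ∀ z ∈ T, f z = X ^ a * (1 + X) ^ c) (hc : c < B) (h : (1 + X : ℤ[X]) ^ B ∣ ∑ z ∈ T, f z) :
    T = ∅ := by
  rw [Finset.sum_congr rfl hf, Finset.sum_const, nsmul_eq_mul] at h
  obtain ⟨d, rfl⟩ : ∃ d, B = c + 1 + d := ⟨B - (c + 1), by omega⟩
  have h2 : (1 + X : ℤ[X]) ^ c * (1 + X) ∣ (1 + X) ^ c * ((T.card : ℤ[X]) * X ^ a) := by
    rw [← pow_succ]
    refine (pow_dvd_pow _ (by omega)).trans (h.trans (dvd_of_eq ?_))
    ring
  obtain ⟨q, hq⟩ := (mul_dvd_mul_iff_left (one_add_X_pow_ne c)).mp h2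
  have h3 := congrArg (eval (-1)) hq
  rw [eval_mul, eval_mul, eval_add, eval_one, eval_X, eval_pow, eval_X, add_neg_cancel,
    zero_mul, eval_natCast] at h3
  have h4 := (mul_eq_zero.mp h3).resolve_right (pow_ne_zero _ (by norm_num))
  exact Finset.card_eq_zero.mp (by exact_mod_cast h4)

section

variable {lo hi : Tops P → ℕ → ℕ} {e : Tops P → ℕ → ℕ → P} {Kc : ℕ} {w : Tops P → ℕ}
  {ρ : Tops P → ℤ} {S : Tops P → Finset P} {θ : Tops P → P → ℕ} {B : Tops P → P → Prop}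

/-- **the boundary elements of the least cost have no equal terms** -/
theorem C10.kill (W : C10 P r lo hi e 33 w ρ S θ B) (hw : ∀ t, 33 ≤ w t) {n : ℕ} (hn : n < 33)
    (hc : ∀ z ∈ bdR (unnat S), n ≤ cst 5 (h10 S θ) z) {a c : ℕ} (hc1 : 1 ≤ c)
    (hT : ∀ z ∈ bdR (unnat S), cst 5 (h10 S θ) z = n →
      nst 5 (h10 S θ) z = a ∧ nab 5 z = nab (5 + h10 S θ z) z + c) :
    ∀ z ∈ bdR (unnat S), cst 5 (h10 S θ) z ≠ n := by
  classical
  have H := W.K.gt.H
  have L := W.lad hw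
  have h1 := L.plus0 (n := n) hn.le ∅ (by simp) (fun z hz _ => hc z hz) (by simp) (by simp)
  have h2 := L.nat_low hn
  have h3 := dvd_Z H.gauss 5 n
  rw [W.sum_b] at h1 h2
  have h4 : (1 + X : ℤ[X]) ^ (lv P 5).card ∣
      ∑ z ∈ (bdR (unnat S)).filter (fun z => (∀ A ∈ (∅ : Finset (Finset P)), z ∉ A) ∧
        cst 5 (hcan (unnat S) (th10 θ)) z = n), Lt 5 (hcan (unnat S) (th10 θ)) z := by
    rw [Finset.sum_empty, zero_add] at h1
    have h5 := dvd_sub (dvd_sub h3 h1) h2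
    refine h5.trans (dvd_of_eq ?_)
    ring
  intro z hz hzn
  have hzB : c ≤ (lv P 5).card := by
    have h5 : nab 5 z ≤ (lv P 5).card := nab_le z 5
    have := (hT z hz hzn).2
    omega
  have h5 := empty_of_sum (a := below P 5 + a) (c := (lv P 5).card - c) (fun z' hz' => by
    rw [mem_filter] at hz'
    obtain ⟨h6, h7⟩ := hT z' hz'.1 hz'.2.2
    have h8 : nab 5 z' ≤ (lv P 5).card := nab_le z' 5
    have h9 : (lv P 5).card + nab (5 + h10 S θ z') z' - nab 5 z' = (lv P 5).card - c := by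
      omega
    unfold Lt
    rw [show hcan (unnat S) (th10 θ) = h10 S θ from rfl, h6, h9]) (by omega) h4
  have h6 : z ∈ (bdR (unnat S)).filter (fun z => (∀ A ∈ (∅ : Finset (Finset P)), z ∉ A) ∧
        cst 5 (hcan (unnat S) (th10 θ)) z = n) := by
    rw [mem_filter]
    exact ⟨hz, by simp, hzn⟩
  rw [h5] at h6
  exact absurd h6 (Finset.notMem_empty _)

/-- the boundary elements after the ladder -/
lemma C10.late (W : C10 P r lo hi e 33 w ρ S θ B) (I : Inv lo hi w S θ 31) (hR : Sm.HR P R)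
    (hRB : ∀ p ∈ R, p ∈ Sm.RB) {z : P} (hz : z ∈ bdR (unnat S)) :
    33 ≤ cst 5 (h10 S θ) z ∨ ∃ x y s s', Sm.Cg z x y ∧ lev z = 11 ∧ (s, s') ∈ R ∧
      Sm.Dt 10 x s ∧ Sm.Dt 10 y s' ∧ JK (h10 S θ) z s s' := by
  rcases W.kind hz with ⟨t, h1⟩ | ⟨x, h1, -⟩ | ⟨x, h1, -⟩ | ⟨x, h1, -⟩ | ⟨x, h1, h2, -⟩ |
    ⟨t, h1, h2⟩ | ⟨x, y, h1, h2, h3, h4⟩
  · left
    have h2 := I.w_ge t
    have h3 := (W.td t).w_le
    rcases Nat.lt_or_ge (w t) 33 with h4 | h4
    · rcases (W.td t).sg h4 with h5 | h5 <;> omega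
    · omega
  · exact absurd h1 (I.q (by norm_num) z hz x)
  · exact absurd h1 (I.f (by norm_num) z hz x)
  · exact absurd h1 (I.e6 (by norm_num) z hz x)
  · exact absurd h1 (I.c7 (by norm_num) z hz x h2)
  · exfalso
    have h3 : z ∈ CX lo hi S θ := mem_CX.mpr ⟨hz, h2, t, h1⟩
    rw [I.cx (by norm_num)] at h3
    exact absurd h3 (Finset.notMem_empty _)
  · right
    obtain ⟨s, s', g1, g2, g3, g4⟩ := W.jk hR hRB h1 h2 h3 h4
    exact ⟨x, y, s, s', h1, h2, g1, g2, g3, g4⟩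

/-- the last pairs of ends -/
def RL : List ((ℕ × ℕ × ℕ) × (ℕ × ℕ × ℕ)) :=
  [((5, 20, 1), (10, 50, 1)), ((10, 50, 1), (5, 20, 1)), ((10, 50, 1), (10, 50, 1))]

/-- **no joins** -/
theorem no_joins (K : Sm.Ctx P r 10 lo hi e) (hR : Sm.HR P RL) :
    ∀ z : P, lev z = 11 → ¬ Hul.Jn z := by
  classical
  have H := K.gt.H
  have hRB : ∀ p ∈ RL, p ∈ Sm.RB := by decide +kernel
  have hk : ∀ p ∈ RL, 31 ≤ kc p := by decide +kernel
  have hcg : ∀ z x y : P, Sm.Cg z x y → lev z = 11 → False := by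
    intro z0 x0 y0 hz0 hl0
    obtain ⟨w, ρ, S, θ, B, W⟩ := exists_c33 K hR hRB (fun p hp => by have := hk p hp; omega)
    have hne : Nonempty (Tops P) := ⟨topOf x0⟩
    have I := W.ladder hne (N := 31) (by norm_num) (by norm_num) (by norm_num)
      (fun n _ hn _ => W.jnok hR hRB (fun p hp => by
        have := hk p hp
        omega))
    have hw : ∀ t, 33 ≤ w t := by
      intro t
      have h2 := I.w_ge t
      by_contra h3
      rcases (W.td t).sg (by omega) with h5 | h5 <;> omega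
    have k31 : ∀ z ∈ bdR (unnat S), cst 5 (h10 S θ) z ≠ 31 := by
      refine W.kill hw (by norm_num) ?_ (a := 10) (c := 1) le_rfl ?_
      · intro z hz
        rcases W.late I hR hRB hz with h | ⟨x, y, s, s', -, -, h1, -, -, h2⟩
        · omega
        · have := hk _ h1
          have := h2.kc_le
          omega
      · intro z hz hzn
        rcases W.late I hR hRB hz with h | ⟨x, y, s, s', -, -, h1, -, -, h2⟩
        · omega
        · rcases h2 with ⟨-, hc, -, -, -⟩ | ⟨-, hc⟩ | ⟨-, hc⟩ | ⟨-, hc⟩ | ⟨-, hc⟩ |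
            ⟨h3, hc, hn, g5, g7⟩ | ⟨-, hc, -, -, -⟩ | ⟨-, hc, -, -, -⟩ | ⟨-, -, hc⟩
          · omega
          · omega
          · omega
          · omega
          · exact absurd h1 (by decide)
          · rw [h3]
            exact ⟨hn, by rw [g5, g7]⟩
          · omega
          · omega
          · omega
    have key : ∀ z ∈ bdR (unnat S), 33 ≤ cst 5 (h10 S θ) z ∨ (h10 S θ z = 2 ∧
        cst 5 (h10 S θ) z = 32 ∧ nst 5 (h10 S θ) z = 12 ∧ nab 5 z = 6 ∧ nab 7 z = 4) := by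
      intro z hz
      rcases W.late I hR hRB hz with h | ⟨x, y, s, s', -, -, h1, -, -, h2⟩
      · exact Or.inl h
      · rcases h2 with ⟨-, hc, -, -, -⟩ | ⟨-, hc⟩ | ⟨-, hc⟩ | ⟨-, hc⟩ | ⟨-, hc⟩ |
          ⟨-, hc, -, -, -⟩ | ⟨-, hc, -, -, -⟩ | ⟨h3, hc, hn, g5, g7⟩ | ⟨-, -, hc⟩
        · exact absurd h1 (by decide)
        · exact absurd h1 (by decide)
        · exact absurd h1 (by decide)
        · exact absurd h1 (by decide)
        · exact absurd h1 (by decide)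
        · exact absurd hc (k31 z hz)
        · exact absurd h1 (by decide)
        · exact Or.inr ⟨h3, hc, hn, g5, g7⟩
        · exact Or.inl hc
    have k32 : ∀ z ∈ bdR (unnat S), cst 5 (h10 S θ) z ≠ 32 := by
      refine W.kill hw (by norm_num) ?_ (a := 12) (c := 2) (by norm_num) ?_
      · intro z hz
        rcases key z hz with h | h <;> omega
      · intro z hz hzn
        rcases key z hz with h | ⟨h1, -, h3, h4, h5⟩
        · omega
        · rw [h1]
          exact ⟨h3, by rw [h4, h5]⟩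
    -- the join
    obtain ⟨hzb, -, hor⟩ := W.jn_min hz0 hl0
    have h33 : 33 ≤ cst 5 (h10 S θ) z0 := by
      rcases key z0 hzb with h | ⟨-, h, -⟩
      · exact h
      · exact absurd h (k32 z0 hzb)
    have fin : ∀ s s', (s, s') ∈ RL → JK (h10 S θ) z0 s s' → False := by
      intro s s' h1 k
      rcases k with ⟨-, hc, -, -, -⟩ | ⟨-, hc⟩ | ⟨-, hc⟩ | ⟨-, hc⟩ | ⟨-, hc⟩ |
          ⟨-, hc, -, -, -⟩ | ⟨-, hc, -, -, -⟩ | ⟨-, hc, -, -, -⟩ | ⟨h2, h3, -⟩
      · omega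
      · omega
      · omega
      · omega
      · omega
      · omega
      · omega
      · omega
      · unfold RL at h1
        simp only [List.mem_cons, Prod.mk.injEq, List.not_mem_nil, or_false] at h1
        rcases h1 with ⟨-, h4⟩ | ⟨h4, -⟩ | ⟨h4, -⟩
        · exact h3 h4
        · exact h2 h4
        · exact h2 h4
    rcases hor with ⟨h1, h2⟩ | ⟨h1, h2⟩
    · obtain ⟨s, s', g, -, -, k⟩ := W.jk hR hRB hz0 hl0 h1 h2
      exact fin s s' g k
    · obtain ⟨s, s', g, -, -, k⟩ := W.jk hR hRB hz0.symm hl0 h1 h2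
      exact fin s s' g k
  intro z hl hj
  obtain ⟨x, y, h⟩ := K.cross hj (by omega)
  exact hcg z x y h hl

end

end Pool.Agent.GaussPoset.J10
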