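import Pool.Agent.W_448jx_h67.WfC
import Pool.Agent.W_448jx_h67.WeX

/-!
No element below both ends of a stair with a fold, `j = 10` (MP_448cb3_co, HJoin10)
-/

namespace Pool.Agent.GaussPoset.Sm

set_option linter.unusedSectionVars false

open Finset Wd

universe u

variable {P : Type u} [Fintype P] [PartialOrder P] [DecidableEq P] {r : ℕ}
  {lo hi : Tops P → ℕ → ℕ} {e : Tops P → ℕ → ℕ → P} {R : List ((ℕ × ℕ × ℕ) × (ℕ × ℕ × ℕ))}

/-- no element below both ends of a stair with a fold, from its coordinates -/
theorem Ctx.noCC_of10 (K : Ctx P r 10 lo hi e)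
    (hC : ∀ (t : Tops P) (z : P), StairShape 10 (lo t) (hi t) → lo t 10 = 0 → z ⋖ e t 10 5 →
      z ⋖ e t 10 0 → False) : NoCC P 10 := by
  intro z x x' hz hf hzx hzx' hne hu htt
  have H := K.gt.H
  have hg := K.gt.good
  have hl := (H.covBy_iff.mp hzx).2
  have hl' := (H.covBy_iff.mp hzx').2
  have hlx : lev x = 10 := by omega
  have hlx' : lev x' = 10 := by omega
  have n2 := hf.2.2 2 (by omega)
  have hox : x ∈ onlyB (topOf x) := only_of_le H hg (le_topOf x) (by omega)
  have hux : (Win.uc x).card = 1 := by
    obtain ⟨-, -, -, -, -, -, -, -, -, n9, -⟩ := fold_nab10 hf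
    rw [uc_card_nab H (by omega), hlx]
    exact n9
  have C := K.comp (topOf x)
  rcases shape_cases C (by omega) (K.shape (topOf x)) with h | (h | h) | ⟨a, h, h3⟩
  · have := nab_one_of_eq C hox (k := 2) (by omega) (by omega) (h 2 (by omega))
    omega
  · rcases rect_dich' H (chart_rect C H hg h) (by omega) hox (by omega) with g | ⟨g1, g2⟩
    · have := g 2 (by omega)
      omega
    · have := g2 hlx
      omega
  · -- the stair
    have key : ∀ y : P, y ≤ (topOf x : P) → lev y = 10 → (Win.uc y).card = 1 →
        y = e (topOf x) 10 5 ∨ (lo (topOf x) 10 = 0 ∧ y = e (topOf x) 10 0) := by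
      intro y hy hly huy
      obtain ⟨s, a1, a2, a3⟩ := C.surj y hy (by omega)
      rw [hly] at a1 a2 a3
      have b1 := h.hi 10 (by omega)
      have b2 := h.hi 9 (by omega)
      have b3 := h.lo 9 (by omega)
      have b4 := C.lo_step 9 (by omega)
      have b5 := C.lo_le 9 (by omega)
      simp only [show 9 + 1 = 10 from rfl] at b3 b4
      by_cases hs : s = 5
      · left
        rw [← a3, hs]
      · right
        by_cases hs2 : lo (topOf x) 9 + 1 ≤ s
        · exfalso
          have c1 := (C.cov 9 s s (by omega) (by simpa using a1) (by simpa using a2)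
            (by omega) (by omega)).mpr (Or.inl rfl)
          have c2 := (C.cov 9 s (s - 1) (by omega) (by simpa using a1) (by simpa using a2)
            (by omega) (by omega)).mpr (Or.inr (by omega))
          simp only [show 9 + 1 = 10 from rfl, a3] at c1 c2
          have c3 : e (topOf x) 9 s ≠ e (topOf x) 9 (s - 1) := by
            intro hh
            have := C.inj 9 s (s - 1) (by omega) (by omega) (by omega) (by omega) (by omega) hh
            omega
          have c4 := Finset.card_le_card (show ({e (topOf x) 9 s, e (topOf x) 9 (s - 1)} :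
            Finset P) ⊆ Win.uc y from by
              intro q hq
              rw [Win.mem_uc]
              rw [mem_insert, mem_singleton] at hq
              rcases hq with rfl | rfl
              · exact c1
              · exact c2)
          rw [Finset.card_pair c3] at c4
          omega
        · have hs3 : s = 0 := by omega
          subst hs3
          exact ⟨by omega, a3.symm⟩
    rcases key x (le_topOf x) hlx hux with g | ⟨g0, g⟩
    · rcases key x' (by rw [htt]; exact le_topOf x') hlx' hu with g' | ⟨g0', g'⟩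
      · exact hne (g'.trans g.symm)
      · exact hC (topOf x) z h g0' (g ▸ hzx) (g' ▸ hzx')
    · rcases key x' (by rw [htt]; exact le_topOf x') hlx' hu with g' | ⟨g0', g'⟩
      · exact hC (topOf x) z h g0 (g' ▸ hzx') (g ▸ hzx)
      · exact hne (g'.trans g.symm)
  · obtain ⟨e1, e2⟩ := h.low 2 (by have := h3 (by omega); omega)
    have := nab_one_of_eq C hox (k := 2) (by omega) (by omega) (by rw [e1, e2])
    omega

/-- **no element (C)**, if the joins cost at least `31` at the window `5` -/
theorem Ctx.noCC_10 (K : Ctx P r 10 lo hi e) (hR : HR P R) (hRB : ∀ p ∈ R, p ∈ RB)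
    (h31 : ∀ p ∈ R, 31 ≤ J10.kc p) : NoCC P 10 := by
  refine K.noCC_of10 fun t z hS h0 hz5 hz0 => ?_
  have hJ : ∀ {Kc : ℕ} {w : Tops P → ℕ} {ρ : Tops P → ℤ} {S : Tops P → Finset P}
      {θ : Tops P → P → ℕ} {B : Tops P → P → Prop}, J10.C10 P r lo hi e Kc w ρ S θ B →
      ∀ {n : ℕ} {σ : ℤ}, n < 31 → J10.JnOK P S θ n σ := fun W n σ hn =>
    W.jnok hR hRB (fun p hp => by
      have := h31 p hp
      omega)
  have h5 := J10.no5_all K (fun _ _ _ _ _ W n _ hn _ => hJ W (by omega))
  have hA := J10.exA_all K h5 (fun _ _ _ _ _ W n _ hn _ => hJ W (by omega))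
  exact J10.no_cx K (fun t D => ⟨h5 t D, hA t D⟩) (fun _ _ _ _ _ W n _ hn _ => hJ W (by omega))
    t hS h0 hz5 hz0

end Pool.Agent.GaussPoset.Sm
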