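import Pool.Agent.W_448jx_h67.WgA
import Pool.Agent.W_448jx_h67.WeV
import Pool.Agent.W_448jx_h67.WtD
import Pool.Agent.W_448jx_h67.WtE

/-!
The windows `2`, caps `32` and `35` (MP_448cb3_co, HJoin10)
-/

namespace Pool.Agent.GaussPoset.Sm

set_option linter.unusedSectionVars false

open Finset Wd

universe u

variable {P : Type u} [Fintype P] [PartialOrder P] [DecidableEq P] {r w : ℕ}
  {lo hi : Tops P → ℕ → ℕ} {e : Tops P → ℕ → ℕ → P}

/-- the twins of the cell `(5, 6)` and the pendants below them are treated as natural -/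
def FoldP (P : Type u) [Fintype P] [PartialOrder P] [DecidableEq P] (r w Kc : ℕ)
    (b : Tops P → ℕ) : Prop :=
  ∀ (K0 : ℕ) (N : Tops P → Finset P) (θ : Tops P → P → ℕ), We r 10 w K0 N b θ → Unq P w b →
    ∃ (Zf : Finset P) (FT : P → Prop) (hF : P → ℕ), FS P 10 w Kc N b θ Zf FT hF ∧
      (∀ x' ∈ twA N, FoX 10 w N (twT N x') → FT x') ∧
      (∀ z ∈ rA N, ∀ x' ∈ twA N, FT x' → z ⋖ x' → (∀ y, z ⋖ y → y = x') → z ∈ Zf) ∧
      (∀ x' ∈ twA N, FT x' → FoX 10 w N (twT N x'))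

lemma FS.mono {K K' : ℕ} {N : Tops P → Finset P} {b : Tops P → ℕ} {θ : Tops P → P → ℕ}
    {Zf : Finset P} {FT : P → Prop} {hF : P → ℕ} (F : FS P 10 w K N b θ Zf FT hF)
    (h : K' ≤ K) : FS P 10 w K' N b θ Zf FT hF where
  sub := F.sub
  up := F.up
  ft := F.ft
  eq := F.eq
  pos := F.pos
  big := fun z hz hy => by
    have := F.big z hz hy
    omega
  far := fun v M hv => F.far v M (by omega)

lemma f_RC : ∀ p ∈ RC, p.1 = (10, 50, 1) → p.2 = (1, 2, 1) ∨ p.2 = (1, 3, 0) ∨ p.2 = (1, 4, 0) ∨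
    p.2 = (3, 9, 1) ∨ p.2 = (5, 20, 1) ∨ p.2 = (5, 25, 0) ∨ p.2 = (10, 50, 1) := by
  decide +kernel

/-- **the window `2`, cap `32`** -/
theorem inE_C (K : Ctx P r 10 lo hi e) (hR : HR P RC) :
    InE P 2 113 (XL (10 + 1 - 2) [24]) (XL (10 + 1 - 2) [-9, 30, 31, 32]) where
  hcc := Or.inr (by
    refine OkN.okv (y := 10 + 1 - 2) (LE := [24]) (LO := [-9, 30, 31, 32]) ?_
    decide +kernel)
  hfj := by
    rintro z x x' ⟨h, hl, hf⟩
    obtain ⟨s, h1, d⟩ := hR.fold K h hl hf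
    obtain ⟨c1, c2, c3⟩ := fo_join2 hl (h.sums K.gt.H hl) hf d
    have h2 := f_RC _ h1 rfl
    simp only at h2
    show OkL 2 113 _ _ 7 z
    rcases h2 with rfl | rfl | rfl | rfl | rfl | rfl | rfl
    · simp only at c1 c2
      refine okLe_of (c := 113) (n := 25) (by omega) (by omega)
        (Or.inr (c3 (d.nf (by norm_num)))) ?_
      decide +kernel
    · simp only at c1 c2
      refine okLe_of (c := 112) (n := 25) (by omega) (by omega)
        (Or.inr (c3 (d.nf (by norm_num)))) ?_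
      decide +kernel
    · simp only at c1 c2
      refine okLe_of (c := 111) (n := 25) (by omega) (by omega)
        (Or.inr (c3 (d.nf (by norm_num)))) ?_
      decide +kernel
    · left
      simp only at c1
      omega
    · left
      simp only at c1
      omega
    · left
      simp only at c1
      omega
    · left
      simp only at c1
      omega
  hfp := Or.inr (by
    refine OkN.okv (y := 10 + 1 - 2) (LE := [24]) (LO := [-9, 30, 31, 32]) ?_
    decide +kernel)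
  hej := fun h => by norm_num at h
  hep := fun h => by norm_num at h

lemma f_RD : ∀ p ∈ RD, p.1 = (10, 50, 1) → p.2 = (3, 9, 1) ∨ p.2 = (5, 20, 1) ∨
    p.2 = (5, 25, 0) ∨ p.2 = (10, 50, 1) := by
  decide +kernel

/-- **the window `2`, cap `35`** -/
theorem inE_D (K : Ctx P r 10 lo hi e) (hR : HR P RD) :
    InE P 2 116 (XL (10 + 1 - 2) [24, 34, 35]) (XL (10 + 1 - 2) [-9]) where
  hcc := Or.inr (by
    refine OkN.okv (y := 10 + 1 - 2) (LE := [24, 34, 35]) (LO := [-9]) ?_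
    decide +kernel)
  hfj := by
    rintro z x x' ⟨h, hl, hf⟩
    obtain ⟨s, h1, d⟩ := hR.fold K h hl hf
    obtain ⟨c1, c2, c3⟩ := fo_join2 hl (h.sums K.gt.H hl) hf d
    have h2 := f_RD _ h1 rfl
    simp only at h2
    show OkL 2 116 _ _ 7 z
    left
    rcases h2 with rfl | rfl | rfl | rfl <;> simp only at c1 <;> omega
  hfp := Or.inr (by
    refine OkN.okv (y := 10 + 1 - 2) (LE := [24, 34, 35]) (LO := [-9]) ?_
    decide +kernel)
  hej := fun h => by norm_num at h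
  hep := fun h => by norm_num at h

lemma RC_cases : ∀ p ∈ RC, p ∈ RD ∨
    (p.1 = (10, 50, 1) ∧ (p.2 = (1, 2, 1) ∨ p.2 = (1, 3, 0) ∨ p.2 = (1, 4, 0))) ∨
    (p.2 = (10, 50, 1) ∧ (p.1 = (1, 2, 1) ∨ p.1 = (1, 3, 0) ∨ p.1 = (1, 4, 0))) := by
  decide +kernel

/-- **the pairs of ends which are left after the window `2`, cap `32`** -/
theorem Ctx.hRD (K : Ctx P r 10 lo hi e) (hR : HR P RC)
    (hFP : FoldP P r 2 116 (fun t => hi t 2 - lo t 2 + 1)) : HR P RD := by
  intro z x x' h hl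
  have hJ : ∃ z : P, Hul.Jn z := ⟨z, h.jn⟩
  obtain ⟨V0, V1, B0, B1⟩ := K.win01 hJ
  obtain ⟨N, θ, W, hu⟩ := K.exists_we (w := 2) (K0 := 110) (Or.inl rfl) (by norm_num)
    (by decide +kernel) (by decide +kernel)
  obtain ⟨Zf, FT, hF, F0, f1, f2, f3⟩ := hFP 110 N θ W hu
  have F := F0.mono (K' := 113) (by norm_num)
  obtain ⟨v, M, B2⟩ := K.winE (Or.inl rfl) W hu F (inE_C K hR)
    (W.cellsC (by norm_num) (by norm_num) (by norm_num) numC (fun h => h.elim) (fun h => h.elim)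
      (fun _ => f1) (fun _ => f2))
    (cT := 32) (lb := -81) (by norm_num) (by norm_num) (by norm_num) (by norm_num)
    (by decide) (by decide) hJ
  have hb := (K.boundsV (V := pk V0 V1 ((v : ℤ) - 81) 0) hR.noP tabC (nO := nOC) (nE := nEC)
    (lb := lbC) (fun w hw => by
      have hw' : w = 0 ∨ w = 1 ∨ w = 2 := by omega
      rcases hw' with rfl | rfl | rfl
      · exact B0
      · exact B1
      · exact B2) 200 3).2 2 le_rfl
  change (ubd 10 2 cpC lbC LC nOC nEC 200 3).getD 2 0 ≤ (v : ℤ) - 81 at hb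
  rw [uC] at hb
  norm_num at hb
  have hv : 114 ≤ v := by omega
  obtain ⟨s, s', h1, d, d'⟩ := hR z x x' h hl
  have key : ∀ {y y' : P}, Cg z y y' → Dt 10 y (10, 50, 1) → ∀ s, Dt 10 y' s →
      s = (1, 2, 1) ∨ s = (1, 3, 0) ∨ s = (1, 4, 0) → False := by
    intro y y' hy hd s hs h3
    have sd := K.sd hy.symm hl hs
    have h4 := K.mn_fold2 W F M hy hl (K.fold_of hy hl hd) sd
    rcases h3 with rfl | rfl | rfl <;> simp only at h4 <;> omega
  rcases RC_cases _ h1 with h2 | ⟨h2, h3⟩ | ⟨h2, h3⟩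
  · exact ⟨s, s', h2, d, d'⟩
  · exact (key h (h2 ▸ d) s' d' h3).elim
  · exact (key h.symm (h2 ▸ d') s d h3).elim

end Pool.Agent.GaussPoset.Sm
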