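import Pool.Agent.W_448jx_h67.WeU
import Pool.Agent.W_448s7_h27.PoB

/-!
The window `2`: twins of the cells `(2, 9)` and pendants below the cells `(2, 9)` of rectangles
(MP_448cb3_co, HJoin10)
-/

namespace Pool.Agent.GaussPoset.Sm

set_option linter.unusedSectionVars false

open Finset Wd

universe u

variable {P : Type u} [Fintype P] [PartialOrder P] [DecidableEq P] {r w K0 Kc : ℕ}
  {N : Tops P → Finset P} {b : Tops P → ℕ} {θ : Tops P → P → ℕ}

lemma We.typ2 (W : We r 10 2 K0 N b θ) (t : Tops P) : TypeX 10 2 t (b t) (N t) (θ t) :=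
  (W.typ t).resolve_right fun h => by
    have := h.w3
    omega

/-- natural elements at the window `2` which are not straight -/
lemma We.kind2 (W : We r 10 2 K0 N b θ) (L : Unq P 2 b) {y : P} (hy : y ∉ unnat N)
    (hl : 10 ≤ lev y) (h2 : nab 2 y ≠ 1) :
    (∃ Nc co, RectNat 10 2 (topOf y) (b (topOf y)) Nc co ∧ y ∈ Nc ∧ 1 ≤ (co y).1 ∧
      1 ≤ (co y).2 ∧ θ (topOf y) y + min (min (co y).1 (co y).2) 2 = lev y - 2) ∨
    (∃ Nc co, StairNat 10 2 (topOf y) Nc co ∧ y ∈ Nc ∧ 1 ≤ (co y).1 ∧
      θ (topOf y) y + min (co y).1 2 = lev y - 2) := by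
  have HN := W.natSys
  have hyt : y ∈ N (topOf y) := HN.mem_iff.mpr ⟨hy, rfl⟩
  have hth : θ (topOf y) y + 1 ≤ lev y - 2 := by
    rcases W.cases hy hl with h | h | h
    · exact absurd (W.str_nab L hy h hl) h2
    · exact h.th.le
    · exact h.th
  generalize topOf y = t at hyt hth
  rcases W.typ2 t with ⟨g1, g2, g3, g5⟩ | ⟨Nc, co, h0, g1, g2, g4⟩ |
    ⟨Nc, co, h0, g1, g2, g3, g4, g5'⟩
  · exfalso
    rw [g2] at hth
    simp only at hth
    omega
  · left
    rw [g1] at hyt
    rw [g2] at hth
    have hJ : ¬ (y ∈ junk (fun _ => True) Nc co ∨ y ∈ junk (fun _ => True) Nc (swp co)) := by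
      intro hJ
      unfold thR at hth
      rw [if_pos hJ] at hth
      omega
    have hyN : y ∈ Nc := by
      rw [mem_natR] at hyt
      rcases hyt with h | h | h
      · exact h
      · exact absurd (Or.inl h) hJ
      · exact absurd (Or.inr h) hJ
    have h3 := rect_th7 h0 (by norm_num) hyN hJ (by omega)
    exact ⟨Nc, co, h0, hyN, by omega, by omega, by rw [g2]; exact h3⟩
  · right
    rw [g1] at hyt
    rw [g2] at hth
    have hJ : y ∉ junk (fun c => c.1 ≤ c.2) Nc co := by
      intro hJ
      unfold thS at hth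
      rw [if_pos hJ] at hth
      omega
    have hyN : y ∈ Nc := by
      rw [mem_natS] at hyt
      rcases hyt with h | h
      · exact h
      · exact absurd h hJ
    have h3 := stair_th7 h0 (by norm_num) g4 hyN hJ (by omega)
    exact ⟨Nc, co, h0, hyN, by omega, by rw [g2]; exact h3⟩

/-- natural elements which are not straight have different ancestors -/
lemma We.inj2 (W : We r 10 2 K0 N b θ) (L : Unq P 2 b) {x x' : P} (hx : x ∉ unnat N)
    (hx' : x' ∉ unnat N) (hup : ∀ u, x < u ↔ x' < u) (hl : 10 ≤ lev x) (h2 : nab 2 x ≠ 1) :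
    x = x' := by
  have HN := W.natSys
  have e0 : lev x = lev x' := lev_eq_of_up hup
  have hxt : x ∈ N (topOf x) := HN.mem_iff.mpr ⟨hx, rfl⟩
  have hxt' : x' ∈ N (topOf x') := HN.mem_iff.mpr ⟨hx', rfl⟩
  have hne : x ≠ (topOf x : P) := by
    intro h
    have h3 : lev (topOf x : P) = 0 := (topOf x).2
    rw [← h] at h3
    omega
  have htop : topOf x = topOf x' := by
    have h3 : x < (topOf x : P) := lt_of_le_of_ne (le_topOf x) hne
    have h4 : x' ≤ (topOf x : P) := ((hup _).mp h3).le
    exact Subtype.ext (HN.top_eq hxt' (topOf x).2 h4)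
  have h2' : nab 2 x' ≠ 1 := by
    rw [← nab_congr_up (x := x') (y := x) (fun v => hup v) (by omega)]
    exact h2
  have hth : ∀ y : P, y ∉ unnat N → 10 ≤ lev y → nab 2 y ≠ 1 →
      θ (topOf y) y + 1 ≤ lev y - 2 := by
    intro y hy hly hny
    rcases W.cases hy hly with h | h | h
    · exact absurd (W.str_nab L hy h hly) hny
    · exact h.th.le
    · exact h.th
  have t1 := hth x hx hl h2
  have t2 := hth x' hx' (by omega) h2'
  rw [← htop] at t2 hxt'
  generalize topOf x = t at hxt hxt' t1 t2
  rcases W.typ2 t with ⟨g1, g2, g3, g5⟩ | ⟨Nc, co, h0, g1, g2, g4⟩ |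
    ⟨Nc, co, h0, g1, g2, g3, g4, g5'⟩
  · exfalso
    rw [g2] at t1
    simp only at t1
    omega
  · have key : ∀ y : P, y ∈ N t → 7 ≤ lev y → θ t y + 1 ≤ lev y - 2 →
        y ∈ Nc ∧ 1 ≤ (co y).1 := by
      intro y hy hly hty
      rw [g1] at hy
      rw [g2] at hty
      by_cases hJ : y ∈ junk (fun _ => True) Nc co ∨ y ∈ junk (fun _ => True) Nc (swp co)
      · exfalso
        unfold thR at hty
        rw [if_pos hJ] at hty
        omega
      · have hyN : y ∈ Nc := by
          rw [mem_natR] at hy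
          rcases hy with h | h | h
          · exact h
          · exact absurd (Or.inl h) hJ
          · exact absurd (Or.inr h) hJ
        have := rect_th7 h0 (by norm_num) hyN hJ (by omega)
        exact ⟨hyN, by omega⟩
    obtain ⟨a1, a2⟩ := key x hxt (by omega) t1
    obtain ⟨b1, b2⟩ := key x' hxt' (by omega) t2
    exact chart_up_eq (fun _ _ _ => trivial) h0.chart a1 b1 hup a2 b2
  · have key : ∀ y : P, y ∈ N t → 7 ≤ lev y → θ t y + 1 ≤ lev y - 2 →
        y ∈ Nc ∧ 1 ≤ (co y).1 := by
      intro y hy hly hty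
      rw [g1] at hy
      rw [g2] at hty
      by_cases hJ : y ∈ junk (fun c => c.1 ≤ c.2) Nc co
      · exfalso
        unfold thS at hty
        rw [if_pos hJ] at hty
        omega
      · have hyN : y ∈ Nc := by
          rw [mem_natS] at hy
          rcases hy with h | h
          · exact h
          · exact absurd h hJ
        have := stair_th7 h0 (by norm_num) g4 hyN hJ (by omega)
        exact ⟨hyN, by omega⟩
    obtain ⟨a1, a2⟩ := key x hxt (by omega) t1
    obtain ⟨b1, b2⟩ := key x' hxt' (by omega) t2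
    exact chart_up_eq (fun a c h => by simp only at h ⊢; omega) h0.chart a1 b1 hup a2 b2

/-- the cost with the label `8` at the window `2`, level `11` -/
lemma cst2b_11 {z : P} (hl : lev z = 11) : cst 2 (fun _ => 8) z = nab 3 z + 2 * nab 4 z +
    3 * nab 5 z + 4 * nab 6 z + 5 * nab 7 z + 6 * nab 8 z + 7 * nab 9 z + 8 * nab 10 z + 8 := by
  have h1 : nab 11 z = 1 := by rw [← hl]; exact nab_self
  rw [cst_eq, hl]
  simp only [Finset.sum_range_succ, Finset.sum_range_zero, h1]
  norm_num

/-- the cost with the label `9` at the window `2`, level `11` -/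
lemma cst2c_11 {z : P} (hl : lev z = 11) : cst 2 (fun _ => 9) z = nab 3 z + 2 * nab 4 z +
    3 * nab 5 z + 4 * nab 6 z + 5 * nab 7 z + 6 * nab 8 z + 7 * nab 9 z + 8 * nab 10 z + 9 := by
  have h1 : nab 11 z = 1 := by rw [← hl]; exact nab_self
  rw [cst_eq, hl]
  simp only [Finset.sum_range_succ, Finset.sum_range_zero, h1]
  norm_num

/-- the twins of the cells `(2, 9)` -/
lemma We.tw29 (W : We r 10 2 K0 N b θ) (L : Unq P 2 b) {y : P} (hy : y ∈ twA N)
    (hl : lev y = 11) (h2 : nab 2 y ≠ 1) (hp : ∀ k, 4 ≤ k → k ≤ 9 → nab k y = 3)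
    (h10 : nab 10 y = 2) : tcS 10 2 N b θ y ≤ 116 ∧ ¬ FoX 10 2 N (twT N y) := by
  have T := W.twn hy
  have hup := W.twSys.up y hy
  have hnat := W.twSys.nat y hy
  have el : lev (twT N y) = 11 := (lev_eq_of_up hup).trans hl
  have en : ∀ k, k < 11 → nab k (twT N y) = nab k y := fun k hk =>
    nab_congr_up hup (by rw [hl]; exact hk)
  have e2 := en 2 (by norm_num)
  have e3 := en 3 (by norm_num)
  have e4 := (en 4 (by norm_num)).trans (hp 4 le_rfl (by norm_num))
  have e5 := (en 5 (by norm_num)).trans (hp 5 (by norm_num) (by norm_num))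
  have e6 := (en 6 (by norm_num)).trans (hp 6 (by norm_num) (by norm_num))
  have e7 := (en 7 (by norm_num)).trans (hp 7 (by norm_num) (by norm_num))
  have e8 := (en 8 (by norm_num)).trans (hp 8 (by norm_num) (by norm_num))
  have e9 := (en 9 (by norm_num)).trans (hp 9 (by norm_num) le_rfl)
  have e10 := (en 10 (by norm_num)).trans h10
  refine ⟨?_, ?_⟩
  · by_cases hs : Spc 10 2 N b θ (twT N y)
    · have T' := W.twnS hy hs
      obtain ⟨Nc, co, C⟩ := hs
      unfold tcS
      rw [if_pos ⟨Nc, co, C⟩, tcst_cst T']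
      simp only
      have h3 := stair_nab C.nat.chart C.mem (k := 3) (by omega)
      rw [C.co_eq] at h3
      simp only at h3
      rw [show (10 - 2 + 1) = 9 by norm_num, cst2c_11 el]
      omega
    · unfold tcS
      rw [if_neg hs, tcst_cst T]
      simp only
      rw [W.thA_nat hnat]
      have h3 := W.kind2 L hnat (by omega) (by rw [e2]; exact h2)
      rcases h3 with ⟨Nc, co, h0, hN, a1, a2, a3⟩ | ⟨Nc, co, h0, hN, a1, a3⟩
      · have n5 := rect_nab h0.chart hN (k := 5) (by omega)
        have n3 := rect_nab h0.chart hN (k := 3) (by omega)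
        have hlN := h0.chart.lev _ hN
        have h4 : θ (topOf (twT N y)) (twT N y) = 7 := by omega
        rw [h4, show (7 + 1) = 8 by norm_num, cst2b_11 el]
        omega
      · have n3 := stair_nab h0.chart hN (k := 3) (by omega)
        have n5 := stair_nab h0.chart hN (k := 5) (by omega)
        have hlN := h0.chart.lev _ hN
        have hm : (co (twT N y)).1 ≤ (co (twT N y)).2 := h0.chart.mem _ hN
        have h4 : θ (topOf (twT N y)) (twT N y) = 7 := by omega
        rw [h4, show (7 + 1) = 8 by norm_num, cst2b_11 el]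
        omega
  · rintro ⟨Nc, co, h0, h1, h3, h4, h5⟩
    have n9 := stair_nab h0.chart h3 (k := 9) (by omega)
    omega

end Pool.Agent.GaussPoset.Sm
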