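import Pool.Agent.W_448jx_h67.WgB
import Pool.Agent.W_448jx_h67.WgC

/-!
The window `2`, cap `35`: no twins of the cells `(2, 9)`, no pendants below the cells `(2, 9)` of
rectangles (MP_448cb3_co, HJoin10)
-/

namespace Pool.Agent.GaussPoset.Sm

set_option linter.unusedSectionVars false

open Finset Wd

universe u

variable {P : Type u} [Fintype P] [PartialOrder P] [DecidableEq P] {r w K0 Kc : ℕ}
  {N : Tops P → Finset P} {b : Tops P → ℕ} {θ : Tops P → P → ℕ}
  {lo hi : Tops P → ℕ → ℕ} {e : Tops P → ℕ → ℕ → P}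

/-- the cost is at most the one with the full label -/
lemma cst_le_nine {h : P → ℕ} {z : P} (hl : lev z = 11) : cst 2 h z ≤ cst 2 (fun _ => 9) z := by
  unfold cst ez
  refine Finset.sum_le_sum fun y _ => ?_
  split_ifs with hy
  · have h1 : lev y ≤ 11 := by
      rcases eq_or_lt_of_le hy with h2 | h2
      · rw [← h2]; omega
      · have := lev_strictAnti h2
        omega
    simp only
    omega
  · exact le_rfl

/-- at most eight elements on the level `3` -/
lemma Ctx.nab3_le (K : Ctx P r 10 lo hi e) {y : P} (hl : lev y = 11) (h10 : nab 10 y = 2) :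
    nab 3 y ≤ 8 := by
  classical
  have H := K.gt.H
  have hc : (Win.uc y).card = 2 := by
    rw [uc_card_nab H (by omega), hl]
    exact h10
  obtain ⟨c1, c2, hne, he⟩ := Finset.card_eq_two.mp hc
  have hsub : (lv P 3).filter (y ≤ ·) ⊆
      (lv P 3).filter (c1 ≤ ·) ∪ (lv P 3).filter (c2 ≤ ·) := by
    intro u hu
    rw [mem_filter, mem_lv] at hu
    have hyu : y < u := lt_of_le_of_ne hu.2 (by rintro rfl; omega)
    obtain ⟨c, hc1, hc2⟩ := exists_covBy_le_of_lt hyu
    have h1 : c ∈ Win.uc y := Win.mem_uc.mpr hc1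
    rw [he, mem_insert, mem_singleton] at h1
    rw [mem_union, mem_filter, mem_filter, mem_lv]
    rcases h1 with rfl | rfl
    · exact Or.inl ⟨hu.1, hc2⟩
    · exact Or.inr ⟨hu.1, hc2⟩
  have h4 : ∀ c ∈ Win.uc y, nab 3 c ≤ 4 := by
    intro c hc
    have hcv := Win.mem_uc.mp hc
    have hlc := (H.covBy_iff.mp hcv).2
    have h5 := K.nab_le_b (x := c) (w := 3) (by omega) (by omega)
    have h6 := (K.comp (topOf c)).hi_le (k := 3) (by omega)
    omega
  have h5 := h4 c1 (by rw [he]; simp)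
  have h6 := h4 c2 (by rw [he]; simp)
  have h7 := (Finset.card_le_card hsub).trans (Finset.card_union_le _ _)
  have e1 : nab 3 y = ((lv P 3).filter (y ≤ ·)).card := rfl
  have e2 : nab 3 c1 = ((lv P 3).filter (c1 ≤ ·)).card := rfl
  have e3 : nab 3 c2 = ((lv P 3).filter (c2 ≤ ·)).card := rfl
  omega

/-- far elements of level `11` with three elements on the levels `4, …, 9` -/
lemma We.rA29 (W : We r 10 2 K0 N b θ) {Zf : Finset P} {FT : P → Prop} {hF : P → ℕ}
    (F : FS P 10 2 Kc N b θ Zf FT hF) {v : ℕ} (M : MnF 2 N Zf FT hF (tcS 10 2 N b θ) v)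
    {y : P} (hy : y ∈ rA N) (hl : lev y = 11) (hp : ∀ k, 4 ≤ k → k ≤ 9 → nab k y = 3)
    (h10 : nab 10 y = 2) (h3 : nab 3 y ≤ 8) : v ≤ 114 := by
  have H := W.gt.H
  have hc : (Win.uc y).card = 2 := by
    rw [uc_card_nab H (by omega), hl]
    exact h10
  obtain ⟨x, hx⟩ : (Win.uc y).Nonempty := Finset.card_pos.mp (by omega)
  have hyx := Win.mem_uc.mp hx
  have hlx := (H.covBy_iff.mp hyx).2
  have hbd : y ∈ bdR (rA N) :=
    mem_bdR.mpr ⟨hy, x, not_mem_rA.mpr (Or.inl (W.low (by omega))), hyx⟩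
  obtain ⟨g1, -⟩ := F.at11 W hbd hl
  have h4 := M.bd y g1
  have h5 := cst_le_nine (h := hF) hl
  have h6 := cst2c_11 hl
  have n4 := hp 4 le_rfl (by norm_num)
  have n5 := hp 5 (by norm_num) (by norm_num)
  have n6 := hp 6 (by norm_num) (by norm_num)
  have n7 := hp 7 (by norm_num) (by norm_num)
  have n8 := hp 8 (by norm_num) (by norm_num)
  have n9 := hp 9 (by norm_num) le_rfl
  omega

/-- **no twins of the cells `(2, 9)`** -/
theorem Ctx.noE2a (K : Ctx P r 10 lo hi e) (W : We r 10 2 K0 N b θ) (L : Unq P 2 b)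
    {Zf : Finset P} {FT : P → Prop} {hF : P → ℕ} (F : FS P 10 2 Kc N b θ Zf FT hF) {v : ℕ}
    (M : MnF 2 N Zf FT hF (tcS 10 2 N b θ) v)
    (f3 : ∀ x' ∈ twA N, FT x' → FoX 10 2 N (twT N x')) (hv : 117 ≤ v) : NoE2a P 10 := by
  have key : ∀ y : P, lev y = 11 → nab 2 y ≠ 1 → (∀ k, 4 ≤ k → k ≤ 9 → nab k y = 3) →
      nab 10 y = 2 → y ∈ unnat N → False := by
    intro y hl h2 hp h10 hy
    by_cases ht : y ∈ twA N
    · obtain ⟨h3, h4⟩ := W.tw29 L ht hl h2 hp h10
      have h5 := M.tw y ht (fun h => h4 (f3 y ht h))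
      omega
    · have := W.rA29 F M (mem_rA.mpr ⟨hy, ht⟩) hl hp h10 (K.nab3_le hl h10)
      omega
  intro x x' hne hl hup h2 hp h10
  have el : lev x = lev x' := lev_eq_of_up hup
  have en : ∀ k, k < 11 → nab k x' = nab k x := fun k hk =>
    (nab_congr_up (x := x') (y := x) (fun u => hup u) (by omega)).symm
  by_cases hx : x ∈ unnat N
  · exact key x hl h2 (fun k h4 h9 => hp k h4 (by omega)) h10 hx
  · by_cases hx' : x' ∈ unnat N
    · refine key x' (by omega) ?_ (fun k h4 h9 => ?_) ?_ hx'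
      · rw [en 2 (by norm_num)]; exact h2
      · rw [en k (by omega)]; exact hp k h4 (by omega)
      · rw [en 10 (by norm_num)]; exact h10
    · exact hne (W.inj2 L hx hx' hup (by omega) h2)

/-- **no pendants below the cells `(2, 9)` of rectangles** -/
theorem Ctx.noR2 (K : Ctx P r 10 lo hi e) (W : We r 10 2 K0 N b θ) (L : Unq P 2 b)
    {Zf : Finset P} {FT : P → Prop} {hF : P → ℕ} (F : FS P 10 2 Kc N b θ Zf FT hF) {v : ℕ}
    (M : MnF 2 N Zf FT hF (tcS 10 2 N b θ) v)
    (f3 : ∀ x' ∈ twA N, FT x' → FoX 10 2 N (twT N x')) (hv : 117 ≤ v) : NoR2 P 10 := by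
  intro z x hl hp h10 hzx honly
  have H := W.gt.H
  have hlz := (H.covBy_iff.mp hzx).2
  have n2 := hp 2 le_rfl (by norm_num)
  have n3 := hp 3 (by norm_num) (by norm_num)
  have n4 := hp 4 (by norm_num) (by norm_num)
  have n5 := hp 5 (by norm_num) (by norm_num)
  have n6 := hp 6 (by norm_num) (by norm_num)
  have n7 := hp 7 (by norm_num) (by norm_num)
  have n8 := hp 8 (by norm_num) (by norm_num)
  have n9 := hp 9 (by norm_num) (by norm_num)
  have hp' : ∀ k, 4 ≤ k → k ≤ 9 → nab k x = 3 := fun k h4 h9 => hp k (by omega) (by omega)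
  by_cases hx : x ∈ unnat N
  · by_cases ht : x ∈ twA N
    · obtain ⟨h3, h4⟩ := W.tw29 L ht hl (by omega) hp' h10
      have h5 := M.tw x ht (fun h => h4 (f3 x ht h))
      omega
    · have := W.rA29 F M (mem_rA.mpr ⟨hx, ht⟩) hl hp' h10 (by omega)
      omega
  -- `x` is natural
  have hxt : x ∉ twA N := fun h => hx (mem_twA.mp h).1
  have hxA : x ∉ rA N := not_mem_rA.mpr (Or.inl hx)
  have hth : θ (topOf x) x = 7 := by
    rcases W.kind2 L hx (by omega) (by omega) with ⟨Nc, co, h0, hN, a1, a2, a3⟩ |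
      ⟨Nc, co, h0, hN, a1, a3⟩
    · have m5 := rect_nab h0.chart hN (k := 5) (by omega)
      have hlN := h0.chart.lev _ hN
      omega
    · have m2 := stair_nab h0.chart hN (k := 2) (by omega)
      omega
  by_cases hz : z ∈ rA N
  · have hzf : z ∉ Zf := by
      intro h
      obtain ⟨y, hy, -, hzy, -⟩ := F.up z h
      rw [honly y hzy] at hy
      exact hxt hy
    have hzy : ∀ y ∈ Zf, ¬ z ⋖ y := by
      intro y hy h
      rw [honly y h] at hy
      exact hxA (F.sub hy)
    have hbd : z ∈ bdR (rA N) := mem_bdR.mpr ⟨hz, x, hxA, hzx⟩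
    have hbd' : z ∈ bdR (rA N \ Zf) := mem_bdR.mpr
      ⟨mem_sdiff.mpr ⟨hz, hzf⟩, x, fun h => hxA (mem_sdiff.mp h).1, hzx⟩
    have h1 := M.bd z hbd'
    have h2 := F.eq z hbd hzf hzy
    have hbs : GaussPoset.bs N x = x := by
      unfold GaussPoset.bs
      rw [if_neg hxt]
    have hp : ¬ PenS 10 2 N b θ z := by
      rintro ⟨-, y, -, hzy', -, Nc, co, C⟩
      rw [honly y hzy', hbs] at C
      have m2 := stair_nab C.nat.chart C.mem (k := 2) (by omega)
      rw [C.co_eq] at m2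
      simp only at m2
      omega
    have hC : ¬ CEl 10 2 N θ z := by
      rintro ⟨-, h, -⟩
      omega
    have h3 := W.hA_le hxA hzx
    rw [hbs, hth] at h3
    rw [hS_not hp, hC_not hC] at h2
    rw [cst_const, h2] at h1
    have h4 : cst 2 (fun _ => hA N θ z) z ≤ cst 2 (fun _ => 8) z := cst_mono_const h3
    have h5 := cst_only (i := 2) (h := fun _ => 8) H.gradedBelow hzx honly
    simp only at h5
    have h6 := cst2b_11 hl
    omega
  · -- `z` is natural or a twin
    obtain ⟨y, hy, hup⟩ : ∃ y, y ∉ unnat N ∧ ∀ u, y < u ↔ z < u := by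
      by_cases h : z ∈ unnat N
      · by_cases ht : z ∈ twA N
        · exact ⟨twT N z, W.twSys.nat z ht, W.twSys.up z ht⟩
        · exact absurd (mem_rA.mpr ⟨h, ht⟩) hz
      · exact ⟨z, h, fun u => Iff.rfl⟩
    have el : lev y = lev z := lev_eq_of_up hup
    have e2 : nab 2 y = 3 := by
      rw [nab_congr_up hup (by omega), nab_only honly hzx (by omega)]
      exact n2
    have huc : (Win.uc y).card ≤ 1 := by
      rw [Finset.card_le_one]
      intro a ha c hc
      rw [Win.mem_uc] at ha hc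
      rw [honly a ((cov_of_up hup).mp ha), honly c ((cov_of_up hup).mp hc)]
    rcases W.kind2 L hy (by omega) (by omega) with ⟨Nc, co, h0, hN, a1, a2, a3⟩ |
      ⟨Nc, co, h0, hN, a1, a3⟩
    · have h3 := chart_inner_uc h0.chart H hN (by omega) (by omega)
      omega
    · have m2 := stair_nab h0.chart hN (k := 2) (by omega)
      omega

/-- **the window `2`, cap `35`** -/
theorem Ctx.stepD (K : Ctx P r 10 lo hi e) (hR : HR P RD)
    (hFP : FoldP P r 2 116 (fun t => hi t 2 - lo t 2 + 1)) (hJ : ∃ z : P, Hul.Jn z) :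
    HR P RDD ∧ NoE2a P 10 ∧ NoR2 P 10 := by
  have H := K.gt.H
  obtain ⟨V0, V1, B0, B1⟩ := K.win01 hJ
  obtain ⟨N, θ, W, hu⟩ := K.exists_we (w := 2) (K0 := 110) (Or.inl rfl) (by norm_num)
    (by decide +kernel) (by decide +kernel)
  obtain ⟨Zf, FT, hF, F, f1, f2, f3⟩ := hFP 110 N θ W hu
  obtain ⟨v, M, B2⟩ := K.winE (Or.inl rfl) W hu F (inE_D K hR)
    (W.cellsC (by norm_num) (by norm_num) (by norm_num) numD (fun h => h.elim) (fun h => h.elim)
      (fun _ => f1) (fun _ => f2))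
    (cT := 35) (lb := -81) (by norm_num) (by norm_num) (by norm_num) (by norm_num)
    (by decide) (by decide) hJ
  have hB : ∀ w ≤ 2, WinB P 10 w (cpD w) (nOD w) (nED w) (lbD w)
      (pk V0 V1 ((v : ℤ) - 81) 0 w) := by
    intro w hw
    have hw' : w = 0 ∨ w = 1 ∨ w = 2 := by omega
    rcases hw' with rfl | rfl | rfl
    · exact B0
    · exact B1
    · exact B2
  have hb := (K.boundsV (V := pk V0 V1 ((v : ℤ) - 81) 0) hR.noP tabD (nO := nOD) (nE := nED)
    (lb := lbD) hB 200 3).2 2 le_rfl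
  change (ubd 10 2 cpD lbD LD nOD nED 200 3).getD 2 0 ≤ (v : ℤ) - 81 at hb
  rw [uD] at hb
  norm_num at hb
  have hv : 117 ≤ v := by omega
  refine ⟨?_, K.noE2a W hu F M f3 hv, K.noR2 W hu F M f3 hv⟩
  intro z x x' h hl
  have l1 := (h.lev_eq H).1
  have l2 := (h.lev_eq H).2
  obtain ⟨s, s', h1, d, d'⟩ := K.left2 (V := pk V0 V1 ((v : ℤ) - 81) 0) hR.noP tabD
    (nO := nOD) (nE := nED) (lb := lbD) hB 200 3 h hl (sok11 (by omega)) (sok11 (by omega))
  rw [uD] at h1
  exact ⟨s, s', restD _ h1, d, d'⟩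

end Pool.Agent.GaussPoset.Sm
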