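import Pool.Agent.W_448jx_h67.WtA

/-!
The tables of the window `3`, cap `30` (MP_448cb3_co, HJoin10)
-/

namespace Pool.Agent.GaussPoset.Sm

set_option linter.unusedSectionVars false

open Finset Wd

/-- lines with `g`, by `κ`, window `3`, cap `30` -/
def LG : List (List ℤ) :=
  [[], [], [3], [-2, -1, 0, 1, 2, 3], [-7, -6, -5, -4, -3, -2, -1, 0, 1, 2, 3, 8], [-6, -3, -2,
  -1, 0, 1, 2, 3, 4, 5, 6, 7], [-11, -10, -9, -8, -7, -6, -5, -4, -3], [-22, -17], [-27, -26, -25,
  -24, -23], [], [-40]]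

/-- caps, window `3`, cap `30` -/
def cpG : ℕ → ℤ := pk 57 44 35 30

/-- odd noise, window `3`, cap `30` -/
def nOG : ℕ → ℤ → Bool :=
  pk nf nf (fun V => ([-9] : List ℤ).elem V) (fun V => ([-10] : List ℤ).elem V)

/-- even noise, window `3`, cap `30` -/
def nEG : ℕ → ℤ → Bool :=
  pk nf (nz 10) (fun V => nz 9 V || ([24, 34, 35] : List ℤ).elem V)
    (fun V => nz 8 V || ([-24, 29] : List ℤ).elem V)

/-- lower bounds, window `3`, cap `30` -/
def lbG : ℕ → ℤ := pk 0 0 (-81) (-64)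

set_option maxRecDepth 100000 in
theorem tabG : Tab2 10 3 cpG LG E10 S10r S10b (XR RE) := by
  refine ⟨by norm_num, chkE10, chkT10, ?_, ?_, ?_, ?_, ?_, ?_, ?_, ?_, ?_⟩
  · decide +kernel
  · decide +kernel
  · decide +kernel
  · decide +kernel
  · intro _ h
    decide +kernel
  · decide +kernel
  · decide +kernel
  · decide +kernel
  · decide +kernel

lemma uG : ubd 10 3 cpG lbG LG nOG nEG 200 3 = [48, 43, 36, 31] := by
  decide +kernel

lemma restG : ∀ p ∈ rest 10 E10 (XR RE) [48, 43, 36, 31], p ∈ REE := by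
  decide +kernel

end Pool.Agent.GaussPoset.Sm
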