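import Pool.Agent.W_448jx_h67.WgD
import Pool.Agent.W_448jx_h67.WfE
import Pool.Agent.W_448jx_h67.WeW
import Pool.Agent.W_448jx_h67.WtF

/-!
The window `3`, cap `30`, and the end (MP_448cb3_co, HJoin10)
-/

namespace Pool.Agent.GaussPoset.Sm

set_option linter.unusedSectionVars false

open Finset Wd

universe u

variable {P : Type u} [Fintype P] [PartialOrder P] [DecidableEq P] {r w : ℕ}
  {lo hi : Tops P → ℕ → ℕ} {e : Tops P → ℕ → ℕ → P} {R R' : List ((ℕ × ℕ × ℕ) × (ℕ × ℕ × ℕ))}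

lemma HR.mono (h : HR P R) (hs : ∀ p ∈ R, p ∈ R') : HR P R' := fun z x x' hz hl => by
  obtain ⟨s, s', h1, h2, h3⟩ := h z x x' hz hl
  exact ⟨s, s', hs _ h1, h2, h3⟩

lemma f_RE : ∀ p ∈ RE, p.1 = (10, 50, 1) → p.2 = (3, 9, 1) ∨ p.2 = (5, 20, 1) ∨
    p.2 = (10, 50, 1) := by
  decide +kernel

lemma e_RE : ∀ p ∈ RE, p.1 ≠ (5, 25, 0) := by decide +kernel

/-- **the window `3`, cap `30`** -/
theorem inE_G (K : Ctx P r 10 lo hi e) (hR : HR P RE) (hcc : NoCC P 10) :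
    InE P 3 94 (XL (10 + 1 - 3) [-24, 29]) (XL (10 + 1 - 3) [-10]) where
  hcc := Or.inl hcc
  hfj := by
    rintro z x x' ⟨h, hl, hf⟩
    obtain ⟨s, h1, d⟩ := hR.fold K h hl hf
    obtain ⟨c1, c2, c3⟩ := fo_join3 hl (h.sums K.gt.H hl) hf d
    have a := d.A
    have b := d.B
    have g := d.G
    have l2 := d.l2
    have l3 := d.l3
    have l4 := d.l4
    have l5 := d.l5
    have l6 := d.l6
    have l7 := d.l7
    have h2 := f_RE _ h1 rfl
    simp only at h2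
    show OkL 3 94 _ _ 6 z
    rcases h2 with rfl | rfl | rfl
    · have nf := d.nf (by norm_num)
      simp only at a b g c1 c2 c3
      refine okLe_of (c := 93) (n := 24) (by omega) (by omega) (Or.inr (c3 (by omega))) ?_
      decide +kernel
    · left
      simp only at c1
      omega
    · left
      simp only at c1
      omega
  hfp := Or.inr (by
    refine OkN.okv (y := 10 + 1 - 3) (LE := [-24, 29]) (LO := [-10]) ?_
    decide +kernel)
  hej := by
    intro _ z x x' h hl hE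
    obtain ⟨s, h1, d⟩ := hR.e6 K h hl hE
    exact absurd rfl (e_RE _ h1)
  hep := fun _ => Or.inr (by
    refine OkN.okv (y := 10 + 1 - 3) (LE := [-24, 29]) (LO := [-10]) ?_
    decide +kernel)

lemma RE_RD : ∀ p ∈ RE, p ∈ RD := by decide +kernel

lemma REE_cases : ∀ p ∈ REE, p ∈ J10.RL ∨ p = ((10, 50, 1), (3, 9, 1)) ∨
    p = ((3, 9, 1), (10, 50, 1)) := by
  decide +kernel

/-- **the pairs of ends which are left after the window `3`, cap `30`** -/
theorem Ctx.hRL (K : Ctx P r 10 lo hi e) (hR : HR P RE) (hcc : NoCC P 10) (hE : NoE2a P 10)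
    (hP : NoR2 P 10) (hF2 : FoldP P r 2 116 (fun t => hi t 2 - lo t 2 + 1))
    (hF3 : FoldP P r 3 94 (fun t => hi t 3 - lo t 3 + 1)) : HR P J10.RL := by
  intro z x x' h hl
  have H := K.gt.H
  have hJ : ∃ z : P, Hul.Jn z := ⟨z, h.jn⟩
  obtain ⟨V0, V1, B0, B1⟩ := K.win01 hJ
  obtain ⟨v2, B2⟩ : ∃ v : ℕ, WinB P 10 2 35 (fun V => ([-9] : List ℤ).elem V)
      (fun V => nz ((10 + 1 - 2 : ℕ) : ℤ) V || ([24, 34, 35] : List ℤ).elem V) (-81)
      ((v : ℤ) - ((10 + 1 - 2 : ℕ) : ℤ) ^ 2) := by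
    obtain ⟨N, θ, W, hu⟩ := K.exists_we (w := 2) (K0 := 110) (Or.inl rfl) (by norm_num)
      (by decide +kernel) (by decide +kernel)
    obtain ⟨Zf, FT, hF, F, f1, f2, f3⟩ := hF2 110 N θ W hu
    obtain ⟨v, M, B2⟩ := K.winE (Or.inl rfl) W hu F (inE_D K (hR.mono RE_RD))
      (W.cellsC (by norm_num) (by norm_num) (by norm_num) numD (fun h => h.elim)
        (fun h => h.elim) (fun _ => f1) (fun _ => f2))
      (cT := 35) (lb := -81) (by norm_num) (by norm_num) (by norm_num) (by norm_num)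
      (by decide) (by decide) hJ
    exact ⟨v, B2⟩
  obtain ⟨N, θ, W, hu⟩ := K.exists_we (w := 3) (K0 := 86) (Or.inr rfl) (by norm_num)
    (by decide +kernel) (by decide +kernel)
  obtain ⟨Zf, FT, hF, F, f1, f2, f3⟩ := hF3 86 N θ W hu
  obtain ⟨v, M, B3⟩ := K.winE (Or.inr rfl) W hu F (inE_G K hR hcc)
    (W.cellsC (by norm_num) (by norm_num) (by norm_num) numG (fun _ => hE)
      (fun _ => hP) (fun _ => f1) (fun _ => f2))
    (cT := 30) (lb := -64) (by norm_num) (by norm_num) (by norm_num) (by norm_num)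
    (by decide) (by decide) hJ
  have hB : ∀ w ≤ 3, WinB P 10 w (cpG w) (nOG w) (nEG w) (lbG w)
      (pk V0 V1 ((v2 : ℤ) - 81) ((v : ℤ) - 64) w) := by
    intro w hw
    have hw' : w = 0 ∨ w = 1 ∨ w = 2 ∨ w = 3 := by omega
    rcases hw' with rfl | rfl | rfl | rfl
    · exact B0
    · exact B1
    · exact B2
    · exact B3
  have hb := (K.boundsV (V := pk V0 V1 ((v2 : ℤ) - 81) ((v : ℤ) - 64)) hR.noP tabG
    (nO := nOG) (nE := nEG) (lb := lbG) hB 200 3).2 3 le_rfl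
  change (ubd 10 3 cpG lbG LG nOG nEG 200 3).getD 3 0 ≤ (v : ℤ) - 64 at hb
  rw [uG] at hb
  norm_num at hb
  have hv : 95 ≤ v := by omega
  have l1 := (h.lev_eq H).1
  have l2 := (h.lev_eq H).2
  obtain ⟨s, s', h1, d, d'⟩ := K.left2 (V := pk V0 V1 ((v2 : ℤ) - 81) ((v : ℤ) - 64)) hR.noP
    tabG (nO := nOG) (nE := nEG) (lb := lbG) hB 200 3 h hl (sok11 (by omega)) (sok11 (by omega))
  rw [uG] at h1
  have key : ∀ {y y' : P}, Cg z y y' → Dt 10 y (10, 50, 1) → Dt 10 y' (3, 9, 1) → False := by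
    intro y y' hy hd hs
    have sd := K.sd hy.symm hl hs
    have h4 := K.mn_fold3 W F M hy hl (K.fold_of hy hl hd) sd
    have nf := sd.nf (by norm_num)
    simp only at h4
    omega
  rcases REE_cases _ (restG _ h1) with h2 | h2 | h2
  · exact ⟨s, s', h2, d, d'⟩
  · rw [Prod.mk.injEq] at h2
    exact (key h (h2.1 ▸ d) (h2.2 ▸ d')).elim
  · rw [Prod.mk.injEq] at h2
    exact (key h.symm (h2.2 ▸ d') (h2.1 ▸ d)).elim

lemma RB_RC : ∀ p ∈ J10.dropP RB (1, 5, 0) (10, 50, 1), p ∈ RC := by decide +kernel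

lemma RDD_29 : ∀ p ∈ RDD, 29 ≤ J10.kc p := by decide +kernel

lemma RDD_RB : ∀ p ∈ RDD, p ∈ RB := by decide +kernel

lemma RDD_RE : ∀ p ∈ J10.dropP RDD (5, 25, 0) (10, 50, 1), p ∈ RE := by decide +kernel

lemma RE_31 : ∀ p ∈ RE, 31 ≤ J10.kc p := by decide +kernel

lemma RE_RB : ∀ p ∈ RE, p ∈ RB := by decide +kernel

/-- **No joins of level `11` at `j = 10`**, with the fold packages. -/
theorem Ctx.no_join10 (K : Ctx P r 10 lo hi e)
    (hF2 : FoldP P r 2 116 (fun t => hi t 2 - lo t 2 + 1))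
    (hF3 : FoldP P r 3 94 (fun t => hi t 3 - lo t 3 + 1)) :
    ∀ z : P, lev z = 11 → ¬ Hul.Jn z := by
  intro z hl hj
  have hJ : ∃ z : P, Hul.Jn z := ⟨z, hj⟩
  have h1 : HR P RC := (J10.kill15 K K.hRB).mono RB_RC
  obtain ⟨h2, hE, hP⟩ := K.stepD (K.hRD h1 hF2) hF2 hJ
  have h3 : HR P RE := (J10.killE6 K h2 RDD_RB RDD_29).mono RDD_RE
  have hcc := K.noCC_10 h3 RE_RB RE_31
  exact J10.no_joins K (K.hRL h3 hcc hE hP hF2 hF3) z hl hj

end Pool.Agent.GaussPoset.Sm
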