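import Pool.Agent.W_448jx_h67.WhA

/-!
The windows `2`, `3` at `j = 10`: the twins of the cell `(5, 6)` seen from above
(MP_448cb3_co, HJoin10)
-/

namespace Pool.Agent.GaussPoset.Sm

set_option linter.unusedSectionVars false

open Finset

universe u

variable {P : Type u} [Fintype P] [PartialOrder P] [DecidableEq P] {r w K0 K : ℕ}
  {N : Tops P → Finset P} {b : Tops P → ℕ} {θ : Tops P → P → ℕ} {B : Tops P → P → Prop}

/-- twins of the cell `(5, 6)` -/
lemma We.fc_of_foX (W : We r 10 w K0 N b θ) {x : P} (hx : x ∈ twA N)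
    (h : FoX 10 w N (twT N x)) : Fc 10 x := by
  obtain ⟨Nc, co, h0, h1, hm, c1, c2⟩ := h
  have hup := W.twSys.up x hx
  have hl := h0.chart.lev _ hm
  have el : lev (twT N x) = lev x := lev_eq_of_up hup
  have n9 := stair_nab h0.chart hm (k := 9) (by omega)
  have n8 := stair_nab h0.chart hm (k := 8) (by omega)
  have e9 : nab 9 (twT N x) = nab 9 x := nab_congr_up hup (by omega)
  have e8 : nab 8 (twT N x) = nab 8 x := nab_congr_up hup (by omega)
  refine ⟨by omega, ?_, ?_⟩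
  · show nab 9 x = 2
    omega
  · show nab 8 x = 3
    omega

/-- pendants below a twin of the cell `(5, 6)` -/
lemma mem_zfA_of {z x : P} (hz : z ∈ rA N) (hx : x ∈ twA N) (hF : Fc 10 x)
    (hzx : z ⋖ x) (honly : ∀ y, z ⋖ y → y = x) : z ∈ zfA 10 N := by
  refine mem_zfA.mpr ⟨hz, x, hx, hF, fun y => ⟨fun h => ?_, fun h => hzx.1.trans_le h⟩⟩
  obtain ⟨c, hc1, hc2⟩ := exists_covBy_le_of_lt h
  rw [honly c hc1] at hc2
  exact hc2

/-- a twin of the cell `(5, 6)` in the chart of its stair -/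
lemma FdX.foX_of (W : FdX r 10 w N b θ B) {x : P} (hx : x ∈ twA N) (hF : Fc 10 x) :
    FoX 10 w N (twT N x) := by
  obtain ⟨Nc, co, h0, h1, h2, h3, h4, h5⟩ := W.stair hx hF
  obtain ⟨c1, c2, c3, c4⟩ := W.cell hx hF h0 h1 h2
  have hcp : topOf (twT N x) = topOf x := W.tws.cp x hx
  refine ⟨Nc, co, by rw [hcp]; exact h0, by rw [hcp]; exact h1, c1, ?_, ?_⟩
  · rw [c3]
  · rw [c3]

/-- every component has elements on each low level -/
lemma Ctx.exists_lev {lo hi : Tops P → ℕ → ℕ} {e : Tops P → ℕ → ℕ → P}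
    (K : Ctx P r 10 lo hi e) (hw : w ≤ 10) (t : Tops P) : ∃ x ≤ (t : P), lev x = w := by
  have C := K.comp t
  have h1 := C.lo_le w (by omega)
  exact ⟨e t w (lo t w), C.le_t w (lo t w) hw le_rfl h1, C.lev_e w (lo t w) hw le_rfl h1⟩

end Pool.Agent.GaussPoset.Sm
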