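import Pool.Agent.W_448jx_h67.WgE
import Pool.Agent.W_448jx_h67.WhB
import Pool.Agent.W_448f4_h70.JQ

/-!
**No joins of level `11` at `j = 10`** (MP_448cb3_co, HJoin10)
-/

namespace Pool.Agent.GaussPoset.Sm

set_option linter.unusedSectionVars false

open Finset Wd

universe u

variable {P : Type u} [Fintype P] [PartialOrder P] [DecidableEq P] {r : ℕ}
  {lo hi : Tops P → ℕ → ℕ} {e : Tops P → ℕ → ℕ → P}

/-- the fold package at the window `2` -/
theorem Ctx.foldP2 (K : Ctx P r 10 lo hi e) :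
    FoldP P r 2 116 (fun t => hi t 2 - lo t 2 + 1) := by
  intro K0 N θ W _
  obtain ⟨B, W'⟩ := W.fdx (by norm_num) (K.exists_lev (w := 2) (by norm_num))
  exact ⟨zfA 10 N, Fc 10, hF 10 2 N (fun t => hi t 2 - lo t 2 + 1) θ,
    W'.fs (fun z hz => W.hA_celA le_rfl hz) (by rw [fcT_10_2]; norm_num)
      (fun n0 _ g x z hz hzx hzC h1 h2 h3 m hm => W.bigCFa W' hz hzx hzC h1 h2 h3 hm),
    fun x' hx' h => W.fc_of_foX hx' h,
    fun z hz x' hx' h1 h2 h3 => mem_zfA_of hz hx' h1 h2 h3,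
    fun x' hx' h => W'.foX_of hx' h⟩

/-- the fold package at the window `3` -/
theorem Ctx.foldP3 (K : Ctx P r 10 lo hi e) (hcc : NoCC P 10) :
    FoldP P r 3 94 (fun t => hi t 3 - lo t 3 + 1) := by
  intro K0 N θ W _
  have hex := K.exists_lev (w := 3) (by norm_num)
  obtain ⟨B, W'⟩ := W.fdx (by norm_num) hex
  exact ⟨zfA 10 N, Fc 10, hF 10 3 N (fun t => hi t 3 - lo t 3 + 1) θ,
    W.fsF (by norm_num) hcc hex (by rw [fcT_10_3]),
    fun x' hx' h => W.fc_of_foX hx' h,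
    fun z hz x' hx' h1 h2 h3 => mem_zfA_of hz hx' h1 h2 h3,
    fun x' hx' h => W'.foX_of hx' h⟩

/-- **No joins of level `11` at `j = 10`.** -/
theorem no_join10 (K : Ctx P r 10 lo hi e) {z : P} (hl : lev z = 11) : ¬ Hul.Jn z := by
  intro hj
  have hJ : ∃ z : P, Hul.Jn z := ⟨z, hj⟩
  have h1 : HR P RC := (J10.kill15 K K.hRB).mono RB_RC
  obtain ⟨h2, hE, hP⟩ := K.stepD (K.hRD h1 K.foldP2) K.foldP2 hJ
  have h3 : HR P RE := (J10.killE6 K h2 RDD_RB RDD_29).mono RDD_RE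
  have hcc := K.noCC_10 h3 RE_RB RE_31
  exact J10.no_joins K (K.hRL h3 hcc hE hP K.foldP2 (K.foldP3 hcc)) z hl hj

end Pool.Agent.GaussPoset.Sm
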